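import Pool.Agent.SDN.Defs

/-!
TOG: toggles. A toggle replaces the piece R L R of a word by the piece L R R R L (the walk goes around a face on the
other side: two more steps). Places = faces of one colour class (faces of the same colour have no common vertex) at
distance more than R0 from the origin. The literals.
-/

set_option autoImplicit false

namespace HexObs

namespace TOG

open Finset TS SDN

/-- the short form: right, left, right -/
def pS : List Bool := [false, true, false]

/-- the long form: left, right, right, right, left -/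
def pL : List Bool := [true, false, false, false, true]

/-- the centre of the face in front of the tip of the word X -/
def ctr (X : List Bool) : Pt := tip oo up X + dx up X X.length

/-- the allowed faces: one colour class (centres have a.1 - a.2 = 1 mod 3, the colour is a.1 mod 3), distance more than
R0 from the origin -/
def Fc (R0 : ℕ) (c : Pt) : Prop := (3 : ℤ) ∣ c.1 ∧ (R0 : ℤ) ^ 2 < nrm c

/-- short place number i of t: the next three letters are R L R and the long form is self-avoiding, too -/
def PlS (R0 : ℕ) (t : List Bool) (i : ℕ) : Prop :=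
  Fc R0 (ctr (t.take i)) ∧ ∃ Y, t = t.take i ++ (pS ++ Y) ∧ t.take i ++ (pL ++ Y) ∈ SA

/-- long place number i of t: the next five letters are L R R R L and the short form is self-avoiding, too -/
def PlL (R0 : ℕ) (t : List Bool) (i : ℕ) : Prop :=
  Fc R0 (ctr (t.take i)) ∧ ∃ Y, t = t.take i ++ (pL ++ Y) ∧ t.take i ++ (pS ++ Y) ∈ SA

open Classical in
/-- number of the short places -/
noncomputable def uS (R0 : ℕ) (t : List Bool) : ℕ := ((range (t.length + 1)).filter (PlS R0 t)).card

open Classical in
/-- number of the long places -/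
noncomputable def vL (R0 : ℕ) (t : List Bool) : ℕ := ((range (t.length + 1)).filter (PlL R0 t)).card

/-- events that do not change under a toggle at an allowed face -/
def TogInv (R0 : ℕ) (C : Set (List Bool)) : Prop := ∀ X Y, Fc R0 (ctr X) → X ++ (pS ++ Y) ∈ SA → X ++ (pL ++ Y) ∈ SA →
  (X ++ (pS ++ Y) ∈ C ↔ X ++ (pL ++ Y) ∈ C)

/-- number of the words with n letters in C with u short and v long places -/
noncomputable def NN (R0 : ℕ) (C : Set (List Bool)) (n u v : ℕ) : ℕ :=
  {t | t ∈ SawN n ∧ t ∈ C ∧ uS R0 t = u ∧ vL R0 t = v}.ncard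

/-- (93) the toggle identity -/
def TogCount : Prop := ∀ (R0 : ℕ) (C : Set (List Bool)), TogInv R0 C → ∀ n u v : ℕ,
  (u + 1) * NN R0 C n (u + 1) v = (v + 1) * NN R0 C (n + 2) u (v + 1)

/-- (58) many long places: more than V log n of them with probability tending to 1, for every V -/
def ManyL : Prop := ∀ (R0 V : ℕ) (e : ℝ), 0 < e → ∃ n0 : ℕ, ∀ n, n0 ≤ n →
  ({t | t ∈ SawN n ∧ (vL R0 t : ℝ) ≤ V * Real.log n}.ncard : ℝ) ≤ e * cS n

/-- polynomial bounds for the number of the words with n letters -/
def PolyB : Prop := ∃ K : ℕ, ∀ n : ℕ, 1 ≤ n → 1 / (n : ℝ) ^ K ≤ cS n * xc ^ n ∧ (cS n : ℝ) * xc ^ n ≤ (n : ℝ) ^ K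

/-- probability of the event C for the walks with n letters -/
noncomputable def Pn (n : ℕ) (C : Set (List Bool)) : ℝ := ({t | t ∈ SawN n ∧ t ∈ C}.ncard : ℝ) / cS n

/-- (47) output 1: the laws of toggle invariant events hardly change when two letters are added, uniformly in the event -/
def TogLim : Prop := ∀ (R0 : ℕ) (e : ℝ), 0 < e → ∃ n0 : ℕ, ∀ n, n0 ≤ n → ∀ C : Set (List Bool), TogInv R0 C →
  |Pn (n + 2) C - Pn n C| ≤ e

/-- (47) output 2: the ratio over two letters -/
def Ratio2 : Prop := Filter.Tendsto (fun n : ℕ => (cS (n + 2) : ℝ) / cS n) Filter.atTop (nhds (1 / xc ^ 2))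

end TOG

end HexObs
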