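import Pool.Agent.TOG.FewM
import Pool.Agent.SIM.FewX
import Pool.Agent.HexWall.Sym
import Pool.Agent.EN.FactsZ
import Pool.Agent.BAR.Power

/-!
TOG: a walk contains a product of many irreducible bridges. The theorem for every number of letters (helper49).
-/

set_option autoImplicit false

namespace HexObs

namespace TOG

open Finset TS SDN NTW NTA HexObs.SIM

open scoped ENNReal

lemma LgZ.mw {V : ℕ} {Z : List Bool} (h : LgZ V Z) : LgZ V (EN.mw Z) := by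
  obtain ⟨l, h1, h2, h3⟩ := h
  refine ⟨l.map EN.mw, ?_, ?_, by rwa [List.length_map]⟩
  · intro k hk
    obtain ⟨k', hk', rfl⟩ := List.mem_map.1 hk
    obtain ⟨r, hr⟩ := h1 k' hk'
    exact ⟨r, Irr_not hr⟩
  · rw [h2]
    unfold EN.mw
    rw [List.map_flatten]

lemma NoLg.mw {V : ℕ} {t : List Bool} (h : NoLg V t) : NoLg V (EN.mw t) := by
  rintro ⟨X, Z, Y, h1, ⟨r, h2⟩, h3⟩
  refine h ⟨EN.mw X, EN.mw Z, EN.mw Y, ?_, ⟨r, Brd_not h2⟩, h3.mw⟩
  rw [← EN.mw_mw t, h1]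
  unfold EN.mw
  rw [List.map_append, List.map_append]

lemma NoLg.right {V : ℕ} {s t : List Bool} (h : NoLg V (s ++ t)) : NoLg V t := by
  rintro ⟨X, Z, Y, h1, h2, h3⟩
  exact h ⟨s ++ X, Z, Y, by rw [h1, List.append_assoc], h2, h3⟩

/-- **few walks do not contain a product of δ Ub k irreducible bridges** -/
theorem noLg_of {m : ℕ → ℝ} (hm : ∀ k, 0 < m k) (hmono : Monotone m) (hMU : MUp m) (hG : EN.GBU m) (hEv : EvAX m)
    (hE : EN.ESPw m) (hF : FewX m) {e : ℝ} (he : 0 < e) : ∃ (δ : ℝ) (k0 : ℕ), 0 < δ ∧ ∀ k n V : ℕ, k0 ≤ k → m k ≤ n →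
      n < m (k + 1) → (V : ℝ) ≤ δ * Ub k → gf {t | t ∈ SawN n ∧ NoLg V t} ≤ ENNReal.ofReal e * nuX m k := by
  obtain ⟨Y, hY, hconv⟩ := SB.conv hm hmono
  obtain ⟨A, i0, k1, hA, hout⟩ := EN.tail_out hE 1
  obtain ⟨J, hJ0, hJ⟩ : ∃ J, i0 ≤ J ∧ A / 2 ^ (1 * J) ≤ e / 2 := by
    obtain ⟨j, hj⟩ := pow_unbounded_of_one_lt (A / (e / 2)) (show (1 : ℝ) < 2 by norm_num)
    refine ⟨i0 + j, by omega, ?_⟩
    rw [div_lt_iff₀ (by positivity)] at hj
    rw [div_le_iff₀ (by positivity), one_mul, pow_add]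
    have h1 : (1 : ℝ) ≤ 2 ^ i0 := one_le_pow₀ (by norm_num)
    have h2 : (0 : ℝ) < 2 ^ j := by positivity
    calc A ≤ 2 ^ j * (e / 2) := hj.le
      _ = e / 2 * (1 * 2 ^ j) := by ring
      _ ≤ e / 2 * (2 ^ i0 * 2 ^ j) := by gcongr
  obtain ⟨M, hM⟩ := many_F hm hMU hG hEv
  have hCD := DirA.CD_ge
  have hY0 : 0 < Y := by linarith
  have hCD0 : 0 < DirA.CD := by linarith
  obtain ⟨e1, he1⟩ : ∃ e1 : ℝ, e1 = e / 4 / Y ^ J := ⟨_, rfl⟩
  have he10 : 0 < e1 := by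
    rw [he1]
    positivity
  obtain ⟨J', k2, hfew⟩ := hF (M + 2) J 1 e1 one_pos he10
  obtain ⟨e2, he2⟩ : ∃ e2 : ℝ, e2 = e / 8 / ((2 + DirA.CD) * Y ^ (J + 3)) := ⟨_, rfl⟩
  have he20 : 0 < e2 := by
    rw [he2]
    positivity
  obtain ⟨Am, k3, hAm, hmany⟩ := hM (J + 3) J' e2 he20
  refine ⟨e2 / Am, (k1 + k2) + (k3 + (J' + 2)), by positivity, fun k n V hk h1 h2 hV => ?_⟩
  have hUk := Ub_pos k
  have hVA : e2 + Am * V / Ub k ≤ 2 * e2 := by
    have h3 : Am * V / Ub k ≤ e2 := by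
      rw [div_le_iff₀ hUk]
      calc Am * V ≤ Am * (e2 / Am * Ub k) := mul_le_mul_of_nonneg_left hV (by linarith)
        _ = e2 * Ub k := by field_simp
    linarith
  have hR : 4 < RR (k - J') := by
    unfold RR
    have : (2 : ℤ) ^ 2 ≤ 2 ^ (k - J') := pow_le_pow_right₀ (by norm_num) (by omega)
    norm_num at this
    linarith
  obtain ⟨H, hHd⟩ : ∃ H : Set (List Bool), H = {t | t ∈ WL (k + J + 3) ∧
    (∃ i, i ≤ t.length ∧ Many t i M (RR (k - J'))) ∧ NoLg V t} := ⟨_, rfl⟩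
  obtain ⟨F, hFd⟩ : ∃ F : Set (List Bool), F = {t | (t.length = n ∧ t ∈ WL (k + J)) ∧ ∃ i : ℕ, 1 * (n : ℝ) ≤ i ∧
    i ≤ t.length ∧ ∃ p q : Fin 3, p ≠ q ∧ ∀ d, d = p ∨ d = q →
      ¬ EN.Alt (fun a => EN.lv3 d (vx oo up t a)) i (M + 2) (RR (k - J'))} := ⟨_, rfl⟩
  obtain ⟨B, hB⟩ : ∃ B, B = ENNReal.ofReal (2 * e2 * (Ub (k + (J + 3)) / m (k + (J + 3)))) * Xb (k + (J + 3)) ^ 2 :=
    ⟨_, rfl⟩
  have hHn : ∀ n', gf {s | s ∈ H ∧ s.length = n'} ≤ B := by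
    intro n'
    rw [hB]
    refine (gf_mono fun t ht => ?_).trans ((hmany k n' V (by omega)).trans
      (mul_le_mul_left (ENNReal.ofReal_le_ofReal (mul_le_mul_of_nonneg_right hVA ?_)) _))
    · rw [hHd] at ht
      obtain ⟨⟨a1, a2, a3⟩, a4⟩ := ht
      exact ⟨⟨a4, a1⟩, a2, a3⟩
    · have := Ub_pos (k + (J + 3))
      have := hm (k + (J + 3))
      positivity
  have hsub : {t | t ∈ SawN n ∧ NoLg V t} ⊆
      {t | t ∈ SA ∧ t.length = n ∧ t ∉ WL (k + J)} ∪ (F ∪ (({t | t ∈ H ∧ t.length = n} ∪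
        {t | EN.mw t ∈ {s | s ∈ H ∧ s.length = n}}) ∪ {t | t.length = n ∧ ∃ q, ∃ s ∈ H, t = DirA.Qz q ++ s})) := by
    rintro t ⟨⟨ht1, ht2⟩, ht3⟩
    by_cases hW : t ∈ WL (k + J)
    · right
      by_cases hFt : t ∈ F
      · exact Or.inl hFt
      · right
        have hal : ∀ p q : Fin 3, p ≠ q → EN.Alt (fun a => EN.lv3 p (vx oo up t a)) n (M + 2) (RR (k - J')) ∨
            EN.Alt (fun a => EN.lv3 q (vx oo up t a)) n (M + 2) (RR (k - J')) := by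
          intro p q hpq
          by_contra hc
          push Not at hc
          apply hFt
          rw [hFd]
          refine ⟨⟨ht1, hW⟩, n, by rw [one_mul], by omega, p, q, hpq, ?_⟩
          rintro d (rfl | rfl)
          · exact hc.1
          · exact hc.2
        rcases SB.frames hW (i := n) (l := n) (j := n) le_rfl le_rfl (by omega) hR (x := 0) (y := 0) hal (by
            refine ⟨false, ?_⟩
            rw [mul_zero]
            exact abs_nonneg _) (fun dir => by simp) with h | h | ⟨q, s, h, hs⟩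
        · left
          left
          obtain ⟨a1, i, l, j, a2, a3, a4, a5, -, -⟩ := h
          rw [hHd]
          exact ⟨⟨a1, ⟨i, by omega, a5⟩, ht3⟩, ht1⟩
        · left
          right
          obtain ⟨a1, i, l, j, a2, a3, a4, a5, -, -⟩ := h
          rw [hHd]
          exact ⟨⟨a1, ⟨i, by omega, a5⟩, ht3.mw⟩, by rw [EN.mw_length]; exact ht1⟩
        · right
          obtain ⟨a1, i, l, j, a2, a3, a4, a5, -, -⟩ := h
          rw [hHd]
          refine ⟨ht1, q, s, ⟨a1, ⟨i, by omega, a5⟩, ?_⟩, hs⟩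
          rw [hs] at ht3
          exact ht3.right
    · exact Or.inl ⟨ht2, ht1, hW⟩
  have g1 : gf {t | t ∈ SA ∧ t.length = n ∧ t ∉ WL (k + J)} ≤ ENNReal.ofReal (e / 2) * nuX m k :=
    (hout k J n (by omega) hJ0 h1 h2).trans (mul_le_mul_left (ENNReal.ofReal_le_ofReal hJ) _)
  have g2 : gf F ≤ ENNReal.ofReal (e / 4) * nuX m k := by
    rw [hFd]
    refine (hfew k n (by omega) h1).trans ((hconv k J e1 he10.le).trans (le_of_eq ?_))
    congr 2
    rw [he1]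
    field_simp
  have g3 : gf {t | EN.mw t ∈ {s | s ∈ H ∧ s.length = n}} ≤ B := (EN.gf_mw_le fun t ht => ht).trans (hHn n)
  have g4 : gf {t | t.length = n ∧ ∃ q, ∃ s ∈ H, t = DirA.Qz q ++ s} ≤ ENNReal.ofReal DirA.CD * B := EN.EX.gf_zzX hHn
  have g5 : B + B + ENNReal.ofReal DirA.CD * B ≤ ENNReal.ofReal (e / 4) * nuX m k := by
    have e1 : B + B + ENNReal.ofReal DirA.CD * B = ENNReal.ofReal (2 + DirA.CD) * B := by
      rw [ENNReal.ofReal_add (by norm_num) hCD0.le, add_mul]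
      congr 1
      rw [show ENNReal.ofReal 2 = 2 by norm_num, two_mul]
    rw [e1, hB]
    refine (mul_le_mul_right (hconv k (J + 3) (2 * e2) (by positivity)) _).trans (le_of_eq ?_)
    rw [← mul_assoc, ← ENNReal.ofReal_mul (by positivity)]
    congr 2
    rw [he2]
    field_simp
    norm_num
  refine (gf_mono hsub).trans ((gf_union_le _ _).trans ?_)
  calc _ ≤ ENNReal.ofReal (e / 2) * nuX m k + (ENNReal.ofReal (e / 4) * nuX m k + ENNReal.ofReal (e / 4) * nuX m k) := by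
        refine add_le_add g1 ((gf_union_le _ _).trans (add_le_add g2 ?_))
        refine ((gf_union_le _ _).trans (add_le_add ((gf_union_le _ _).trans (add_le_add (hHn n) g3)) g4)).trans g5
    _ = _ := by
        rw [← add_mul, ← add_mul, ← ENNReal.ofReal_add (by positivity) (by positivity),
          ← ENNReal.ofReal_add (by positivity) (by positivity)]
        congr 2
        ring

/-- the sequence of the scales is monotone and unbounded -/
lemma scale_ex {m : ℕ → ℝ} (hmono : Monotone m) (hlow : MLow m) (k0 : ℕ) : ∃ n0 : ℕ, ∀ n : ℕ, n0 ≤ n →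
    ∃ k, k0 ≤ k ∧ m k ≤ n ∧ n < m (k + 1) := by
  classical
  obtain ⟨n0, hn0⟩ := exists_nat_gt (m k0)
  refine ⟨n0, fun n hn => ?_⟩
  have hex : ∃ k, (n : ℝ) < m k := by
    have hm0 := hlow.pos 0
    obtain ⟨j, hj⟩ := exists_nat_gt (n / m 0)
    refine ⟨j, ?_⟩
    have h1 := hlow.low 0 j
    rw [Nat.zero_add] at h1
    have h3 : (j : ℝ) ≤ (2 : ℝ) ^ (5 / 4 * (j : ℝ)) := by
      have h4 : (j : ℝ) ≤ (2 : ℝ) ^ (j : ℝ) := by
        rw [Real.rpow_natCast]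
        exact_mod_cast Nat.lt_two_pow_self.le
      refine h4.trans (Real.rpow_le_rpow_of_exponent_le (by norm_num) ?_)
      have : (0 : ℝ) ≤ j := Nat.cast_nonneg j
      linarith
    rw [div_lt_iff₀ hm0] at hj
    calc (n : ℝ) < j * m 0 := hj
      _ ≤ (2 : ℝ) ^ (5 / 4 * (j : ℝ)) * m 0 := by gcongr
      _ ≤ m j := h1
  have h1 : m k0 ≤ n := by
    have : (n0 : ℝ) ≤ n := by exact_mod_cast hn
    linarith
  have h2 := Nat.find_spec hex
  have h3 : k0 < Nat.find hex := by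
    by_contra hc
    have := hmono (not_lt.1 hc)
    linarith
  refine ⟨Nat.find hex - 1, by omega, ?_, ?_⟩
  · exact not_lt.1 (Nat.find_min hex (by omega))
  · rw [Nat.sub_add_cancel (by omega)]
    exact h2

/-- the mass Ub k against the number of letters -/
lemma Ub_sqrt : ∃ c : ℝ, 0 < c ∧ ∀ k n : ℕ, (n : ℝ) < PW.mZ (2 ^ (k + 1)) → c * Real.sqrt n ≤ Ub k := by
  obtain ⟨a, C, ha, hC, h⟩ := PW.mZ_growth_32
  obtain ⟨c, C1, hc, hC1, hU⟩ := BAR.UU_two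
  have hm1 : 0 < PW.mZ 1 := PW.mZ_pos le_rfl
  obtain ⟨A, hA⟩ : ∃ A : ℝ, A = C * PW.mZ 1 := ⟨_, rfl⟩
  have hA0 : 0 < A := by rw [hA]; positivity
  refine ⟨c / (2 * Real.sqrt A), by have := Real.sqrt_pos.2 hA0; positivity, fun k n hn => ?_⟩
  have h1 := h 1 (2 ^ (k + 1)) le_rfl Nat.one_le_two_pow
  rw [Nat.cast_one, div_one] at h1
  have h2 : (1 : ℝ) ≤ ((2 ^ (k + 1) : ℕ) : ℝ) := by exact_mod_cast Nat.one_le_two_pow
  have h3 : (n : ℝ) ≤ A * ((2 ^ (k + 1) : ℕ) : ℝ) ^ (3 / 2 : ℝ) := by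
    calc (n : ℝ) ≤ C * ((2 ^ (k + 1) : ℕ) : ℝ) ^ a * PW.mZ 1 := hn.le.trans h1
      _ ≤ C * ((2 ^ (k + 1) : ℕ) : ℝ) ^ (3 / 2 : ℝ) * PW.mZ 1 := by
          have := Real.rpow_le_rpow_of_exponent_le h2 ha.le
          gcongr
      _ = _ := by rw [hA]; ring
  obtain ⟨N, hN⟩ : ∃ N : ℝ, N = ((2 ^ k : ℕ) : ℝ) := ⟨_, rfl⟩
  have hN0 : 0 < N := by rw [hN]; positivity
  have h4 : ((2 ^ (k + 1) : ℕ) : ℝ) = 2 * N := by
    rw [hN]
    push_cast
    ring
  rw [h4] at h3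
  have h5 : (2 * N) ^ (3 / 2 : ℝ) ≤ (2 * N ^ (3 / 4 : ℝ)) ^ 2 := by
    rw [Real.mul_rpow (by norm_num) hN0.le, mul_pow, ← Real.rpow_natCast (N ^ (3 / 4 : ℝ)), ← Real.rpow_mul hN0.le]
    have e1 : (2 : ℝ) ^ (3 / 2 : ℝ) ≤ 2 ^ 2 := by
      rw [← Real.rpow_natCast]
      exact Real.rpow_le_rpow_of_exponent_le (by norm_num) (by norm_num)
    have e2 : (3 / 4 : ℝ) * ((2 : ℕ) : ℝ) = 3 / 2 := by norm_num
    rw [e2]
    gcongr
  have h6 : Real.sqrt n ≤ Real.sqrt A * (2 * N ^ (3 / 4 : ℝ)) := by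
    rw [Real.sqrt_le_left (by positivity), mul_pow, Real.sq_sqrt hA0.le]
    exact h3.trans (mul_le_mul_of_nonneg_left h5 hA0.le)
  have h7 := (hU (2 ^ k) Nat.one_le_two_pow).1
  rw [← hN] at h7
  have hsA := Real.sqrt_pos.2 hA0
  calc c / (2 * Real.sqrt A) * Real.sqrt n ≤ c / (2 * Real.sqrt A) * (Real.sqrt A * (2 * N ^ (3 / 4 : ℝ))) := by gcongr
    _ = c * N ^ (3 / 4 : ℝ) := by field_simp
    _ ≤ UU (2 ^ k) := h7

/-- **a walk with n letters contains a bridge that is a product of δ sqrt n irreducible bridges, up to probability e** -/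
theorem noLg_M {e : ℝ} (he : 0 < e) : ∃ (δ : ℝ) (n0 : ℕ), 0 < δ ∧ ∀ n V : ℕ, n0 ≤ n → (V : ℝ) ≤ δ * Real.sqrt n →
    gf {t | t ∈ SawN n ∧ NoLg V t} ≤ ENNReal.ofReal e * gf (SawN n) := by
  have hm : ∀ k, 0 < PW.mZ (2 ^ k) := fun k => PW.mZ_pos Nat.one_le_two_pow
  have hmono : Monotone fun k => PW.mZ (2 ^ k) := fun a b h => PW.mZ_mono (Nat.pow_le_pow_right (by norm_num) h)
  obtain ⟨c, κ, k1, hc, -, hbig⟩ := EN.factsX_M.big
  obtain ⟨δ, k0, hδ, h⟩ := noLg_of hm hmono mup_M EN.gbu_M evAX EN.espw_M fewX_M (show 0 < e * c by positivity)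
  obtain ⟨c', hc', hU⟩ := Ub_sqrt
  obtain ⟨n0, hn0⟩ := scale_ex hmono mlow_M (max k0 k1)
  refine ⟨δ * c', n0, by positivity, fun n V hn hV => ?_⟩
  obtain ⟨k, hk, h1, h2⟩ := hn0 n hn
  refine (h k n V ((le_max_left _ _).trans hk) h1 h2 (hV.trans ?_)).trans ?_
  · rw [mul_assoc]
    exact mul_le_mul_of_nonneg_left (hU k n h2) hδ.le
  · rw [ENNReal.ofReal_mul he.le, mul_assoc]
    exact mul_le_mul_right ((hbig k n ((le_max_right _ _).trans hk) h1 h2).trans (gf_mono fun t ht => ht.1)) _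

end TOG

end HexObs
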