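import Pool.Agent.TOG.AbsLim
import Pool.Agent.TOG.Defs
import Pool.Agent.SDN.Frames
import Pool.Agent.SDN.SplitP
import Pool.Agent.HexWall.FlatB

/-!
# Toggles: the laws of the toggle invariant events and the ratio over two letters (row K of TIP)

Input: the toggle identity `TogCount` and many long places `ManyL`.  Output: `TogLim` and `Ratio2`.
-/

set_option autoImplicit false

namespace HexObs.TOG

open Finset TS SDN
open scoped ENNReal
open Filter

/-- the weights -/
noncomputable def GG (R0 : ℕ) (C : Set (List Bool)) (n r v : ℕ) : ℝ≥0∞ :=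
  gf {t | t ∈ SawN n ∧ t ∈ C ∧ uS R0 t + vL R0 t = r ∧ vL R0 t = v}

/-- the weight of a set of words with `n` letters. -/
theorem gf_ncard {n : ℕ} {S : Set (List Bool)} (h : S ⊆ SawN n) : gf S = ENNReal.ofReal (S.ncard * xc ^ n) := by
  have hf : S.Finite := (PHWDict.SawN_fin n).subset h
  have h1 : ((hf.toFinset : Finset (List Bool)) : Set (List Bool)) = S := Set.Finite.coe_toFinset _
  rw [← h1, gf_finset]
  congr 1
  have h2 : ∀ t ∈ hf.toFinset, xc ^ t.length = xc ^ n := by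
    intro t ht
    rw [Set.Finite.mem_toFinset] at ht
    rw [(h ht).1]
  rw [Finset.sum_congr rfl h2, Finset.sum_const, nsmul_eq_mul, h1, Set.ncard_eq_toFinset_card _ hf]

/-- the weights of the sets of pairs. -/
theorem wt_GG (R0 : ℕ) (C : Set (List Bool)) (n : ℕ) (P : ℕ → ℕ → Prop) :
    wt (GG R0 C) n P = gf {t | t ∈ SawN n ∧ t ∈ C ∧ P (uS R0 t + vL R0 t) (vL R0 t)} := by
  classical
  have h1 : ∀ p : ℕ × ℕ, ci (P p.1 p.2) (GG R0 C n p.1 p.2) =
      ∑' t : List Bool, if p = (uS R0 t + vL R0 t, vL R0 t) then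
        {t | t ∈ SawN n ∧ t ∈ C ∧ P (uS R0 t + vL R0 t) (vL R0 t)}.indicator wE t else 0 := by
    intro p
    by_cases hP : P p.1 p.2
    · rw [ci_pos hP, GG, Wall.gf_eq_tsum]
      refine tsum_congr fun t => ?_
      by_cases hp : p = (uS R0 t + vL R0 t, vL R0 t)
      · rw [if_pos hp]
        have e1 : p.1 = uS R0 t + vL R0 t := by rw [hp]
        have e2 : p.2 = vL R0 t := by rw [hp]
        by_cases ht : t ∈ SawN n ∧ t ∈ C
        · rw [Set.indicator_of_mem, Set.indicator_of_mem]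
          · exact ⟨ht.1, ht.2, by rw [← e1, ← e2]; exact hP⟩
          · exact ⟨ht.1, ht.2, e1.symm, e2.symm⟩
        · rw [Set.indicator_of_notMem, Set.indicator_of_notMem]
          · exact fun h => ht ⟨h.1, h.2.1⟩
          · exact fun h => ht ⟨h.1, h.2.1⟩
      · rw [if_neg hp, Set.indicator_of_notMem]
        intro h
        exact hp (Prod.ext h.2.2.1.symm h.2.2.2.symm)
    · rw [ci_neg hP]
      symm
      rw [ENNReal.tsum_eq_zero]
      intro t
      by_cases hp : p = (uS R0 t + vL R0 t, vL R0 t)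
      · rw [if_pos hp, Set.indicator_of_notMem]
        intro h
        apply hP
        have e1 : p.1 = uS R0 t + vL R0 t := by rw [hp]
        have e2 : p.2 = vL R0 t := by rw [hp]
        rw [e1, e2]
        exact h.2.2
      · rw [if_neg hp]
  unfold wt
  rw [tsum_congr h1, ENNReal.tsum_comm, Wall.gf_eq_tsum]
  refine tsum_congr fun t => ?_
  rw [tsum_ite_eq]

theorem tot_GG (R0 : ℕ) (C : Set (List Bool)) (n : ℕ) : tot (GG R0 C) n = gf {t | t ∈ SawN n ∧ t ∈ C} := by
  have h1 : tot (GG R0 C) n = wt (GG R0 C) n (fun _ _ => True) := by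
    unfold tot wt
    exact tsum_congr fun p => (ci_pos trivial _).symm
  rw [h1, wt_GG]
  congr 1
  ext t
  exact ⟨fun h => ⟨h.1, h.2.1⟩, fun h => ⟨h.1, h.2, trivial⟩⟩

/-- a place is not short and long. -/
theorem not_both {R0 : ℕ} {t : List Bool} {i : ℕ} (h1 : PlS R0 t i) (h2 : PlL R0 t i) : False := by
  obtain ⟨-, Y, hY, -⟩ := h1
  obtain ⟨-, Z, hZ, -⟩ := h2
  have h3 : t.take i ++ (pS ++ Y) = t.take i ++ (pL ++ Z) := hY.symm.trans hZ
  have h4 := List.append_cancel_left h3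
  unfold pS pL at h4
  simp at h4

theorem places_le (R0 : ℕ) (t : List Bool) : uS R0 t + vL R0 t ≤ t.length + 1 := by
  classical
  unfold uS vL
  rw [← Finset.card_union_of_disjoint]
  · refine (Finset.card_le_card (Finset.union_subset (Finset.filter_subset _ _) (Finset.filter_subset _ _))).trans ?_
    rw [Finset.card_range]
  · rw [Finset.disjoint_left]
    intro i hi hj
    exact not_both (Finset.mem_filter.1 hi).2 (Finset.mem_filter.1 hj).2

theorem GG_zero {R0 : ℕ} {C : Set (List Bool)} {n r v : ℕ} (h : r < v) : GG R0 C n r v = 0 := by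
  unfold GG
  have h1 : {t | t ∈ SawN n ∧ t ∈ C ∧ uS R0 t + vL R0 t = r ∧ vL R0 t = v} = ∅ := by
    rw [Set.eq_empty_iff_forall_notMem]
    rintro t ⟨-, -, h2, h3⟩
    omega
  rw [h1]
  simp [gf]

theorem GG_NN (R0 : ℕ) (C : Set (List Bool)) (n u v : ℕ) :
    GG R0 C n (u + v) v = ENNReal.ofReal (NN R0 C n u v * xc ^ n) := by
  unfold GG NN
  have h0 : {t | t ∈ SawN n ∧ t ∈ C ∧ uS R0 t + vL R0 t = u + v ∧ vL R0 t = v} =
      {t | t ∈ SawN n ∧ t ∈ C ∧ uS R0 t = u ∧ vL R0 t = v} := by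
    ext t
    constructor
    · rintro ⟨h1, h2, h3, h4⟩
      exact ⟨h1, h2, by omega, h4⟩
    · rintro ⟨h1, h2, h3, h4⟩
      exact ⟨h1, h2, by omega, h4⟩
  rw [h0, gf_ncard (n := n) (fun t ht => ht.1)]

theorem q_ge : 1 ≤ 1 / xc ^ 2 := by
  have h1 := xc_pos
  rw [le_div_iff₀ (by positivity), one_mul]
  exact pow_le_one₀ h1.le B2b_xc_le_one

/-- the toggle identity in the abstract form. -/
theorem tgs_GG (hTC : TogCount) {R0 : ℕ} {C : Set (List Bool)} (hC : TogInv R0 C) : Tgs (1 / xc ^ 2) (GG R0 C) := by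
  have hx := xc_pos
  constructor
  · intro n r v
    rcases Nat.lt_or_ge v r with h | h
    · obtain ⟨u, rfl⟩ : ∃ u, r = u + 1 + v := ⟨r - v - 1, by omega⟩
      have e1 : u + 1 + v - v = u + 1 := by omega
      have e2 : u + 1 + v = u + (v + 1) := by omega
      rw [e1, GG_NN, e2, GG_NN, ← ENNReal.ofReal_natCast (u + 1), ← ENNReal.ofReal_natCast (v + 1),
        ← ENNReal.ofReal_mul (by positivity), ← ENNReal.ofReal_mul (by positivity), ← ENNReal.ofReal_mul (by positivity)]
      congr 1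
      have h1 : ((u + 1 : ℕ) : ℝ) * NN R0 C n (u + 1) v = ((v + 1 : ℕ) : ℝ) * NN R0 C (n + 2) u (v + 1) := by
        exact_mod_cast hTC R0 C hC n u v
      rw [← mul_assoc, h1, pow_add]
      field_simp
    · rw [Nat.sub_eq_zero_of_le h, GG_zero (by omega : r < v + 1)]
      simp
  · intro n r v h
    by_contra hc
    apply h
    unfold GG
    have h1 : {t | t ∈ SawN n ∧ t ∈ C ∧ uS R0 t + vL R0 t = r ∧ vL R0 t = v} = ∅ := by
      rw [Set.eq_empty_iff_forall_notMem]
      rintro t ⟨h1, -, h2, h3⟩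
      have h4 := places_le R0 t
      rw [h1.1] at h4
      exact hc ⟨by omega, by omega⟩
    rw [h1]
    simp [gf]

theorem inv_univ (R0 : ℕ) : TogInv R0 Set.univ := fun _ _ _ _ _ => Iff.rfl

theorem SawN_univ (n : ℕ) : {t | t ∈ SawN n ∧ t ∈ (Set.univ : Set (List Bool))} = SawN n := by
  ext t
  exact ⟨fun h => h.1, fun h => ⟨h, Set.mem_univ t⟩⟩

theorem tot_univ (R0 n : ℕ) : tot (GG R0 Set.univ) n = ENNReal.ofReal (cS n * xc ^ n) := by
  rw [tot_GG, SawN_univ, gf_ncard subset_rfl]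
  rfl

/-- Polynomial bounds. -/
theorem polyB : ∃ K : ℕ, ∀ n : ℕ, 2 ≤ n → 1 / (n : ℝ) ^ K ≤ cS n * xc ^ n ∧ (cS n : ℝ) * xc ^ n ≤ (n : ℝ) ^ K := by
  obtain ⟨C, hC1, hC⟩ := PHW_all
  have hmu : muB = 1 / xc := le_antisymm muB_le le_muB
  have hx := xc_pos
  obtain ⟨K, hK⟩ := exists_nat_ge C
  have hK1 : 1 ≤ K := by
    have : (1 : ℝ) ≤ K := hC1.trans hK
    exact_mod_cast this
  refine ⟨2 * K, fun n hn => ?_⟩
  have hn1 : (2 : ℝ) ≤ n := by exact_mod_cast hn
  have h2 : (2 : ℝ) * aB n = 3 * cS n := by exact_mod_cast aB_eq (by omega : 1 ≤ n)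
  constructor
  · -- lower bound
    have h3 : muB ≤ (aB n : ℝ) ^ ((1 : ℝ) / n) := by
      unfold muB
      refine ciInf_le ⟨0, ?_⟩ (⟨n, by omega⟩ : {n : ℕ // 1 ≤ n})
      rintro x ⟨m, rfl⟩
      positivity
    have h4 : (1 / xc) ^ n ≤ aB n := by
      have h5 : (1 / xc) ^ n ≤ ((aB n : ℝ) ^ ((1 : ℝ) / n)) ^ n := by
        apply pow_le_pow_left₀ (by positivity)
        rw [← hmu]
        exact h3
      have h6 : (n : ℝ) ≠ 0 := by positivity
      rwa [← Real.rpow_natCast ((aB n : ℝ) ^ ((1 : ℝ) / n)), ← Real.rpow_mul (Nat.cast_nonneg _),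
        one_div_mul_cancel h6, Real.rpow_one] at h5
    have h7 : 1 ≤ (aB n : ℝ) * xc ^ n := by
      have h8 := mul_le_mul_of_nonneg_right h4 (pow_nonneg hx.le n)
      rwa [← mul_pow, one_div_mul_cancel hx.ne', one_pow] at h8
    have h9 : (2 : ℝ) / 3 ≤ cS n * xc ^ n := by
      have e : (cS n : ℝ) * xc ^ n = 2 / 3 * (aB n * xc ^ n) := by
        have : (cS n : ℝ) = 2 / 3 * aB n := by linarith
        rw [this]
        ring
      rw [e]
      linarith
    refine le_trans ?_ h9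
    rw [div_le_div_iff₀ (by positivity) (by norm_num)]
    have h10 : (2 : ℝ) ^ 1 ≤ (n : ℝ) ^ (2 * K) :=
      (pow_le_pow_left₀ (by norm_num) hn1 1).trans (pow_le_pow_right₀ (by linarith) (by omega))
    linarith
  · have h1 := hC n (by omega)
    rw [hmu, one_div, inv_pow] at h1
    have h3 : (aB n : ℝ) * xc ^ n ≤ C * (n : ℝ) ^ C := by
      have h4 := mul_le_mul_of_nonneg_right h1 (pow_nonneg hx.le n)
      rw [mul_assoc, inv_mul_cancel₀ (pow_ne_zero n hx.ne'), mul_one] at h4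
      exact h4
    have h5 : (cS n : ℝ) * xc ^ n ≤ (aB n : ℝ) * xc ^ n := by
      apply mul_le_mul_of_nonneg_right _ (pow_nonneg hx.le n)
      have h6 : (0 : ℝ) ≤ cS n := by positivity
      linarith
    have h7 : (n : ℝ) ^ C ≤ (n : ℝ) ^ K := by
      rw [← Real.rpow_natCast]
      exact Real.rpow_le_rpow_of_exponent_le (by linarith) hK
    have h8 : C ≤ (n : ℝ) ^ K := by
      have h9 : (K : ℝ) ≤ (2 : ℝ) ^ K := by exact_mod_cast (Nat.lt_two_pow_self (n := K)).le
      exact hK.trans (h9.trans (pow_le_pow_left₀ (by norm_num) hn1 K))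
    calc (cS n : ℝ) * xc ^ n ≤ C * (n : ℝ) ^ C := h5.trans h3
      _ ≤ (n : ℝ) ^ K * (n : ℝ) ^ K := by
        apply mul_le_mul h8 h7 (by positivity) (by positivity)
      _ = (n : ℝ) ^ (2 * K) := by
        rw [← pow_add]
        congr 1
        ring

theorem cS_pos (n : ℕ) : 0 < cS n := by
  rcases Nat.eq_zero_or_pos n with rfl | h
  · unfold cS
    have h1 : (SawN 0).Nonempty := by
      refine ⟨[], rfl, ?_⟩
      refine ⟨fun _ _ _ => trivial, ?_⟩
      intro i k hik hk
      rw [List.length_nil] at hk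
      omega
    exact (Set.ncard_pos (PHWDict.SawN_fin 0)).2 h1
  · have h3 : muB ≤ (aB n : ℝ) ^ ((1 : ℝ) / n) := by
      unfold muB
      refine ciInf_le ⟨0, ?_⟩ (⟨n, h⟩ : {n : ℕ // 1 ≤ n})
      rintro x ⟨m, rfl⟩
      positivity
    have hmu : muB = 1 / xc := le_antisymm muB_le le_muB
    have hx := xc_pos
    by_contra hc
    have h0 : cS n = 0 := by omega
    have h2 := aB_eq h
    rw [h0] at h2
    have h4 : aB n = 0 := by omega
    have hn : (n : ℝ) ≠ 0 := by exact_mod_cast (by omega : n ≠ 0)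
    rw [h4, Nat.cast_zero, Real.zero_rpow (one_div_ne_zero hn), hmu] at h3
    have h5 : 0 < 1 / xc := by positivity
    linarith

/-- two more letters: at most four times as many words. -/
theorem cS_add_two (n : ℕ) : cS (n + 2) ≤ 4 * cS n := by
  classical
  unfold cS
  have hsub : SawN (n + 2) ⊆ (fun p : List Bool × List Bool => p.1 ++ p.2) ''
      (SawN n ×ˢ ((([[false, false], [false, true], [true, false], [true, true]] : List (List Bool)).toFinset :
        Finset (List Bool)) : Set (List Bool))) := by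
    intro t ht
    refine ⟨(t.take n, t.drop n), ⟨⟨?_, ?_⟩, ?_⟩, List.take_append_drop n t⟩
    · show (t.take n).length = n
      rw [List.length_take, ht.1]
      omega
    · exact SA_take ht.2 n
    · have hl : (t.drop n).length = 2 := by
        rw [List.length_drop, ht.1]
        omega
      show t.drop n ∈ _
      rcases hd : t.drop n with _ | ⟨a, _ | ⟨b, _ | ⟨c, l⟩⟩⟩
      · rw [hd] at hl
        simp at hl
      · rw [hd] at hl
        simp at hl
      · cases a <;> cases b <;> simp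
      · rw [hd] at hl
        simp at hl
  have hfin : (SawN n ×ˢ ((([[false, false], [false, true], [true, false], [true, true]] : List (List Bool)).toFinset :
        Finset (List Bool)) : Set (List Bool))).Finite := (PHWDict.SawN_fin n).prod (Finset.finite_toSet _)
  refine (Set.ncard_le_ncard hsub (hfin.image _)).trans ((Set.ncard_image_le hfin).trans ?_)
  rw [Set.ncard_prod, Set.ncard_coe_finset]
  have : (([[false, false], [false, true], [true, false], [true, true]] : List (List Bool)).toFinset).card = 4 := by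
    decide
  rw [this, mul_comm]

/-- The main estimate. -/
theorem main (hTC : TogCount) (hM : ManyL) (R0 : ℕ) {e : ℝ} (he : 0 < e) : ∃ n0 : ℕ, ∀ n, n0 ≤ n →
    ∀ C : Set (List Bool), TogInv R0 C →
      |({t | t ∈ SawN (n + 2) ∧ t ∈ C}.ncard : ℝ) * xc ^ (n + 2) - {t | t ∈ SawN n ∧ t ∈ C}.ncard * xc ^ n| ≤
        e * (cS n * xc ^ n) := by
  have hx := xc_pos
  obtain ⟨K, hK⟩ := polyB
  have h1 := lim_of (G := GG R0 Set.univ) (tgs_GG hTC (inv_univ R0)) q_ge (K := K) (B := 4) (by norm_num)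
    (fun n hn => by
      rw [tot_univ]
      exact ⟨ENNReal.ofReal_le_ofReal (hK n hn).1, ENNReal.ofReal_le_ofReal (hK n hn).2⟩)
    (fun n => by
      rw [tot_univ, tot_univ, ← ENNReal.ofReal_mul (by norm_num)]
      apply ENNReal.ofReal_le_ofReal
      have h2 : (cS (n + 2) : ℝ) ≤ 4 * cS n := by exact_mod_cast cS_add_two n
      have h3 : xc ^ (n + 2) ≤ xc ^ n := pow_le_pow_of_le_one hx.le B2b_xc_le_one (by omega)
      calc (cS (n + 2) : ℝ) * xc ^ (n + 2) ≤ (4 * cS n) * xc ^ n := by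
            apply mul_le_mul h2 h3 (by positivity) (by positivity)
        _ = 4 * (cS n * xc ^ n) := by ring)
    (fun V e he => by
      obtain ⟨n0, hn0⟩ := hM R0 V e he
      filter_upwards [eventually_ge_atTop n0] with n hn
      rw [wt_GG, tot_univ, ← ENNReal.ofReal_mul he.le, gf_ncard (n := n) (fun t ht => ht.1)]
      apply ENNReal.ofReal_le_ofReal
      rw [← mul_assoc]
      apply mul_le_mul_of_nonneg_right _ (by positivity)
      have h2 : {t | t ∈ SawN n ∧ t ∈ (Set.univ : Set (List Bool)) ∧ (vL R0 t : ℝ) ≤ V * Real.log n} =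
          {t | t ∈ SawN n ∧ (vL R0 t : ℝ) ≤ V * Real.log n} := by
        ext t
        exact ⟨fun h => ⟨h.1, h.2.2⟩, fun h => ⟨h.1, Set.mem_univ t, h.2⟩⟩
      rw [h2]
      exact hn0 n hn)
    he
  obtain ⟨n0, hn0⟩ := eventually_atTop.1 h1
  refine ⟨n0, fun n hn C hC => ?_⟩
  have h2 := hn0 n hn (GG R0 C) (tgs_GG hTC hC) (fun n r v => gf_mono (fun t ht => ⟨ht.1, Set.mem_univ t, ht.2.2⟩))
  rw [tot_GG, tot_GG, tot_univ, gf_ncard (n := n + 2) (fun t ht => ht.1), gf_ncard (n := n) (fun t ht => ht.1),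
    ← ENNReal.ofReal_mul he.le, ← ENNReal.ofReal_add (by positivity) (by positivity),
    ← ENNReal.ofReal_add (by positivity) (by positivity), ENNReal.ofReal_le_ofReal_iff (by positivity),
    ENNReal.ofReal_le_ofReal_iff (by positivity)] at h2
  rw [abs_le]
  constructor <;> linarith [h2.1, h2.2]

/-- **Output 1**: the laws of the toggle invariant events hardly change when two letters are added. -/
theorem togLim (hTC : TogCount) (hM : ManyL) : TogLim := by
  intro R0 e he
  have hx := xc_pos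
  obtain ⟨n0, hn0⟩ := main hTC hM R0 (e := e / 2) (by linarith)
  refine ⟨n0, fun n hn C hC => ?_⟩
  have h1 := hn0 n hn C hC
  have h2 := hn0 n hn Set.univ (inv_univ R0)
  rw [SawN_univ, SawN_univ] at h2
  change |(cS (n + 2) : ℝ) * xc ^ (n + 2) - cS n * xc ^ n| ≤ e / 2 * (cS n * xc ^ n) at h2
  have hW : 0 < (cS n : ℝ) * xc ^ n := by
    have := cS_pos n
    positivity
  have hW2 : 0 < (cS (n + 2) : ℝ) * xc ^ (n + 2) := by
    have := cS_pos (n + 2)
    positivity
  have hle : ({t | t ∈ SawN (n + 2) ∧ t ∈ C}.ncard : ℝ) * xc ^ (n + 2) ≤ (cS (n + 2) : ℝ) * xc ^ (n + 2) := by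
    apply mul_le_mul_of_nonneg_right _ (by positivity)
    have : {t | t ∈ SawN (n + 2) ∧ t ∈ C}.ncard ≤ cS (n + 2) :=
      Set.ncard_le_ncard (fun t ht => ht.1) (PHWDict.SawN_fin (n + 2))
    exact_mod_cast this
  have e1 : Pn (n + 2) C = ({t | t ∈ SawN (n + 2) ∧ t ∈ C}.ncard * xc ^ (n + 2)) / (cS (n + 2) * xc ^ (n + 2)) := by
    unfold Pn
    rw [mul_div_mul_right _ _ (pow_ne_zero _ hx.ne')]
  have e2 : Pn n C = ({t | t ∈ SawN n ∧ t ∈ C}.ncard * xc ^ n) / (cS n * xc ^ n) := by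
    unfold Pn
    rw [mul_div_mul_right _ _ (pow_ne_zero _ hx.ne')]
  rw [e1, e2]
  have h0 : (0 : ℝ) ≤ ({t | t ∈ SawN (n + 2) ∧ t ∈ C}.ncard : ℝ) * xc ^ (n + 2) := by positivity
  generalize ({t | t ∈ SawN (n + 2) ∧ t ∈ C}.ncard : ℝ) * xc ^ (n + 2) = a at *
  generalize ({t | t ∈ SawN n ∧ t ∈ C}.ncard : ℝ) * xc ^ n = b at *
  generalize (cS (n + 2) : ℝ) * xc ^ (n + 2) = A at *
  generalize (cS n : ℝ) * xc ^ n = B at *
  have e3 : a / A - b / B = (a - b) / B + a / A * ((B - A) / B) := by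
    field_simp
    ring
  have h3 : |(a - b) / B| ≤ e / 2 := by
    rw [abs_div, abs_of_pos hW, div_le_iff₀ hW]
    exact h1
  have h4 : |a / A * ((B - A) / B)| ≤ e / 2 := by
    rw [abs_mul]
    have h5 : |a / A| ≤ 1 := by
      rw [abs_of_nonneg (div_nonneg h0 hW2.le), div_le_one hW2]
      exact hle
    have h6 : |(B - A) / B| ≤ e / 2 := by
      rw [abs_div, abs_of_pos hW, div_le_iff₀ hW, abs_sub_comm]
      exact h2
    calc |a / A| * |(B - A) / B| ≤ 1 * (e / 2) := mul_le_mul h5 h6 (abs_nonneg _) (by norm_num)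
      _ = e / 2 := one_mul _
  rw [e3]
  calc |(a - b) / B + a / A * ((B - A) / B)| ≤ |(a - b) / B| + |a / A * ((B - A) / B)| := abs_add_le _ _
    _ ≤ e := by linarith

/-- **Output 2**: the ratio over two letters. -/
theorem ratio2 (hTC : TogCount) (hM : ManyL) : Ratio2 := by
  have hx := xc_pos
  unfold Ratio2
  rw [Metric.tendsto_atTop]
  intro e he
  obtain ⟨n0, hn0⟩ := main hTC hM 0 (e := e * xc ^ 2 / 2) (by positivity)
  refine ⟨n0, fun n hn => ?_⟩
  have h2 := hn0 n hn Set.univ (inv_univ 0)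
  rw [SawN_univ, SawN_univ] at h2
  change |(cS (n + 2) : ℝ) * xc ^ (n + 2) - cS n * xc ^ n| ≤ e * xc ^ 2 / 2 * (cS n * xc ^ n) at h2
  have hc : (0 : ℝ) < cS n := by exact_mod_cast cS_pos n
  have hxn : 0 < xc ^ n := by positivity
  rw [Real.dist_eq]
  have e1 : (cS (n + 2) : ℝ) / cS n - 1 / xc ^ 2 =
      ((cS (n + 2) : ℝ) * xc ^ (n + 2) - cS n * xc ^ n) / (xc ^ 2 * (cS n * xc ^ n)) := by
    rw [pow_add]
    field_simp
  rw [e1, abs_div, abs_of_pos (by positivity : 0 < xc ^ 2 * (cS n * xc ^ n)), div_lt_iff₀ (by positivity)]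
  refine lt_of_le_of_lt h2 ?_
  have : 0 < e * (xc ^ 2 * (cS n * xc ^ n)) := by positivity
  nlinarith

end HexObs.TOG
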