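import Pool.Agent.TOG.Pieces

/-!
TOG: a piece ks at an unblocked cut gives a long place: the walk with the short form is self-avoiding.
-/

set_option autoImplicit false

namespace HexObs

namespace TOG

open Finset TS SDN

open scoped ENNReal

lemma mulE_inj {c : Pt} (hc : c ∈ dirs) {p q : Pt} (h : mulE c p = mulE c q) : p = q := by
  simp only [dirs, mem_insert, mem_singleton] at hc
  simp only [mulE, Prod.mk.injEq] at h
  obtain ⟨h1, h2⟩ := h
  rcases hc with rfl | rfl | rfl | rfl | rfl | rfl <;>
    simp only at h1 h2 <;> apply Prod.ext <;> omega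

/-- vertices of the toggled walk -/
lemma tog_vx (X Y : List Bool) :
    (∀ j, j ≤ X.length + 1 → vx oo up (X ++ (pS ++ Y)) j = vx oo up (X ++ (pL ++ Y)) j) ∧
    ∀ i, vx oo up (X ++ (pS ++ Y)) (X.length + (3 + i)) = vx oo up (X ++ (pL ++ Y)) (X.length + (5 + i)) := by
  refine ⟨fun j hj => by rw [vx_append hj, vx_append hj], fun i => ?_⟩
  obtain ⟨c, -, -, h⟩ := cat_frame X
  rw [(h _).1, (h _).1]
  congr 2
  obtain ⟨c1, hc1, d1, h1⟩ := cat_frame pS
  obtain ⟨c2, hc2, d2, h2⟩ := cat_frame pL
  have l1 : pS.length = 3 := rfl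
  have l2 : pL.length = 5 := rfl
  have e1 := (h1 Y).1 i
  have e2 := (h2 Y).1 i
  rw [l1] at e1 d1
  rw [l2] at e2 d2
  rw [e1, e2]
  have e3 : dx up pS 3 = dx up pL 5 := by decide
  have e4 : vx oo up pS 3 = vx oo up pL 5 := by decide
  have e5 : mulE c1 up = mulE c2 up := by rw [← d1, ← d2, e3]
  have e6 : c1 = c2 := by
    rw [mulE_comm c1, mulE_comm c2] at e5
    exact mulE_inj up_dirs e5
  rw [e4, e6]

/-- the short form is self-avoiding if the new vertex is not visited by the long form -/
theorem sa_short {X Y : List Bool} (ht : X ++ (pL ++ Y) ∈ SA)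
    (hy : ∀ j, j ≤ (X ++ (pL ++ Y)).length → vx oo up (X ++ (pL ++ Y)) j ≠ vx oo up (X ++ (pS ++ Y)) (X.length + 2)) :
    X ++ (pS ++ Y) ∈ SA := by
  obtain ⟨h1, h2⟩ := tog_vx X Y
  have l1 : (X ++ (pS ++ Y)).length = X.length + 3 + Y.length := by
    simp [pS]; omega
  have l2 : (X ++ (pL ++ Y)).length = X.length + 5 + Y.length := by
    simp [pL]; omega
  refine ⟨fun _ _ _ => Set.mem_univ _, ?_⟩
  intro i k hik hk heq
  rw [l1] at hk
  rw [l2] at hy
  have hinj := ht.inj
  rw [l2] at hinj
  have hi3 : ∀ j, X.length + 3 ≤ j → vx oo up (X ++ (pS ++ Y)) j = vx oo up (X ++ (pL ++ Y)) (j + 2) := by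
    intro j hj
    obtain ⟨m, rfl⟩ : ∃ m, j = X.length + (3 + m) := ⟨j - X.length - 3, by omega⟩
    rw [h2]
    congr 1
    omega
  rcases Nat.lt_or_ge k (X.length + 2) with c1 | c1
  · rw [h1 i (by omega), h1 k (by omega)] at heq
    exact hinj i k hik (by omega) heq
  · rcases Nat.eq_or_lt_of_le c1 with c2 | c2
    · rw [← c2] at heq
      rw [h1 i (by omega)] at heq
      exact hy i (by omega) heq
    · rw [hi3 k (by omega)] at heq
      rcases Nat.lt_or_ge i (X.length + 2) with c3 | c3
      · rw [h1 i (by omega)] at heq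
        exact hinj i (k + 2) (by omega) (by omega) heq
      · rcases Nat.eq_or_lt_of_le c3 with c4 | c4
        · rw [← c4] at heq
          exact hy (k + 2) (by omega) heq.symm
        · rw [hi3 i (by omega)] at heq
          exact hinj (i + 2) (k + 2) (by omega) (by omega) heq

/-- self-avoiding words are self-avoiding in every frame -/
lemma sa_any {t : List Bool} (ht : t ∈ SA) (m c : Pt) (hc : c ∈ dirs) {i k : ℕ} (hik : i < k) (hk : k ≤ t.length) :
    vx m (mulE c up) t i ≠ vx m (mulE c up) t k := by
  rw [vx_frameN, vx_frameN]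
  intro h
  exact ht.inj i k hik hk (mulE_inj hc (add_left_cancel h))

/-- the future: the new vertex is not visited by the continuation Q if the reversed continuation is not blocked -/
lemma fut {Q : List Bool} (h : Q = [] ∨ rev Q.dropLast ++ p2 ∈ SA) (i : ℕ) (hi : 1 ≤ i) (hi2 : i ≤ Q.length) :
    vx oo up Q i ≠ (-4, 0) := by
  rcases h with rfl | h
  · simp at hi2
    omega
  · set Q1 := Q.dropLast with hQ1
    have hlen : Q1.length + 1 = Q.length := by
      rw [hQ1, List.length_dropLast]
      omega
    have hQ : Q = Q1 ++ Q.drop Q1.length := by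
      conv_lhs => rw [← List.take_append_drop Q1.length Q]
      congr 1
      rw [hQ1, List.dropLast_eq_take, List.length_take]
      congr 1
      omega
    obtain ⟨c, hc, hcd, hfr⟩ := cat_frame (rev Q1)
    have hd : -(dx up Q1 Q1.length) ∈ dirs := by
      rw [mem_dirs]
      have := dx_mem up_dirs Q1 Q1.length
      rw [mem_dirs] at this
      rw [← this]
      simp [nrm]
    obtain ⟨hu1, hu2⟩ := frame_dir hd
    set u := rotTo up (-(dx up Q1 Q1.length)) with hu
    set v0 := tip oo up Q1 with hv0
    have key := vx_rev oo up Q1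
    rw [← hv0, hu2] at key
    -- the vertex Q1.length + 6 of the reversed walk continued by p2
    have h6 : vx v0 (mulE u up) (rev Q1 ++ p2) (Q1.length + 6) = (-4, 0) := by
      have e1 : (rev Q1).length = Q1.length := rev_length Q1
      have e2 := vx_dropN v0 (mulE u up) (rev Q1 ++ p2) (rev Q1).length 6
      rw [List.drop_left, vx_append (by omega), dx_append le_rfl] at e2
      rw [e1] at e2
      rw [← e2, key Q1.length (by omega)]
      have e3 : Q1.length + 1 - Q1.length = 1 := by omega
      have e4 : dx (mulE u up) (rev Q1) Q1.length = -up := by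
        rw [← hu2, dx_rev up Q1 Q1.length le_rfl, Nat.sub_self]
        rfl
      rw [e3, e4]
      have e5 : vx oo up Q1 1 = up := rfl
      rw [e5]
      decide
    intro heq
    have h7 : vx oo up Q i = vx v0 (mulE u up) (rev Q1 ++ p2) (Q1.length + 1 - i) := by
      have e1 : vx v0 (mulE u up) (rev Q1 ++ p2) (Q1.length + 1 - i) = vx v0 (mulE u up) (rev Q1) (Q1.length + 1 - i) :=
        vx_append (by rw [rev_length]; omega)
      rw [e1, key _ (by omega)]
      have e2 : Q1.length + 1 - (Q1.length + 1 - i) = i := by omega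
      rw [e2]
      conv_lhs => rw [hQ]
      exact vx_append (by omega)
    have h8 := sa_any h v0 u hu1 (i := Q1.length + 1 - i) (k := Q1.length + 6) (by omega) (by
      rw [List.length_append, rev_length]
      have : p2.length = 12 := rfl
      omega)
    rw [h6, ← h7, heq] at h8
    exact h8 rfl

/-- **a piece ks at an unblocked cut is a long place** -/
theorem place_ok {P Q : List Bool} (ht : P ++ (ks ++ Q) ∈ SA) (h1 : P ++ p1 ∈ SA)
    (h2 : Q = [] ∨ rev Q.dropLast ++ p2 ∈ SA) :
    (P ++ [false]) ++ (pS ++ ([true, true, false, true] ++ Q)) ∈ SA ∧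
      P ++ (ks ++ Q) = (P ++ [false]) ++ (pL ++ ([true, true, false, true] ++ Q)) := by
  have he : P ++ (ks ++ Q) = (P ++ [false]) ++ (pL ++ ([true, true, false, true] ++ Q)) := by
    simp [ks, pL]
  refine ⟨?_, he⟩
  rw [he] at ht
  apply sa_short ht
  obtain ⟨c, hc, hcd, h⟩ := cat_frame P
  have hl : (P ++ [false]).length = P.length + 1 := by simp
  -- the new vertex
  have hy : vx oo up ((P ++ [false]) ++ (pS ++ ([true, true, false, true] ++ Q))) ((P ++ [false]).length + 2) =
      vx oo up P P.length + mulE c (2, 0) := by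
    rw [hl, List.append_assoc]
    have e := (h ([false] ++ (pS ++ ([true, true, false, true] ++ Q)))).1 3
    rw [show P.length + 1 + 2 = P.length + 3 from rfl, e]
    congr 2
  rw [hy, ← he]
  rw [← he] at ht
  intro j hj
  rcases Nat.lt_or_ge P.length j with c1 | c1
  · obtain ⟨i, rfl⟩ : ∃ i, j = P.length + i := ⟨j - P.length, by omega⟩
    rw [(h (ks ++ Q)).1 i]
    intro h3
    have h4 := mulE_inj hc (add_left_cancel h3)
    rw [List.length_append, List.length_append] at hj
    have lk : ks.length = 10 := rfl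
    rcases Nat.lt_or_ge 10 i with c2 | c2
    · obtain ⟨i', rfl⟩ : ∃ i', i = 10 + i' := ⟨i - 10, by omega⟩
      have e3 := vx_cat (s := ks) (t := Q) (by decide) i'
      rw [lk] at e3
      rw [e3] at h4
      have e4 : vx oo up ks 10 = (6, 0) := by decide
      rw [e4] at h4
      apply fut h2 i' (by omega) (by omega)
      have h5 : vx oo up Q i' = (2, 0) - (6, 0) := by rw [← h4]; abel
      rw [h5]
      decide
    · rw [vx_append (by omega)] at h4
      have : ∀ i, i < 11 → vx oo up ks i ≠ (2, 0) := by decide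
      exact this i (by omega) h4
  · rw [vx_append (by omega)]
    intro h3
    have e3 := (h p1).1 3
    have e4 : vx oo up p1 3 = (2, 0) := by decide
    rw [e4, ← h3] at e3
    have l1 : (P ++ p1).length = P.length + 4 := by
      rw [List.length_append]; rfl
    have h5 := h1.inj j (P.length + 3) (by omega) (by omega)
    rw [vx_append (by omega)] at h5
    exact h5 e3.symm

end TOG

end HexObs
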