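import Pool.Agent.TOG.Faces

/-!
TOG: the toggle identity `TogCount`.
-/

set_option autoImplicit false

namespace HexObs

namespace TOG

open Finset TS SDN

lemma SawN_finite (n : ℕ) : (SawN n).Finite :=
  (List.finite_length_eq Bool n).subset fun _ h => h.1

lemma pl_take {p X Y : List Bool} : (X ++ (p ++ Y)).take X.length = X := List.take_left

lemma pl_drop {p X Y : List Bool} {k : ℕ} (hk : k = X.length + p.length) : (X ++ (p ++ Y)).drop k = Y := by
  rw [← List.append_assoc]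
  exact List.drop_left' (by rw [List.length_append, hk])

/-- a place of t -/
lemma PlS_iff {R0 : ℕ} {t : List Bool} {i : ℕ} (hi : i ≤ t.length) : PlS R0 t i ↔
    ∃ X Y, X.length = i ∧ t = X ++ (pS ++ Y) ∧ X ++ (pL ++ Y) ∈ SA ∧ Fc R0 (ctr X) := by
  constructor
  · rintro ⟨h1, Y, h2, h3⟩
    exact ⟨t.take i, Y, by rw [List.length_take]; omega, h2, h3, h1⟩
  · rintro ⟨X, Y, rfl, rfl, h2, h3⟩
    refine ⟨?_, Y, ?_, ?_⟩
    · rw [pl_take]
      exact h3
    · rw [pl_take]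
    · rw [pl_take]
      exact h2

lemma PlL_iff {R0 : ℕ} {t : List Bool} {i : ℕ} (hi : i ≤ t.length) : PlL R0 t i ↔
    ∃ X Y, X.length = i ∧ t = X ++ (pL ++ Y) ∧ X ++ (pS ++ Y) ∈ SA ∧ Fc R0 (ctr X) := by
  constructor
  · rintro ⟨h1, Y, h2, h3⟩
    exact ⟨t.take i, Y, by rw [List.length_take]; omega, h2, h3, h1⟩
  · rintro ⟨X, Y, rfl, rfl, h2, h3⟩
    refine ⟨?_, Y, ?_, ?_⟩
    · rw [pl_take]
      exact h3
    · rw [pl_take]
    · rw [pl_take]
      exact h2

theorem togCount : TogCount := by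
  classical
  intro R0 C hC n u v
  have fA : {t | t ∈ SawN n ∧ t ∈ C ∧ uS R0 t = u + 1 ∧ vL R0 t = v}.Finite :=
    (SawN_finite n).subset fun _ h => h.1
  have fB : {t | t ∈ SawN (n + 2) ∧ t ∈ C ∧ uS R0 t = u ∧ vL R0 t = v + 1}.Finite :=
    (SawN_finite (n + 2)).subset fun _ h => h.1
  obtain ⟨A, hA⟩ : ∃ A, A = fA.toFinset := ⟨_, rfl⟩
  obtain ⟨B, hB⟩ : ∃ B, B = fB.toFinset := ⟨_, rfl⟩
  have mA : ∀ t, t ∈ A ↔ t ∈ SawN n ∧ t ∈ C ∧ uS R0 t = u + 1 ∧ vL R0 t = v := fun t => by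
    rw [hA, Set.Finite.mem_toFinset]
    exact Iff.rfl
  have mB : ∀ t, t ∈ B ↔ t ∈ SawN (n + 2) ∧ t ∈ C ∧ uS R0 t = u ∧ vL R0 t = v + 1 := fun t => by
    rw [hB, Set.Finite.mem_toFinset]
    exact Iff.rfl
  have cA : NN R0 C n (u + 1) v = A.card := by
    unfold NN
    rw [Set.ncard_eq_toFinset_card _ fA, hA]
  have cB : NN R0 C (n + 2) u (v + 1) = B.card := by
    unfold NN
    rw [Set.ncard_eq_toFinset_card _ fB, hB]
  have sA : (A.sigma fun t => (range (t.length + 1)).filter (PlS R0 t)).card = A.card * (u + 1) := by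
    rw [Finset.card_sigma, Finset.sum_const_nat fun t ht => ?_]
    exact ((mA t).1 ht).2.2.1
  have sB : (B.sigma fun t => (range (t.length + 1)).filter (PlL R0 t)).card = B.card * (v + 1) := by
    rw [Finset.card_sigma, Finset.sum_const_nat fun t ht => ?_]
    exact ((mB t).1 ht).2.2.2
  rw [cA, cB, mul_comm, mul_comm (v + 1), ← sA, ← sB]
  refine Finset.card_nbij' (fun p : (_ : List Bool) × ℕ => (⟨p.1.take p.2 ++ (pL ++ p.1.drop (p.2 + 3)), p.2⟩ : (_ : List Bool) × ℕ))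
    (fun p : (_ : List Bool) × ℕ => (⟨p.1.take p.2 ++ (pS ++ p.1.drop (p.2 + 5)), p.2⟩ : (_ : List Bool) × ℕ)) ?_ ?_ ?_ ?_
  · rintro ⟨t, i⟩ h
    rw [Finset.mem_coe, Finset.mem_sigma, Finset.mem_filter, Finset.mem_range] at h
    obtain ⟨h1, h2, h3⟩ := h
    obtain ⟨⟨h4, h4'⟩, h5, h6, h7⟩ := (mA t).1 h1
    change i < t.length + 1 at h2
    obtain ⟨X, Y, rfl, rfl, h8, h9⟩ := (PlS_iff (t := t) (i := i) (by omega)).1 h3
    have hS : X ++ (pS ++ Y) ∈ SA := h4'
    obtain ⟨k1, k2⟩ := tog_states h9 hS h8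
    rw [Finset.mem_coe, Finset.mem_sigma, Finset.mem_filter, Finset.mem_range]
    change (X ++ (pS ++ Y)).take X.length ++ (pL ++ (X ++ (pS ++ Y)).drop (X.length + 3)) ∈ B ∧ _
    dsimp only
    rw [pl_take, pl_drop (show X.length + 3 = X.length + pS.length from rfl)]
    refine ⟨(mB _).2 ⟨⟨?_, h8⟩, (hC X Y h9 hS h8).1 h5, by omega, by omega⟩, ?_, ?_⟩
    · simp only [List.length_append, pS, pL, List.length_cons, List.length_nil] at h4 ⊢
      omega
    · rw [List.length_append]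
      omega
    · refine (PlL_iff ?_).2 ⟨X, Y, rfl, rfl, hS, h9⟩
      rw [List.length_append]
      omega
  · rintro ⟨t, i⟩ h
    rw [Finset.mem_coe, Finset.mem_sigma, Finset.mem_filter, Finset.mem_range] at h
    obtain ⟨h1, h2, h3⟩ := h
    obtain ⟨⟨h4, h4'⟩, h5, h6, h7⟩ := (mB t).1 h1
    change i < t.length + 1 at h2
    obtain ⟨X, Y, rfl, rfl, h8, h9⟩ := (PlL_iff (t := t) (i := i) (by omega)).1 h3
    have hL : X ++ (pL ++ Y) ∈ SA := h4'
    obtain ⟨k1, k2⟩ := tog_states h9 h8 hL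
    rw [Finset.mem_coe, Finset.mem_sigma, Finset.mem_filter, Finset.mem_range]
    dsimp only
    rw [pl_take, pl_drop (show X.length + 5 = X.length + pL.length from rfl)]
    refine ⟨(mA _).2 ⟨⟨?_, h8⟩, (hC X Y h9 h8 hL).2 h5, by omega, by omega⟩, ?_, ?_⟩
    · simp only [List.length_append, pS, pL, List.length_cons, List.length_nil] at h4 ⊢
      omega
    · rw [List.length_append]
      omega
    · refine (PlS_iff ?_).2 ⟨X, Y, rfl, rfl, hL, h9⟩
      rw [List.length_append]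
      omega
  · rintro ⟨t, i⟩ h
    rw [Finset.mem_coe, Finset.mem_sigma, Finset.mem_filter, Finset.mem_range] at h
    obtain ⟨h1, h2, h3⟩ := h
    change i < t.length + 1 at h2
    obtain ⟨X, Y, rfl, rfl, h8, h9⟩ := (PlS_iff (t := t) (i := i) (by omega)).1 h3
    dsimp only
    rw [pl_take, pl_drop (show X.length + 3 = X.length + pS.length from rfl), pl_take,
      pl_drop (show X.length + 5 = X.length + pL.length from rfl)]
  · rintro ⟨t, i⟩ h
    rw [Finset.mem_coe, Finset.mem_sigma, Finset.mem_filter, Finset.mem_range] at h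
    obtain ⟨h1, h2, h3⟩ := h
    change i < t.length + 1 at h2
    obtain ⟨X, Y, rfl, rfl, h8, h9⟩ := (PlL_iff (t := t) (i := i) (by omega)).1 h3
    dsimp only
    rw [pl_take, pl_drop (show X.length + 5 = X.length + pL.length from rfl), pl_take,
      pl_drop (show X.length + 3 = X.length + pS.length from rfl)]

end TOG

end HexObs
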