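import Pool.Agent.TOG.Defs
import Pool.Agent.TightS.DefsS

/-!
TOG: factors with many pieces, the literal.
-/

set_option autoImplicit false

namespace HexObs

namespace TOG

open Finset TS SDN

/-- lists of V irreducible bridges -/
def LV (V : ℕ) : Set (List (List Bool)) := {l | l.length = V ∧ ∀ g ∈ l, g ∈ IU}

/-- words with a factor that consists of V irreducible bridges -/
def FacV (V : ℕ) : Set (List Bool) := {t | ∃ X l Y, l ∈ LV V ∧ t = X ++ (l.flatten ++ Y)}

/-- (49, 94) with high probability there is a factor with at least n ^ d pieces -/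
def FacBig : Prop := ∀ e : ℝ, 0 < e → ∃ (d : ℝ) (n0 : ℕ), 0 < d ∧ ∀ n, n0 ≤ n → ∀ V : ℕ, (V : ℝ) ≤ (n : ℝ) ^ d →
  gf {t | t ∈ SawN n ∧ t ∉ FacV V} ≤ ENNReal.ofReal e * gf (SawN n)

end TOG

end HexObs
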