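import Pool.Agent.TOG.FewN
import Pool.Agent.TOG.Long

/-!
TOG: with high probability a walk with n letters has a factor with at least n ^ d pieces, no hypothesis (helper49).
-/

set_option autoImplicit false

namespace HexObs

namespace TOG

open Finset TS SDN

lemma noLg_of_fac {V : ℕ} {t : List Bool} (h : t ∉ FacV V) : NoLg V t := by
  rintro ⟨X, Z, Y, h1, -, l, h2, h3, h4⟩
  refine h ⟨X, l.take V, (l.drop V).flatten ++ Y, ⟨by rw [List.length_take]; omega, fun g hg => h2 g (List.mem_of_mem_take hg)⟩, ?_⟩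
  rw [h1, h3]
  conv_lhs => rw [← List.take_append_drop V l]
  rw [List.flatten_append, List.append_assoc]

/-- **factors with many pieces, the square root of the number of letters** -/
theorem facSqrt {e : ℝ} (he : 0 < e) : ∃ (δ : ℝ) (n0 : ℕ), 0 < δ ∧ ∀ n V : ℕ, n0 ≤ n → (V : ℝ) ≤ δ * Real.sqrt n →
    gf {t | t ∈ SawN n ∧ t ∉ FacV V} ≤ ENNReal.ofReal e * gf (SawN n) := by
  obtain ⟨δ, n0, hδ, h⟩ := noLg_M he
  refine ⟨δ, n0, hδ, fun n V hn hV => le_trans (gf_mono ?_) (h n V hn hV)⟩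
  rintro t ⟨h1, h2⟩
  exact ⟨h1, noLg_of_fac h2⟩

/-- **factors with many pieces** -/
theorem facBig : FacBig := by
  intro e he
  obtain ⟨δ, n0, hδ, h⟩ := facSqrt he
  obtain ⟨n1, hn1⟩ := exists_nat_gt ((1 / δ) ^ 4)
  refine ⟨1 / 4, max n0 (n1 + 1), by norm_num, fun n hn V hV => ?_⟩
  refine h n V ((le_max_left _ _).trans hn) (hV.trans ?_)
  have h1 : n1 + 1 ≤ n := (le_max_right _ _).trans hn
  have hnr : (n1 : ℝ) ≤ n := by exact_mod_cast (by omega : n1 ≤ n)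
  have h0 : (0 : ℝ) ≤ n := Nat.cast_nonneg n
  obtain ⟨x, hx⟩ : ∃ x : ℝ, x = (n : ℝ) ^ (1 / 4 : ℝ) := ⟨_, rfl⟩
  have hx0 : 0 ≤ x := by rw [hx]; positivity
  have h2 : x ^ 4 = n := by
    rw [hx, ← Real.rpow_natCast, ← Real.rpow_mul h0]
    norm_num
  have h3 : Real.sqrt n = x ^ 2 := by
    rw [← h2, show x ^ 4 = (x ^ 2) ^ 2 by ring, Real.sqrt_sq (by positivity)]
  have h4 : 1 / δ ≤ x := by
    refine le_of_pow_le_pow_left₀ (n := 4) (by norm_num) hx0 ?_
    rw [h2]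
    linarith
  rw [← hx, h3]
  rw [div_le_iff₀ hδ] at h4
  nlinarith

end TOG

end HexObs
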