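import Pool.Agent.TOG.Trip
import Pool.Agent.TOG.FacB

/-!
TOG: more than V log n long places with probability tending to 1, for every V.
-/

set_option autoImplicit false

namespace HexObs

namespace TOG

open Finset TS SDN Filter

open scoped ENNReal Topology

/-- the walks with a factor of V + 1 pieces and few long places -/
lemma few_sub {R0 V m s n : ℕ} {x : ℝ} (hx : x + (4 * (R0 : ℝ) + 5) ^ 2 < s) (hs : 3 * s ≤ m) :
    {t | t ∈ SawN n ∧ (vL R0 t : ℝ) ≤ x} ⊆ {t | t ∈ SawN n ∧ t ∉ FacV (V + 1)} ∪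
      ({t | ∃ X ∈ SAL n, ∃ Y ∈ SAL n, ∃ l, (l ∈ LV V ∧ ncl X l ≤ m) ∧ t = X ++ (l.flatten ++ Y)} ∪
      ({t | ∃ X ∈ SAL n, ∃ Y ∈ SAL n, ∃ l, (l ∈ LV V ∧ X ++ l.flatten ∈ SA ∧ s ≤ nbk p1 X l) ∧
        t = X ++ (l.flatten ++ Y)} ∪
      {t | ∃ X ∈ SAL n, ∃ Y ∈ SAL n, ∃ l, (rvl l ∈ LV V ∧ rev Y.dropLast ++ (rvl l).flatten ∈ SA ∧
        s ≤ nbk p2 (rev Y.dropLast) (rvl l)) ∧ t = X ++ (l.flatten ++ Y)})) := by
  rintro t ⟨ht, hv⟩
  by_cases hf : t ∈ FacV (V + 1)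
  swap
  · exact Or.inl ⟨ht, hf⟩
  right
  obtain ⟨X, l, Y, hl, he⟩ := hf
  have hV : V < l.length := by rw [hl.1]; omega
  have hg : l[V] ∈ IU := hl.2 _ (List.getElem_mem hV)
  have hg0 : l[V] ≠ [] := by
    obtain ⟨r, hr⟩ := hg
    exact hr.2.1
  have hl' : l.take V ∈ LV V := ⟨by rw [List.length_take]; omega, fun g hg => hl.2 g (List.mem_of_mem_take hg)⟩
  have hsp : l.flatten = (l.take V).flatten ++ l[V] := by
    have h1 := take_succ_flat (l := l) (k := V) (g := l[V]) (List.getElem?_eq_getElem hV)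
    rw [← hl.1, List.take_length] at h1
    exact h1
  set Y' := l[V] ++ Y with hY'
  have hYne : Y' ≠ [] := by
    rw [hY']
    simp [hg0]
  have he' : t = X ++ ((l.take V).flatten ++ Y') := by
    rw [he, hsp, hY']
    simp [List.append_assoc]
  have hsa : t ∈ SA := ht.2
  have hXS : X ∈ SAL n := by
    have h1 := SA_take hsa X.length
    rw [he', List.take_left] at h1
    refine ⟨h1, ?_⟩
    rw [← ht.1, he', List.length_append]
    omega
  have hM : (l.take V).flatten ++ Y' ∈ SA := by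
    have h1 := SA_drop hsa X.length
    rwa [he', List.drop_left] at h1
  have hYS : Y' ∈ SAL n := by
    have h1 := SA_drop hM (l.take V).flatten.length
    rw [List.drop_left] at h1
    refine ⟨h1, ?_⟩
    have h2 := ht.1
    rw [he'] at h2
    simp only [List.length_append] at h2
    have h3 : Y'.length = l[V].length + Y.length := by rw [hY', List.length_append]
    omega
  have hsa' : X ++ ((l.take V).flatten ++ Y') ∈ SA := by rw [← he']; exact hsa
  have key := cnt_vL (R0 := R0) hl' hsa' hYne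
  rw [← he'] at key
  by_cases c1 : ncl X (l.take V) ≤ m
  · exact Or.inl ⟨X, hXS, Y', hYS, l.take V, ⟨hl', c1⟩, he'⟩
  right
  by_cases c2 : s ≤ nbk p1 X (l.take V)
  · refine Or.inl ⟨X, hXS, Y', hYS, l.take V, ⟨hl', ?_, c2⟩, he'⟩
    have h1 := SA_take hsa (X ++ (l.take V).flatten).length
    rwa [he', ← List.append_assoc, List.take_left] at h1
  · by_cases c3 : s ≤ nbk p2 (rev Y'.dropLast) (rvl (l.take V))
    · refine Or.inr ⟨X, hXS, Y', hYS, l.take V, ⟨rvl_LV hl', ?_, c3⟩, he'⟩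
      rw [rvl_flatten, ← rev_append']
      apply rev_sa (b := Y'.getLast hYne)
      rw [List.append_assoc, List.dropLast_append_getLast]
      exact hM
    · exfalso
      have h1 : ((ncl X (l.take V) : ℕ) : ℝ) ≤ vL R0 t + nbk p1 X (l.take V) + nbk p2 (rev Y'.dropLast) (rvl (l.take V)) +
          (4 * (R0 : ℝ) + 5) ^ 2 := by exact_mod_cast key
      have h2 : ((nbk p1 X (l.take V) : ℕ) : ℝ) ≤ s := by exact_mod_cast (not_le.1 c2).le
      have h3 : ((nbk p2 (rev Y'.dropLast) (rvl (l.take V)) : ℕ) : ℝ) ≤ s := by exact_mod_cast (not_le.1 c3).le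
      have h4 : (m : ℝ) < ncl X (l.take V) := by exact_mod_cast not_le.1 c1
      have h5 : (3 : ℝ) * s ≤ m := by exact_mod_cast hs
      linarith

/-- the mass bound -/
lemma few_mass {R0 V m s n : ℕ} {x : ℝ} (hx : x + (4 * (R0 : ℝ) + 5) ^ 2 < s) (hs : 3 * s ≤ m)
    (h2 : 2 ^ m * (1 - xc ^ 2 * xc ^ 10 / 4) ^ V ≤ (1 - xc ^ 12) ^ s) :
    gf {t | t ∈ SawN n ∧ (vL R0 t : ℝ) ≤ x} ≤ gf {t | t ∈ SawN n ∧ t ∉ FacV (V + 1)} +
      gf (SAL n) * gf (SAL n) * ENNReal.ofReal (4 * (1 - xc ^ 12) ^ s) := by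
  have hx1 := xc_le1
  have hx0 := xc_pos
  have ha : xc ^ 12 ≤ 1 := pow_le_one₀ hx0.le hx1
  have hb : xc ^ 12 ≤ xc ^ 4 := pow_le_pow_of_le_one hx0.le hx1 (by norm_num)
  have hc : xc ^ 4 ≤ 1 := pow_le_one₀ hx0.le hx1
  have hw : xc ^ 10 ≤ 1 := pow_le_one₀ hx0.le hx1
  have hw0 : 0 < xc ^ 10 := pow_pos hx0 10
  have hq : 0 ≤ (1 - xc ^ 12) ^ s := pow_nonneg (by linarith) _
  refine (gf_mono (few_sub (V := V) hx hs)).trans ((gf_union_le _ _).trans (add_le_add le_rfl ?_))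
  refine (gf_union_le _ _).trans ?_
  have e1 : gf {t | ∃ X ∈ SAL n, ∃ Y ∈ SAL n, ∃ l, (l ∈ LV V ∧ ncl X l ≤ m) ∧ t = X ++ (l.flatten ++ Y)} ≤
      gf (SAL n) * gf (SAL n) * ENNReal.ofReal (2 * (1 - xc ^ 12) ^ s) := by
    refine trip (Pr := fun X l _ => l ∈ LV V ∧ ncl X l ≤ m) fun X Y => ?_
    refine (cnt_le V X m).trans (ENNReal.ofReal_le_ofReal ?_)
    have h3 : 0 ≤ 2 ^ m * (1 - xc ^ 2 * xc ^ 10 / 4) ^ V := by
      have : xc ^ 2 ≤ 1 := pow_le_one₀ hx0.le hx1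
      have h4 : 0 ≤ 1 - xc ^ 2 * xc ^ 10 / 4 := by nlinarith [pow_pos hx0 2]
      positivity
    split_ifs <;> nlinarith
  have e2 : gf {t | ∃ X ∈ SAL n, ∃ Y ∈ SAL n, ∃ l, (l ∈ LV V ∧ X ++ l.flatten ∈ SA ∧ s ≤ nbk p1 X l) ∧
      t = X ++ (l.flatten ++ Y)} ≤ gf (SAL n) * gf (SAL n) * ENNReal.ofReal ((1 - xc ^ 12) ^ s) := by
    refine trip (Pr := fun X l _ => l ∈ LV V ∧ X ++ l.flatten ∈ SA ∧ s ≤ nbk p1 X l) fun X Y => ?_
    refine (blk_le p1_IU V X s).trans (ENNReal.ofReal_le_ofReal ?_)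
    have : p1.length = 4 := rfl
    rw [this]
    exact pow_le_pow_left₀ (by linarith) (by linarith) s
  have e3 : gf {t | ∃ X ∈ SAL n, ∃ Y ∈ SAL n, ∃ l, (rvl l ∈ LV V ∧ rev Y.dropLast ++ (rvl l).flatten ∈ SA ∧
      s ≤ nbk p2 (rev Y.dropLast) (rvl l)) ∧ t = X ++ (l.flatten ++ Y)} ≤
      gf (SAL n) * gf (SAL n) * ENNReal.ofReal ((1 - xc ^ 12) ^ s) := by
    refine trip (Pr := fun _ l Y => rvl l ∈ LV V ∧ rev Y.dropLast ++ (rvl l).flatten ∈ SA ∧
      s ≤ nbk p2 (rev Y.dropLast) (rvl l)) fun X Y => ?_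
    refine (gl_rvl (fun l => l ∈ LV V ∧ rev Y.dropLast ++ l.flatten ∈ SA ∧ s ≤ nbk p2 (rev Y.dropLast) l)).trans ?_
    have : p2.length = 12 := rfl
    have h4 := blk_le p2_IU V (rev Y.dropLast) s
    rwa [this] at h4
  refine (add_le_add e1 ((gf_union_le _ _).trans (add_le_add e2 e3))).trans (le_of_eq ?_)
  rw [← mul_add, ← mul_add, ← ENNReal.ofReal_add hq hq, ← ENNReal.ofReal_add (by positivity) (by positivity)]
  congr 2
  ring

/-- the size of the parameters -/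
lemma num_s {d : ℝ} (hd : 0 < d) {L0 : ℕ} (hL : 1 ≤ L0) (A : ℝ) :
    ∀ᶠ n : ℕ in atTop, A * Real.log n ≤ (((⌊(n : ℝ) ^ d⌋₊ - 1) / L0 / 3 : ℕ) : ℝ) := by
  have hL0 : (1 : ℝ) ≤ L0 := by exact_mod_cast hL
  have h1 : (fun n : ℕ => Real.log (n : ℝ)) =o[atTop] fun n : ℕ => (n : ℝ) ^ d :=
    (isLittleO_log_rpow_atTop hd).comp_tendsto tendsto_natCast_atTop_atTop
  have hc : 0 < 1 / (3 * (L0 : ℝ) * (|A| + 1)) := by positivity
  have h2 := h1.bound hc
  have h3 : Tendsto (fun n : ℕ => Real.log (n : ℝ)) atTop atTop :=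
    Real.tendsto_log_atTop.comp tendsto_natCast_atTop_atTop
  filter_upwards [h2, h3.eventually_ge_atTop 4, eventually_ge_atTop 1] with n hn hn2 hn1
  have hlog : 0 ≤ Real.log n := by linarith
  have hnd : (0 : ℝ) ≤ (n : ℝ) ^ d := by positivity
  rw [Real.norm_of_nonneg hlog, Real.norm_of_nonneg hnd, div_mul_eq_mul_div, one_mul, le_div_iff₀ (by positivity)] at hn
  set x := (n : ℝ) ^ d with hx
  set k := ⌊x⌋₊ with hk
  have hk1 : x < k + 1 := Nat.lt_floor_add_one x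
  have hk2 : (k : ℝ) - 1 ≤ ((k - 1 : ℕ) : ℝ) := by
    rcases Nat.eq_zero_or_pos k with h | h
    · rw [h]; norm_num
    · rw [Nat.cast_sub h]; norm_num
  have hk3 : ((k - 1 : ℕ) : ℝ) < L0 * (((k - 1) / L0 : ℕ) + 1) := by
    have := Nat.lt_mul_div_succ (k - 1) (show 0 < L0 by omega)
    exact_mod_cast this
  have hk4 : (((k - 1) / L0 : ℕ) : ℝ) < 3 * (((k - 1) / L0 / 3 : ℕ) + 1) := by
    have := Nat.lt_mul_div_succ ((k - 1) / L0) (show 0 < 3 by omega)
    exact_mod_cast this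
  set s : ℝ := (((k - 1) / L0 / 3 : ℕ) : ℝ) with hs
  set j : ℝ := (((k - 1) / L0 : ℕ) : ℝ) with hj
  have e1 : x - 2 < L0 * (3 * s + 4) := by nlinarith
  have e2 : Real.log n * (3 * L0 * (|A| + 1)) ≤ x := hn
  have e3 : A ≤ |A| := le_abs_self A
  have e4 : Real.log n * (3 * L0 * (|A| + 1)) - 2 < L0 * (3 * s + 4) := by linarith
  have e5 : Real.log n * (3 * (|A| + 1)) - 2 < 3 * s + 4 := by
    have : L0 * (Real.log n * (3 * (|A| + 1)) - 2) < L0 * (3 * s + 4) := by nlinarith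
    exact lt_of_mul_lt_mul_left this (by linarith)
  nlinarith

/-- **many long places** -/
theorem many_of (hF : FacBig) : ManyL := by
  intro R0 V0 e he
  obtain ⟨d, n1, hd, hfac⟩ := hF (e / 2) (by positivity)
  obtain ⟨C, hC, hSAL⟩ := SAL_poly
  have hx1 := xc_le1
  have hx0 := xc_pos
  have hw : xc ^ 10 ≤ 1 := pow_le_one₀ hx0.le hx1
  have hw0 : 0 < xc ^ 10 := pow_pos hx0 10
  have hv : xc ^ 2 ≤ 1 := pow_le_one₀ hx0.le hx1
  have hv0 : 0 < xc ^ 2 := pow_pos hx0 2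
  have hu : xc ^ 12 ≤ 1 / 4 := by
    have h1 : xc ^ 12 = (xc ^ 2) ^ 6 := by ring
    have h2 : xc ^ 2 ≤ 1 / 2 := by
      rw [xc_sq]
      exact one_div_le_one_div_of_le (by norm_num) (by linarith [Real.sqrt_nonneg 2])
    rw [h1]
    calc (xc ^ 2) ^ 6 ≤ (1 / 2) ^ 6 := pow_le_pow_left₀ hv0.le h2 6
      _ ≤ 1 / 4 := by norm_num
  have hu0 : 0 < xc ^ 12 := pow_pos hx0 12
  set ρ := 1 - xc ^ 2 * xc ^ 10 / 4 with hρ
  set q := 1 - xc ^ 12 with hq
  have hρ0 : 0 ≤ ρ := by rw [hρ]; nlinarith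
  have hρ1 : ρ < 1 := by rw [hρ]; nlinarith [mul_pos hv0 hw0]
  have hq0 : 0 < q := by rw [hq]; linarith
  have hq1 : q < 1 := by rw [hq]; linarith
  obtain ⟨L0, hL0⟩ : ∃ L0 : ℕ, ρ ^ L0 < 1 / 4 := exists_pow_lt_of_lt_one (by norm_num) hρ1
  obtain ⟨L, hL1, hL2⟩ : ∃ L : ℕ, 1 ≤ L ∧ 2 * ρ ^ L ≤ 1 / 2 := by
    refine ⟨L0 + 1, by omega, ?_⟩
    rw [pow_succ]
    nlinarith [pow_nonneg hρ0 L0]
  have hlq : 0 < -Real.log q := by
    have := Real.log_neg hq0 hq1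
    linarith
  have ev1 := num_s hd hL1 ((V0 : ℝ) + 1 + (4 * (R0 : ℝ) + 5) ^ 2)
  have ev2 := num_s hd hL1 ((2 * C + 1) / (-Real.log q))
  have h3 : Tendsto (fun n : ℕ => Real.log (n : ℝ)) atTop atTop :=
    Real.tendsto_log_atTop.comp tendsto_natCast_atTop_atTop
  have h4 : Tendsto (fun n : ℕ => (n : ℝ)) atTop atTop := tendsto_natCast_atTop_atTop
  have h5 : Tendsto (fun n : ℕ => (n : ℝ) ^ d) atTop atTop := (tendsto_rpow_atTop hd).comp h4
  obtain ⟨n2, hn2⟩ := eventually_atTop.1 (ev1.and (ev2.and ((h3.eventually_gt_atTop 1).and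
    ((h4.eventually_ge_atTop (4 * C ^ 2 * 3 / e)).and ((h5.eventually_ge_atTop 1).and (eventually_ge_atTop n1))))))
  refine ⟨n2 + 1, fun n hn => ?_⟩
  obtain ⟨a1, a2, a3, a4, a5, a6⟩ := hn2 n (by omega)
  have hn1 : 1 ≤ n := by omega
  have hn0 : (0 : ℝ) < n := by exact_mod_cast hn1
  set k := ⌊(n : ℝ) ^ d⌋₊ with hk
  have hk1 : 1 ≤ k := Nat.le_floor (by exact_mod_cast a5)
  set m := (k - 1) / L with hm
  set s := m / 3 with hs
  have hs3 : 3 * s ≤ m := by rw [hs]; omega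
  have hmL : L * m ≤ k - 1 := by rw [hm]; exact Nat.mul_div_le _ _
  have hV : (((k - 1) + 1 : ℕ) : ℝ) ≤ (n : ℝ) ^ d := by
    rw [Nat.sub_add_cancel hk1]
    exact Nat.floor_le (by positivity)
  have b1 := hfac n a6 ((k - 1) + 1) hV
  have b2 : (V0 : ℝ) * Real.log n + (4 * (R0 : ℝ) + 5) ^ 2 < s := by
    have h6 : (0 : ℝ) ≤ (4 * (R0 : ℝ) + 5) ^ 2 := by positivity
    nlinarith
  have b3 : 2 ^ m * ρ ^ (k - 1) ≤ q ^ s := by
    calc 2 ^ m * ρ ^ (k - 1) ≤ 2 ^ m * ρ ^ (L * m) :=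
          mul_le_mul_of_nonneg_left (pow_le_pow_of_le_one hρ0 hρ1.le hmL) (by positivity)
      _ = (2 * ρ ^ L) ^ m := by rw [mul_pow, ← pow_mul]
      _ ≤ (1 / 2) ^ m := pow_le_pow_left₀ (by positivity) hL2 m
      _ ≤ q ^ m := pow_le_pow_left₀ (by norm_num) (by rw [hq]; linarith) m
      _ ≤ q ^ s := pow_le_pow_of_le_one hq0.le hq1.le (by omega)
  have b4 := few_mass (R0 := R0) (V := k - 1) (m := m) (s := s) (n := n) b2 hs3 b3
  have b5 : gf (SAL n) * gf (SAL n) * ENNReal.ofReal (4 * q ^ s) ≤ ENNReal.ofReal (e / 3) := by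
    calc gf (SAL n) * gf (SAL n) * ENNReal.ofReal (4 * q ^ s) ≤
        ENNReal.ofReal ((n : ℝ) ^ C * C) * ENNReal.ofReal ((n : ℝ) ^ C * C) * ENNReal.ofReal (4 * q ^ s) := by
          gcongr <;> exact hSAL n hn1
      _ = ENNReal.ofReal ((n : ℝ) ^ C * C * ((n : ℝ) ^ C * C) * (4 * q ^ s)) := by
          rw [← ENNReal.ofReal_mul (by positivity), ← ENNReal.ofReal_mul (by positivity)]
      _ ≤ ENNReal.ofReal (e / 3) := by
          apply ENNReal.ofReal_le_ofReal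
          have c1 : q ^ s ≤ (n : ℝ) ^ (-(2 * C + 1)) := by
            rw [← Real.rpow_natCast q s, Real.rpow_def_of_pos hq0, Real.rpow_def_of_pos hn0]
            apply Real.exp_le_exp.2
            have h6 : (2 * C + 1) * Real.log n ≤ (-Real.log q) * s := by
              have h7 : (2 * C + 1) / (-Real.log q) * Real.log n * (-Real.log q) ≤ s * (-Real.log q) :=
                mul_le_mul_of_nonneg_right a2 hlq.le
              have h8 : (2 * C + 1) / (-Real.log q) * Real.log n * (-Real.log q) = (2 * C + 1) * Real.log n := by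
                rw [mul_right_comm, div_mul_cancel₀ _ hlq.ne']
              linarith
            linarith
          have c2 : (n : ℝ) ^ C * (n : ℝ) ^ C * (n : ℝ) ^ (-(2 * C + 1)) = 1 / n := by
            rw [← Real.rpow_add hn0, ← Real.rpow_add hn0]
            have : C + C + -(2 * C + 1) = -1 := by ring
            rw [this, Real.rpow_neg_one, one_div]
          calc (n : ℝ) ^ C * C * ((n : ℝ) ^ C * C) * (4 * q ^ s) ≤
              (n : ℝ) ^ C * C * ((n : ℝ) ^ C * C) * (4 * (n : ℝ) ^ (-(2 * C + 1))) := by gcongr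
            _ = 4 * C ^ 2 * ((n : ℝ) ^ C * (n : ℝ) ^ C * (n : ℝ) ^ (-(2 * C + 1))) := by ring
            _ = 4 * C ^ 2 / n := by rw [c2]; ring
            _ ≤ e / 3 := by
                rw [div_le_iff₀ hn0]
                rw [div_le_iff₀ he] at a4
                nlinarith
  have hlow := SawN_low hn1
  have b6 : gf {t | t ∈ SawN n ∧ (vL R0 t : ℝ) ≤ V0 * Real.log n} ≤ ENNReal.ofReal (e * (cS n * xc ^ n)) := by
    refine b4.trans ?_
    calc gf {t | t ∈ SawN n ∧ t ∉ FacV (k - 1 + 1)} + gf (SAL n) * gf (SAL n) * ENNReal.ofReal (4 * q ^ s) ≤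
        ENNReal.ofReal (e / 2) * gf (SawN n) + ENNReal.ofReal (e / 3) := add_le_add b1 b5
      _ = ENNReal.ofReal (e / 2 * (cS n * xc ^ n) + e / 3) := by
          rw [PHWDict.gf_SawN, ← ENNReal.ofReal_mul (by positivity), ← ENNReal.ofReal_add (by positivity) (by positivity)]
      _ ≤ ENNReal.ofReal (e * (cS n * xc ^ n)) := by
          apply ENNReal.ofReal_le_ofReal
          nlinarith
  -- back to cardinalities
  have hfin : {t | t ∈ SawN n ∧ (vL R0 t : ℝ) ≤ V0 * Real.log n}.Finite :=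
    (PHWDict.SawN_fin n).subset fun t ht => ht.1
  have b7 : gf {t | t ∈ SawN n ∧ (vL R0 t : ℝ) ≤ V0 * Real.log n} =
      ENNReal.ofReal (({t | t ∈ SawN n ∧ (vL R0 t : ℝ) ≤ V0 * Real.log n}.ncard : ℝ) * xc ^ n) := by
    have h1 : ((hfin).toFinset : Set (List Bool)) = {t | t ∈ SawN n ∧ (vL R0 t : ℝ) ≤ V0 * Real.log n} :=
      Set.Finite.coe_toFinset _
    conv_lhs => rw [← h1]
    rw [gf_finset]
    congr 1
    have h2 : ∀ t ∈ hfin.toFinset, xc ^ t.length = xc ^ n := by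
      intro t ht
      rw [Set.Finite.mem_toFinset] at ht
      rw [ht.1.1]
    rw [Finset.sum_congr rfl h2, Finset.sum_const, nsmul_eq_mul]
    congr 2
    rw [Set.ncard_eq_toFinset_card _ hfin]
  rw [b7, ENNReal.ofReal_le_ofReal_iff (by positivity)] at b6
  have hxn : 0 < xc ^ n := pow_pos hx0 n
  refine le_of_mul_le_mul_right ?_ hxn
  linarith

/-- **more than V log n long places with probability tending to 1, for every V** -/
theorem manyL : ManyL := many_of facBig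

end TOG

end HexObs
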