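import Pool.Agent.TOG.Lim
import Pool.Agent.TOG.Count
import Pool.Agent.TOG.ManyM

/-!
TOG: row K, no hypothesis: the laws of the toggle invariant events for n and n + 2 letters are close, uniformly in the
event; the ratio of the numbers of walks over two steps tends to 1 / xc ^ 2.
-/

set_option autoImplicit false

namespace HexObs

namespace TOG

/-- **the laws of toggle invariant events** -/
theorem togLim_M : TogLim := togLim togCount manyL

/-- **the ratio over two steps** -/
theorem ratio2_M : Ratio2 := ratio2 togCount manyL

end TOG

end HexObs
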