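import Pool.Agent.TOG.LimE
import Pool.Agent.TOG.Lim

/-!
TOG, end form: the places at distance more than R0 from the last vertex. Sums of invariant functions with values in
[0, 1]: two more letters change them very little.
-/

set_option autoImplicit false

namespace HexObs

namespace TOG

open Finset TS SDN

open scoped ENNReal

namespace Gen

/-- the allowed faces: one colour class, distance more than R0 from the last vertex v -/
def FE (R0 : ℕ) (v c : Pt) : Prop := (3 : ℤ) ∣ c.1 ∧ (R0 : ℤ) ^ 2 < nrm (c - v)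

lemma FE_three (R0 : ℕ) : ∀ v c, FE R0 v c → (3 : ℤ) ∣ c.1 := fun _ _ h => h.1

lemma near_card (R0 : ℕ) (v : Pt) : {c : Pt | nrm (c - v) ≤ (R0 : ℤ) ^ 2}.Finite ∧
    {c : Pt | nrm (c - v) ≤ (R0 : ℤ) ^ 2}.ncard ≤ (4 * R0 + 1) ^ 2 := by
  have h : {c : Pt | nrm (c - v) ≤ (R0 : ℤ) ^ 2} ⊆
      (((Finset.Icc (-(2 * R0 : ℤ)) (2 * R0)) ×ˢ (Finset.Icc (-(2 * R0 : ℤ)) (2 * R0))).image fun p : Pt => p + v : Finset Pt) := by
    intro c hc
    rw [Finset.mem_coe, Finset.mem_image]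
    have h1 := abs_le_of_nrm (p := c - v) (k := (R0 : ℤ)) (by positivity) hc
    obtain ⟨h2, h3⟩ := h1
    refine ⟨c - v, ?_, by abel⟩
    rw [Finset.mem_product, Finset.mem_Icc, Finset.mem_Icc]
    have h4 : (0 : ℤ) ≤ R0 := by positivity
    refine ⟨⟨?_, ?_⟩, ?_, ?_⟩ <;> nlinarith
  refine ⟨(Finset.finite_toSet _).subset h, ?_⟩
  refine (Set.ncard_le_ncard h (Finset.finite_toSet _)).trans ?_
  rw [Set.ncard_coe_finset]
  refine Finset.card_image_le.trans ?_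
  rw [Finset.card_product, Int.card_Icc, sq]
  have : (2 * (R0 : ℤ) + 1 - -(2 * (R0 : ℤ))).toNat = 4 * R0 + 1 := by omega
  rw [this]

/-- near the last vertex there are few faces -/
lemma vL_E (R0 : ℕ) {t : List Bool} (ht : t ∈ SA) : TOG.vL 0 t ≤ vL (FE R0) t + (4 * R0 + 1) ^ 2 := by
  rw [TOG.vL_eq 0 ht, vL_eq (FE R0) ht]
  obtain ⟨h1, h2⟩ := near_card R0 (fv oo up t)
  have h3 : TOG.FL 0 t ⊆ FL (FE R0) t ∪ {c : Pt | nrm (c - fv oo up t) ≤ (R0 : ℤ) ^ 2} := by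
    rintro c ⟨h4, h5⟩
    by_cases h6 : nrm (c - fv oo up t) ≤ (R0 : ℤ) ^ 2
    · exact Or.inr h6
    · exact Or.inl ⟨⟨h4.1, by omega⟩, h5⟩
  calc (TOG.FL 0 t).ncard ≤ (FL (FE R0) t ∪ {c : Pt | nrm (c - fv oo up t) ≤ (R0 : ℤ) ^ 2}).ncard :=
        Set.ncard_le_ncard h3 ((FL_fin _ _).union h1)
    _ ≤ _ := Set.ncard_union_le _ _
    _ ≤ _ := by gcongr

lemma TT_one (n : ℕ) : TT (fun _ => 1) n = ENNReal.ofReal (cS n * xc ^ n) := by
  unfold TT
  have h : ∀ t ∈ Sn n, wE t * 1 = ENNReal.ofReal (xc ^ n) := fun t ht => by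
    unfold wE
    rw [(mem_Sn.1 ht).1, mul_one]
  rw [Finset.sum_congr rfl h, Finset.sum_const, nsmul_eq_mul]
  have h2 : cS n = (Sn n).card := by
    unfold cS Sn
    rw [Set.ncard_eq_toFinset_card _ (SawN_finite n)]
  rw [← h2, ENNReal.ofReal_mul (Nat.cast_nonneg _), ENNReal.ofReal_natCast]

open Classical in
lemma sum_ci (n : ℕ) (P : List Bool → Prop) : ∑ t ∈ Sn n, ci (P t) (wE t) =
    ENNReal.ofReal ({t | t ∈ SawN n ∧ P t}.ncard * xc ^ n) := by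
  have h : ∀ t ∈ Sn n, ci (P t) (wE t) = if P t then ENNReal.ofReal (xc ^ n) else 0 := fun t ht => by
    by_cases hp : P t
    · rw [ci_pos hp, if_pos hp]
      unfold wE
      rw [(mem_Sn.1 ht).1]
    · rw [ci_neg hp, if_neg hp]
  rw [Finset.sum_congr rfl h, ← Finset.sum_filter, Finset.sum_const, nsmul_eq_mul]
  have h2 : {t | t ∈ SawN n ∧ P t} = (((Sn n).filter P : Finset (List Bool)) : Set (List Bool)) := by
    ext t
    rw [Finset.mem_coe, Finset.mem_filter, mem_Sn]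
    exact Iff.rfl
  rw [h2, Set.ncard_coe_finset, ENNReal.ofReal_mul (Nat.cast_nonneg _), ENNReal.ofReal_natCast]

/-- many long places far from the end -/
lemma manyE (hM : ManyL) (R0 V : ℕ) {e : ℝ} (he : 0 < e) : ∀ᶠ n : ℕ in Filter.atTop,
    ∑ t ∈ Sn n, ci ((vL (FE R0) t : ℝ) ≤ V * Real.log n) (wE t) ≤ ENNReal.ofReal e * TT (fun _ => 1) n := by
  obtain ⟨n0, hn0⟩ := hM 0 (V + 1) e he
  have hlog : ∀ᶠ n : ℕ in Filter.atTop, (((4 * R0 + 1) ^ 2 : ℕ) : ℝ) ≤ Real.log n :=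
    (Real.tendsto_log_atTop.comp tendsto_natCast_atTop_atTop).eventually_ge_atTop _
  filter_upwards [hlog, Filter.eventually_ge_atTop n0] with n h1 h2
  rw [sum_ci, TT_one, ← ENNReal.ofReal_mul he.le]
  apply ENNReal.ofReal_le_ofReal
  rw [← mul_assoc]
  apply mul_le_mul_of_nonneg_right _ (pow_nonneg xc_pos.le _)
  refine le_trans ?_ (hn0 n h2)
  have h3 : {t | t ∈ SawN n ∧ (vL (FE R0) t : ℝ) ≤ V * Real.log n} ⊆
      {t | t ∈ SawN n ∧ (TOG.vL 0 t : ℝ) ≤ (V + 1 : ℕ) * Real.log n} := by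
    rintro t ⟨h4, h5⟩
    refine ⟨h4, ?_⟩
    have h6 : (TOG.vL 0 t : ℝ) ≤ vL (FE R0) t + ((4 * R0 + 1) ^ 2 : ℕ) := by
      exact_mod_cast vL_E R0 h4.2
    push_cast at h1 h6 ⊢
    linarith
  exact_mod_cast Set.ncard_le_ncard h3 ((SawN_finite n).subset fun _ h => h.1)

/-- **two more letters, end form** -/
theorem limE (hM : ManyL) (R0 : ℕ) {e : ℝ} (he : 0 < e) : ∀ᶠ n : ℕ in Filter.atTop, ∀ f : List Bool → ℝ≥0∞,
    (∀ t, f t ≤ 1) → FunInv (FE R0) f → TT f (n + 2) ≤ TT f n + ENNReal.ofReal e * TT (fun _ => 1) n ∧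
      TT f n ≤ TT f (n + 2) + ENNReal.ofReal e * TT (fun _ => 1) n := by
  obtain ⟨K, hK⟩ := polyB
  refine lim_gen (FE_three R0) (K := K) (B := 4) (by norm_num) (fun n hn => ?_) (fun n => ?_)
    (fun V e he => manyE hM R0 V he) he
  · rw [TT_one]
    exact ⟨ENNReal.ofReal_le_ofReal (hK n hn).1, ENNReal.ofReal_le_ofReal (hK n hn).2⟩
  · rw [TT_one, TT_one, ← ENNReal.ofReal_mul (by norm_num)]
    apply ENNReal.ofReal_le_ofReal
    have h2 : (cS (n + 2) : ℝ) ≤ 4 * cS n := by exact_mod_cast cS_add_two n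
    have hx := xc_pos
    have h3 : xc ^ (n + 2) ≤ xc ^ n := pow_le_pow_of_le_one hx.le B2b_xc_le_one (by omega)
    calc (cS (n + 2) : ℝ) * xc ^ (n + 2) ≤ (4 * cS n) * xc ^ n := by
          apply mul_le_mul h2 h3 (by positivity) (by positivity)
      _ = 4 * (cS n * xc ^ n) := by ring

end Gen

end TOG

end HexObs
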