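import Pool.Agent.TOG.WtF
import Pool.Agent.TOG.LimE2
import Pool.Agent.TOG.ManyM

/-!
TOG, end form, with a weight (helper83): `togE_of`: the means of the functions that change little under a toggle at a face
far from the last vertex hardly change when two letters are added.
-/

set_option autoImplicit false

namespace HexObs

namespace TOG

open Finset TS SDN

open scoped ENNReal

namespace Gen

/-- t' comes from t by a toggle from short to long at an allowed face -/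
def Tog (F : Pt → Pt → Prop) (t t' : List Bool) : Prop := ∃ X Y, t = X ++ (pS ++ Y) ∧ t' = X ++ (pL ++ Y) ∧ t ∈ SA ∧ t' ∈ SA ∧
  F (fv oo up t) (ctr X)

variable {F : Pt → Pt → Prop}

/-- the number of the toggles upwards -/
lemma card_up {n : ℕ} {t : List Bool} (ht : t ∈ SawN n) [DecidablePred (Tog F t)] :
    ((wdN (n + 2)).filter (Tog F t)).card = uS F t := by
  classical
  obtain ⟨hl, hs⟩ : t.length = n ∧ t ∈ SA := ht
  unfold uS
  symm
  refine Finset.card_bij (fun i _ => t.take i ++ (pL ++ t.drop (i + 3))) ?_ ?_ ?_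
  · intro i hi
    rw [mem_filter, mem_range] at hi
    obtain ⟨X, Y, rfl, rfl, h8, h9⟩ := (PlS_iff (t := t) (i := i) (by omega)).1 hi.2
    rw [pl_take, pl_drop (show X.length + 3 = X.length + pS.length from rfl), mem_filter, mem_wdN]
    refine ⟨⟨?_, h8⟩, X, Y, rfl, rfl, hs, h8, h9⟩
    rw [len_L]
    rw [len_S] at hl
    omega
  · intro i hi j hj hij
    rw [mem_filter, mem_range] at hi hj
    obtain ⟨X, Y, hX, h1, -, -⟩ := (PlS_iff (t := t) (i := i) (by omega)).1 hi.2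
    obtain ⟨X', Y', hX', h1', -, -⟩ := (PlS_iff (t := t) (i := j) (by omega)).1 hj.2
    have e1 : t.take i ++ (pL ++ t.drop (i + 3)) = X ++ (pL ++ Y) := by
      rw [h1, ← hX, pl_take, pl_drop (show X.length + 3 = X.length + pS.length from rfl)]
    have e2 : t.take j ++ (pL ++ t.drop (j + 3)) = X' ++ (pL ++ Y') := by
      rw [h1', ← hX', pl_take, pl_drop (show X'.length + 3 = X'.length + pS.length from rfl)]
    have e3 : X ++ (pL ++ Y) = X' ++ (pL ++ Y') := by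
      rw [← e1, ← e2]
      exact hij
    have e4 : X ++ (pS ++ Y) = X' ++ (pS ++ Y') := h1.symm.trans h1'
    have f1 := TOG.pS_pL e4 e3
    have f2 := TOG.pS_pL e4.symm e3.symm
    omega
  · intro t' ht'
    rw [mem_filter, mem_wdN] at ht'
    obtain ⟨-, X, Y, h1, h2, -, h3, h4⟩ := ht'
    refine ⟨X.length, ?_, ?_⟩
    · rw [mem_filter, mem_range]
      have h5 : X.length ≤ t.length := by
        rw [h1, len_S]
        omega
      exact ⟨by omega, (PlS_iff h5).2 ⟨X, Y, rfl, h1, h2 ▸ h3, h4⟩⟩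
    · rw [h1, pl_take, pl_drop (show X.length + 3 = X.length + pS.length from rfl), h2]

/-- the number of the toggles downwards -/
lemma card_dn {n : ℕ} {t' : List Bool} (ht' : t' ∈ SawN (n + 2)) [DecidablePred fun t => Tog F t t'] :
    ((wdN n).filter fun t => Tog F t t').card = vL F t' := by
  classical
  obtain ⟨hl, hs⟩ : t'.length = n + 2 ∧ t' ∈ SA := ht'
  unfold vL
  symm
  refine Finset.card_bij (fun i _ => t'.take i ++ (pS ++ t'.drop (i + 5))) ?_ ?_ ?_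
  · intro i hi
    rw [mem_filter, mem_range] at hi
    obtain ⟨X, Y, rfl, rfl, h8, h9⟩ := (PlL_iff (t := t') (i := i) (by omega)).1 hi.2
    rw [pl_take, pl_drop (show X.length + 5 = X.length + pL.length from rfl), mem_filter, mem_wdN]
    refine ⟨⟨?_, h8⟩, X, Y, rfl, rfl, h8, hs, by rw [fv_tog]; exact h9⟩
    rw [len_S]
    rw [len_L] at hl
    omega
  · intro i hi j hj hij
    rw [mem_filter, mem_range] at hi hj
    obtain ⟨X, Y, hX, h1, -, -⟩ := (PlL_iff (t := t') (i := i) (by omega)).1 hi.2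
    obtain ⟨X', Y', hX', h1', -, -⟩ := (PlL_iff (t := t') (i := j) (by omega)).1 hj.2
    have e1 : t'.take i ++ (pS ++ t'.drop (i + 5)) = X ++ (pS ++ Y) := by
      rw [h1, ← hX, pl_take, pl_drop (show X.length + 5 = X.length + pL.length from rfl)]
    have e2 : t'.take j ++ (pS ++ t'.drop (j + 5)) = X' ++ (pS ++ Y') := by
      rw [h1', ← hX', pl_take, pl_drop (show X'.length + 5 = X'.length + pL.length from rfl)]
    have e3 : X ++ (pS ++ Y) = X' ++ (pS ++ Y') := by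
      rw [← e1, ← e2]
      exact hij
    have e4 : X ++ (pL ++ Y) = X' ++ (pL ++ Y') := h1.symm.trans h1'
    have f1 := TOG.pS_pL e3 e4
    have f2 := TOG.pS_pL e3.symm e4.symm
    omega
  · intro t ht
    rw [mem_filter, mem_wdN] at ht
    obtain ⟨-, X, Y, h1, h2, h3, -, h4⟩ := ht
    refine ⟨X.length, ?_, ?_⟩
    · rw [mem_filter, mem_range]
      have h5 : X.length ≤ t'.length := by
        rw [h2, len_L]
        omega
      refine ⟨by omega, (PlL_iff h5).2 ⟨X, Y, rfl, h2, h1 ▸ h3, ?_⟩⟩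
      rw [h2, ← fv_tog, ← h1]
      exact h4
    · rw [h2, pl_take, pl_drop (show X.length + 5 = X.length + pL.length from rfl), h1]

/-- one step, quantitative -/
theorem wt_step (hF3 : ∀ v c, F v c → (3 : ℤ) ∣ c.1) {n : ℕ} (h0 : 0 < cS n) (h2 : 0 < cS (n + 2)) {e η e' : ℝ} (hη : 0 ≤ η)
    (lim : ∀ C : Set (List Bool), (∀ t t', Tog F t t' → (t ∈ C ↔ t' ∈ C)) → |Pn (n + 2) C - Pn n C| ≤ e)
    (few : ({t | t ∈ SawN (n + 2) ∧ vL F t = 0}.ncard : ℝ) ≤ e' * cS (n + 2)) {G : List Bool → ℝ}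
    (hG0 : ∀ t, 0 ≤ G t) (hG1 : ∀ t, G t ≤ 1)
    (hG : ∀ X Y, X.length + Y.length + 3 = n → F (fv oo up (X ++ (pS ++ Y))) (ctr X) → X ++ (pS ++ Y) ∈ SA →
      X ++ (pL ++ Y) ∈ SA → |G (X ++ (pL ++ Y)) - G (X ++ (pS ++ Y))| ≤ η) : |Ef (n + 2) G - Ef n G| ≤ e + η + e' := by
  classical
  unfold Ef
  rw [← card_wdN n, ← card_wdN (n + 2)]
  refine wt_lim (T := Tog F) (u := uS F) (v := vL F) (len := fun t => (t.length : ℤ)) ?_ ?_ ?_ ?_ ?_ hG0 hG1 hη ?_
    (wdN_nonempty h0) (wdN_nonempty h2) ?_ ?_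
  · rintro t t' ⟨X, Y, rfl, rfl, h3, h4, h5⟩
    exact tog_states hF3 h5 h3 h4
  · rintro t t' ⟨X, Y, rfl, rfl, -, -, -⟩
    simp only [len_S, len_L]
    push_cast
    ring
  · intro s hs t ht
    rw [mem_wdN] at hs ht
    have h3 := hs.1
    have h4 := ht.1
    simp only [h3, h4]
  · intro t ht _
    exact card_up (mem_wdN.1 ht)
  · intro t' ht' _
    exact card_dn (mem_wdN.1 ht')
  · rintro t ht t' - ⟨X, Y, rfl, rfl, h3, h4, h5⟩
    refine hG X Y ?_ h5 h3 h4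
    rw [mem_wdN] at ht
    rw [← len_S, ht.1]
  · rw [card_wdN]
    refine le_trans (le_of_eq ?_) few
    have hf : {t | t ∈ SawN (n + 2) ∧ vL F t = 0}.Finite := (SawN_finite (n + 2)).subset fun _ h => h.1
    rw [Set.ncard_eq_toFinset_card _ hf]
    congr 2
    ext t
    rw [Set.Finite.mem_toFinset, mem_filter, mem_wdN]
    exact Iff.rfl
  · intro C hC _
    rw [card_wdN, card_wdN, ← TOG.Pn_eq, ← TOG.Pn_eq]
    exact lim C hC

/-- the laws of the invariant events, end form -/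
theorem limC (R0 : ℕ) {e : ℝ} (he : 0 < e) : ∃ n0 : ℕ, ∀ n, n0 ≤ n → ∀ C : Set (List Bool),
    (∀ t t', Tog (FE R0) t t' → (t ∈ C ↔ t' ∈ C)) → |Pn (n + 2) C - Pn n C| ≤ e := by
  classical
  obtain ⟨n0, hn0⟩ := Filter.eventually_atTop.1 (limE manyL R0 (e := e / 2) (by positivity))
  refine ⟨n0, fun n hn C hC => ?_⟩
  have hx := xc_pos
  have hc : ∀ m, (0 : ℝ) < cS m := fun m => by exact_mod_cast cS_pos m
  obtain ⟨a, ha⟩ : ∃ a : ℕ → ℝ, a = fun m => cS m * xc ^ m := ⟨_, rfl⟩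
  have ha0 : ∀ m, 0 < a m := fun m => by
    rw [ha]
    exact mul_pos (hc m) (pow_pos hx _)
  obtain ⟨N, hN⟩ : ∃ N : ℕ → ℝ, N = fun m => ({t | t ∈ SawN m ∧ t ∈ C}.ncard : ℝ) * xc ^ m := ⟨_, rfl⟩
  have hN0 : ∀ m, 0 ≤ N m := fun m => by
    rw [hN]
    positivity
  have e1 : ∀ m, TT (fun _ => 1) m = ENNReal.ofReal (a m) := fun m => by
    rw [TT_one, ha]
  have e2 : ∀ m, TT (fun t => if t ∈ C then 1 else 0) m = ENNReal.ofReal (N m) := fun m => by
    have h1 := sum_ci m (fun t => t ∈ C)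
    rw [hN, ← h1]
    unfold TT
    refine Finset.sum_congr rfl fun t _ => ?_
    show wE t * (if t ∈ C then (1 : ℝ≥0∞) else 0) = ci (t ∈ C) (wE t)
    by_cases h2 : t ∈ C
    · rw [ci_pos h2, if_pos h2, mul_one]
    · rw [ci_neg h2, if_neg h2, mul_zero]
  have hf1 : ∀ t : List Bool, (if t ∈ C then (1 : ℝ≥0∞) else 0) ≤ 1 := fun t => by
    split_ifs
    · exact le_rfl
    · exact zero_le_one
  have hf2 : FunInv (FE R0) (fun t : List Bool => if t ∈ C then (1 : ℝ≥0∞) else 0) := fun X Y h1 h2 h3 => by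
    have h4 := hC _ _ ⟨X, Y, rfl, rfl, h2, h3, h1⟩
    show (if X ++ (pS ++ Y) ∈ C then (1 : ℝ≥0∞) else 0) = if X ++ (pL ++ Y) ∈ C then (1 : ℝ≥0∞) else 0
    by_cases h5 : X ++ (pS ++ Y) ∈ C
    · rw [if_pos h5, if_pos (h4.1 h5)]
    · rw [if_neg h5, if_neg fun h => h5 (h4.2 h)]
  have hg2 : FunInv (FE R0) (fun _ : List Bool => (1 : ℝ≥0∞)) := fun _ _ _ _ _ => rfl
  obtain ⟨k1, k2⟩ := hn0 n hn _ hf1 hf2
  obtain ⟨k3, k4⟩ := hn0 n hn _ (fun _ => le_rfl) hg2
  have he2 : (0 : ℝ) ≤ e / 2 := by positivity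
  rw [e2, e2, e1, ← ENNReal.ofReal_mul he2, ← ENNReal.ofReal_add (hN0 _) (mul_nonneg he2 (ha0 _).le),
    ENNReal.ofReal_le_ofReal_iff (add_nonneg (hN0 _) (mul_nonneg he2 (ha0 _).le))] at k1
  rw [e2, e2, e1, ← ENNReal.ofReal_mul he2, ← ENNReal.ofReal_add (hN0 _) (mul_nonneg he2 (ha0 _).le),
    ENNReal.ofReal_le_ofReal_iff (add_nonneg (hN0 _) (mul_nonneg he2 (ha0 _).le))] at k2
  rw [e1, e1, ← ENNReal.ofReal_mul he2, ← ENNReal.ofReal_add (ha0 _).le (mul_nonneg he2 (ha0 _).le),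
    ENNReal.ofReal_le_ofReal_iff (add_nonneg (ha0 _).le (mul_nonneg he2 (ha0 _).le))] at k3
  rw [e1, e1, ← ENNReal.ofReal_mul he2, ← ENNReal.ofReal_add (ha0 _).le (mul_nonneg he2 (ha0 _).le),
    ENNReal.ofReal_le_ofReal_iff (add_nonneg (ha0 _).le (mul_nonneg he2 (ha0 _).le))] at k4
  have hP : ∀ m, Pn m C = N m / a m := fun m => by
    unfold Pn
    rw [hN, ha]
    have := (hc m).ne'
    have := (pow_pos hx m).ne'
    field_simp
  have hPle : N (n + 2) / a (n + 2) ≤ 1 := by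
    rw [div_le_one (ha0 _), hN, ha]
    refine mul_le_mul_of_nonneg_right ?_ (pow_nonneg hx.le _)
    have hsub : {t | t ∈ SawN (n + 2) ∧ t ∈ C} ⊆ SawN (n + 2) := fun t ht => ht.1
    unfold cS
    exact_mod_cast Set.ncard_le_ncard hsub (SawN_finite (n + 2))
  have hPnn : 0 ≤ N (n + 2) / a (n + 2) := div_nonneg (hN0 _) (ha0 _).le
  rw [hP, hP]
  have an := ha0 n
  have an2 := ha0 (n + 2)
  have e3 : N (n + 2) / a (n + 2) - N n / a n =
      ((N (n + 2) - N n) + (N (n + 2) / a (n + 2)) * (a n - a (n + 2))) / a n := by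
    field_simp
    ring
  rw [e3, abs_div, abs_of_pos an, div_le_iff₀ an]
  refine (abs_add_le _ _).trans ?_
  rw [abs_mul, abs_of_nonneg hPnn]
  have b1 : |N (n + 2) - N n| ≤ e / 2 * a n := by
    rw [abs_le]
    constructor <;> linarith
  have b2 : |a n - a (n + 2)| ≤ e / 2 * a n := by
    rw [abs_le]
    constructor <;> linarith
  have b3 : N (n + 2) / a (n + 2) * |a n - a (n + 2)| ≤ 1 * (e / 2 * a n) :=
    mul_le_mul hPle b2 (abs_nonneg _) zero_le_one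
  linarith

/-- words without a long place far from the end -/
theorem fewE (R0 : ℕ) {e : ℝ} (he : 0 < e) : ∃ n0 : ℕ, ∀ n, n0 ≤ n →
    ({t | t ∈ SawN n ∧ vL (FE R0) t = 0}.ncard : ℝ) ≤ e * cS n := by
  obtain ⟨n1, hn1⟩ := manyL 0 1 e he
  have hlog : ∀ᶠ n : ℕ in Filter.atTop, (((4 * R0 + 1) ^ 2 : ℕ) : ℝ) ≤ Real.log n :=
    (Real.tendsto_log_atTop.comp tendsto_natCast_atTop_atTop).eventually_ge_atTop _
  obtain ⟨n2, hn2⟩ := Filter.eventually_atTop.1 hlog
  refine ⟨max n1 n2, fun n hn => ?_⟩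
  refine le_trans ?_ (hn1 n (le_of_max_le_left hn))
  have hf : {t | t ∈ SawN n ∧ (TOG.vL 0 t : ℝ) ≤ (1 : ℕ) * Real.log (n : ℝ)}.Finite :=
    (SawN_finite n).subset fun _ h => h.1
  have hsub : {t | t ∈ SawN n ∧ vL (FE R0) t = 0} ⊆ {t | t ∈ SawN n ∧ (TOG.vL 0 t : ℝ) ≤ (1 : ℕ) * Real.log (n : ℝ)} := by
    rintro t ⟨ht, hv⟩
    refine ⟨ht, ?_⟩
    have h6 : (TOG.vL 0 t : ℝ) ≤ vL (FE R0) t + ((4 * R0 + 1) ^ 2 : ℕ) := by
      exact_mod_cast vL_E R0 ht.2
    have h7 := hn2 n (le_of_max_le_right hn)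
    rw [hv] at h6
    push_cast at h6 h7 ⊢
    linarith
  exact_mod_cast Set.ncard_le_ncard hsub hf

/-- **the toggle lemma with a weight, end form** -/
theorem togE_of (R0 : ℕ) {e : ℝ} (he : 0 < e) : ∃ n0 : ℕ, ∀ n, n0 ≤ n → ∀ G : List Bool → ℝ, (∀ t, |G t| ≤ 1) →
    (∀ X Y, X.length + Y.length + 3 = n → FE R0 (fv oo up (X ++ (pS ++ Y))) (ctr X) → X ++ (pS ++ Y) ∈ SA →
      X ++ (pL ++ Y) ∈ SA → |G (X ++ (pS ++ Y)) - G (X ++ (pL ++ Y))| ≤ e / 3) → |Ef (n + 2) G - Ef n G| ≤ e := by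
  obtain ⟨n1, h1⟩ := limC R0 (e := e / 6) (by positivity)
  obtain ⟨n2, h2⟩ := fewE R0 (e := e / 6) (by positivity)
  refine ⟨max n1 n2, fun n hn G hG hd => ?_⟩
  obtain ⟨H, hH⟩ : ∃ H : List Bool → ℝ, H = fun t => (1 + G t) / 2 := ⟨_, rfl⟩
  have hG' : ∀ t, -1 ≤ G t ∧ G t ≤ 1 := fun t => abs_le.1 (hG t)
  have h3 := wt_step (F := FE R0) (FE_three R0) (cS_pos n) (cS_pos (n + 2)) (e := e / 6) (η := e / 6) (e' := e / 6)
    (by positivity) (h1 n (le_of_max_le_left hn)) (h2 (n + 2) (by have := le_of_max_le_right hn; omega)) (G := H)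
    (fun t => by rw [hH]; simp only; linarith [(hG' t).1]) (fun t => by rw [hH]; simp only; linarith [(hG' t).2])
    (fun X Y a b c d => by
      have h4 := hd X Y a b c d
      rw [hH, abs_sub_comm]
      simp only
      have e1 : (1 + G (X ++ (pS ++ Y))) / 2 - (1 + G (X ++ (pL ++ Y))) / 2 =
          (G (X ++ (pS ++ Y)) - G (X ++ (pL ++ Y))) / 2 := by ring
      rw [e1, abs_div, abs_two]
      linarith)
  have h5 : ∀ m, Ef m H = 1 / 2 + Ef m G / 2 := fun m => by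
    have h0 : (cS m : ℝ) ≠ 0 := by exact_mod_cast (cS_pos m).ne'
    unfold Ef
    rw [hH]
    simp only
    have e2 : ∑ t ∈ wdN m, (1 + G t) / 2 = (cS m : ℝ) / 2 + (∑ t ∈ wdN m, G t) / 2 := by
      rw [← sum_div, sum_add_distrib, sum_const, card_wdN, nsmul_eq_mul, mul_one]
      ring
    rw [e2]
    field_simp
  rw [h5, h5] at h3
  have e3 : 1 / 2 + Ef (n + 2) G / 2 - (1 / 2 + Ef n G / 2) = (Ef (n + 2) G - Ef n G) / 2 := by ring
  rw [e3, abs_div, abs_two] at h3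
  linarith

end Gen

end TOG

end HexObs
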