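import Pool.Agent.TOG.Wt
import Pool.Agent.TOG.Count

/-!
TOG: the toggle lemma with a weight (helper83): `togF_of`: from `TogLim` and `ManyL` to functions of the words that change
little under a toggle.
-/

set_option autoImplicit false

namespace HexObs

namespace TOG

open Finset TS SDN

/-- t' comes from t by a toggle from short to long at an allowed face -/
def Tog (R0 : ℕ) (t t' : List Bool) : Prop := ∃ X Y, t = X ++ (pS ++ Y) ∧ t' = X ++ (pL ++ Y) ∧ t ∈ SA ∧ t' ∈ SA ∧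
  Fc R0 (ctr X)

/-- the words with n letters -/
noncomputable def wdN (n : ℕ) : Finset (List Bool) := (SawN_finite n).toFinset

lemma mem_wdN {n : ℕ} {t : List Bool} : t ∈ wdN n ↔ t ∈ SawN n := by
  unfold wdN
  rw [Set.Finite.mem_toFinset]

lemma card_wdN (n : ℕ) : (wdN n).card = cS n := by
  unfold wdN cS
  rw [Set.ncard_eq_toFinset_card _ (SawN_finite n)]

/-- the mean of a function over the words with n letters -/
noncomputable def Ef (n : ℕ) (G : List Bool → ℝ) : ℝ := (∑ t ∈ wdN n, G t) / (cS n : ℝ)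

lemma Pn_eq (n : ℕ) (C : Set (List Bool)) [DecidablePred (· ∈ C)] :
    Pn n C = (((wdN n).filter (· ∈ C)).card : ℝ) / cS n := by
  unfold Pn
  congr 2
  have hf : {t | t ∈ SawN n ∧ t ∈ C}.Finite := (SawN_finite n).subset fun _ h => h.1
  rw [Set.ncard_eq_toFinset_card _ hf]
  congr 1
  ext t
  rw [Set.Finite.mem_toFinset, mem_filter, mem_wdN]
  exact Iff.rfl

lemma len_S (X Y : List Bool) : (X ++ (pS ++ Y)).length = X.length + Y.length + 3 := by
  simp only [List.length_append, pS, List.length_cons, List.length_nil]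
  omega

lemma len_L (X Y : List Bool) : (X ++ (pL ++ Y)).length = X.length + Y.length + 5 := by
  simp only [List.length_append, pL, List.length_cons, List.length_nil]
  omega

/-- a short and a long form with a common word: the place is determined, one side -/
lemma pS_pL {X Y X' Y' : List Bool} (h : X ++ (pS ++ Y) = X' ++ (pS ++ Y')) (h' : X ++ (pL ++ Y) = X' ++ (pL ++ Y')) :
    ¬ X.length < X'.length := by
  intro hlt
  have e1 : (X ++ (pS ++ Y))[X.length]? = some false := by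
    rw [List.getElem?_append_right le_rfl, Nat.sub_self]
    rfl
  have e2 : (X ++ (pL ++ Y))[X.length]? = some true := by
    rw [List.getElem?_append_right le_rfl, Nat.sub_self]
    rfl
  rw [h, List.getElem?_append_left hlt] at e1
  rw [h', List.getElem?_append_left hlt] at e2
  rw [e1] at e2
  exact absurd e2 (by decide)

/-- the number of the toggles upwards -/
lemma card_up {R0 n : ℕ} {t : List Bool} (ht : t ∈ SawN n) [DecidablePred (Tog R0 t)] :
    ((wdN (n + 2)).filter (Tog R0 t)).card = uS R0 t := by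
  classical
  obtain ⟨hl, hs⟩ : t.length = n ∧ t ∈ SA := ht
  unfold uS
  symm
  refine Finset.card_bij (fun i _ => t.take i ++ (pL ++ t.drop (i + 3))) ?_ ?_ ?_
  · intro i hi
    rw [mem_filter, mem_range] at hi
    obtain ⟨X, Y, rfl, rfl, h8, h9⟩ := (PlS_iff (t := t) (i := i) (by omega)).1 hi.2
    rw [pl_take, pl_drop (show X.length + 3 = X.length + pS.length from rfl), mem_filter, mem_wdN]
    refine ⟨⟨?_, h8⟩, X, Y, rfl, rfl, hs, h8, h9⟩
    rw [len_L]
    rw [len_S] at hl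
    omega
  · intro i hi j hj hij
    rw [mem_filter, mem_range] at hi hj
    obtain ⟨X, Y, hX, h1, -, -⟩ := (PlS_iff (t := t) (i := i) (by omega)).1 hi.2
    obtain ⟨X', Y', hX', h1', -, -⟩ := (PlS_iff (t := t) (i := j) (by omega)).1 hj.2
    have e1 : t.take i ++ (pL ++ t.drop (i + 3)) = X ++ (pL ++ Y) := by
      rw [h1, ← hX, pl_take, pl_drop (show X.length + 3 = X.length + pS.length from rfl)]
    have e2 : t.take j ++ (pL ++ t.drop (j + 3)) = X' ++ (pL ++ Y') := by
      rw [h1', ← hX', pl_take, pl_drop (show X'.length + 3 = X'.length + pS.length from rfl)]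
    have e3 : X ++ (pL ++ Y) = X' ++ (pL ++ Y') := by
      rw [← e1, ← e2]
      exact hij
    have e4 : X ++ (pS ++ Y) = X' ++ (pS ++ Y') := h1.symm.trans h1'
    have f1 := pS_pL e4 e3
    have f2 := pS_pL e4.symm e3.symm
    omega
  · intro t' ht'
    rw [mem_filter, mem_wdN] at ht'
    obtain ⟨-, X, Y, h1, h2, -, h3, h4⟩ := ht'
    refine ⟨X.length, ?_, ?_⟩
    · rw [mem_filter, mem_range]
      have h5 : X.length ≤ t.length := by
        rw [h1, len_S]
        omega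
      exact ⟨by omega, (PlS_iff h5).2 ⟨X, Y, rfl, h1, h2 ▸ h3, h4⟩⟩
    · rw [h1, pl_take, pl_drop (show X.length + 3 = X.length + pS.length from rfl), h2]

/-- the number of the toggles downwards -/
lemma card_dn {R0 n : ℕ} {t' : List Bool} (ht' : t' ∈ SawN (n + 2)) [DecidablePred fun t => Tog R0 t t'] :
    ((wdN n).filter fun t => Tog R0 t t').card = vL R0 t' := by
  classical
  obtain ⟨hl, hs⟩ : t'.length = n + 2 ∧ t' ∈ SA := ht'
  unfold vL
  symm
  refine Finset.card_bij (fun i _ => t'.take i ++ (pS ++ t'.drop (i + 5))) ?_ ?_ ?_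
  · intro i hi
    rw [mem_filter, mem_range] at hi
    obtain ⟨X, Y, rfl, rfl, h8, h9⟩ := (PlL_iff (t := t') (i := i) (by omega)).1 hi.2
    rw [pl_take, pl_drop (show X.length + 5 = X.length + pL.length from rfl), mem_filter, mem_wdN]
    refine ⟨⟨?_, h8⟩, X, Y, rfl, rfl, h8, hs, h9⟩
    rw [len_S]
    rw [len_L] at hl
    omega
  · intro i hi j hj hij
    rw [mem_filter, mem_range] at hi hj
    obtain ⟨X, Y, hX, h1, -, -⟩ := (PlL_iff (t := t') (i := i) (by omega)).1 hi.2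
    obtain ⟨X', Y', hX', h1', -, -⟩ := (PlL_iff (t := t') (i := j) (by omega)).1 hj.2
    have e1 : t'.take i ++ (pS ++ t'.drop (i + 5)) = X ++ (pS ++ Y) := by
      rw [h1, ← hX, pl_take, pl_drop (show X.length + 5 = X.length + pL.length from rfl)]
    have e2 : t'.take j ++ (pS ++ t'.drop (j + 5)) = X' ++ (pS ++ Y') := by
      rw [h1', ← hX', pl_take, pl_drop (show X'.length + 5 = X'.length + pL.length from rfl)]
    have e3 : X ++ (pS ++ Y) = X' ++ (pS ++ Y') := by
      rw [← e1, ← e2]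
      exact hij
    have e4 : X ++ (pL ++ Y) = X' ++ (pL ++ Y') := h1.symm.trans h1'
    have f1 := pS_pL e3 e4
    have f2 := pS_pL e3.symm e4.symm
    omega
  · intro t ht
    rw [mem_filter, mem_wdN] at ht
    obtain ⟨-, X, Y, h1, h2, h3, -, h4⟩ := ht
    refine ⟨X.length, ?_, ?_⟩
    · rw [mem_filter, mem_range]
      have h5 : X.length ≤ t'.length := by
        rw [h2, len_L]
        omega
      exact ⟨by omega, (PlL_iff h5).2 ⟨X, Y, rfl, h2, h1 ▸ h3, h4⟩⟩
    · rw [h2, pl_take, pl_drop (show X.length + 5 = X.length + pL.length from rfl), h1]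

lemma wdN_nonempty {n : ℕ} (h : 0 < cS n) : (wdN n).Nonempty := by
  rw [← Finset.card_pos, card_wdN]
  exact h

/-- one step, quantitative -/
theorem wt_step {R0 n : ℕ} (h0 : 0 < cS n) (h2 : 0 < cS (n + 2)) {e η e' : ℝ} (hη : 0 ≤ η)
    (lim : ∀ C : Set (List Bool), TogInv R0 C → |Pn (n + 2) C - Pn n C| ≤ e)
    (few : ({t | t ∈ SawN (n + 2) ∧ vL R0 t = 0}.ncard : ℝ) ≤ e' * cS (n + 2)) {G : List Bool → ℝ}
    (hG0 : ∀ t, 0 ≤ G t) (hG1 : ∀ t, G t ≤ 1)
    (hG : ∀ X Y, Fc R0 (ctr X) → X ++ (pS ++ Y) ∈ SA → X ++ (pL ++ Y) ∈ SA →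
      |G (X ++ (pL ++ Y)) - G (X ++ (pS ++ Y))| ≤ η) : |Ef (n + 2) G - Ef n G| ≤ e + η + e' := by
  classical
  unfold Ef
  rw [← card_wdN n, ← card_wdN (n + 2)]
  refine wt_lim (T := Tog R0) (u := uS R0) (v := vL R0) (len := fun t => (t.length : ℤ)) ?_ ?_ ?_ ?_ ?_ hG0 hG1 hη ?_
    (wdN_nonempty h0) (wdN_nonempty h2) ?_ ?_
  · rintro t t' ⟨X, Y, rfl, rfl, h3, h4, h5⟩
    exact tog_states h5 h3 h4
  · rintro t t' ⟨X, Y, rfl, rfl, -, -, -⟩
    simp only [len_S, len_L]
    push_cast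
    ring
  · intro s hs t ht
    rw [mem_wdN] at hs ht
    have h3 := hs.1
    have h4 := ht.1
    simp only [h3, h4]
  · intro t ht _
    exact card_up (mem_wdN.1 ht)
  · intro t' ht' _
    exact card_dn (mem_wdN.1 ht')
  · rintro t - t' - ⟨X, Y, rfl, rfl, h3, h4, h5⟩
    exact hG X Y h5 h3 h4
  · rw [card_wdN]
    refine le_trans (le_of_eq ?_) few
    have hf : {t | t ∈ SawN (n + 2) ∧ vL R0 t = 0}.Finite := (SawN_finite (n + 2)).subset fun _ h => h.1
    rw [Set.ncard_eq_toFinset_card _ hf]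
    congr 2
    ext t
    rw [Set.Finite.mem_toFinset, mem_filter, mem_wdN]
    exact Iff.rfl
  · intro C hC _
    rw [card_wdN, card_wdN, ← Pn_eq, ← Pn_eq]
    exact lim C fun X Y h3 h4 h5 => hC _ _ ⟨X, Y, rfl, rfl, h4, h5, h3⟩

/-- **the toggle lemma with a weight** -/
theorem togF_of (hL : TogLim) (hM : ManyL) (hc : ∀ n, 0 < cS n) : ∀ (R0 : ℕ) (e : ℝ), 0 < e → ∃ d : ℝ, 0 < d ∧
    ∃ n0 : ℕ, ∀ n, n0 ≤ n → ∀ G : List Bool → ℝ, (∀ t, 0 ≤ G t ∧ G t ≤ 1) →
    (∀ X Y, Fc R0 (ctr X) → X ++ (pS ++ Y) ∈ SA → X ++ (pL ++ Y) ∈ SA →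
      |G (X ++ (pS ++ Y)) - G (X ++ (pL ++ Y))| ≤ d) → |Ef (n + 2) G - Ef n G| ≤ e := by
  intro R0 e he
  obtain ⟨n1, h1⟩ := hL R0 (e / 3) (by positivity)
  obtain ⟨n2, h2⟩ := hM R0 1 (e / 3) (by positivity)
  refine ⟨e / 3, by positivity, max n1 n2, fun n hn G hG hd => ?_⟩
  have h3 := wt_step (R0 := R0) (hc n) (hc (n + 2)) (e := e / 3) (η := e / 3) (e' := e / 3) (by positivity)
    (h1 n (le_of_max_le_left hn)) ?_ (fun t => (hG t).1) (fun t => (hG t).2) (fun X Y a b c => by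
      rw [abs_sub_comm]
      exact hd X Y a b c)
  · linarith
  · refine le_trans ?_ (h2 (n + 2) (by have := le_of_max_le_right hn; omega))
    have hf : {t | t ∈ SawN (n + 2) ∧ (vL R0 t : ℝ) ≤ (1 : ℕ) * Real.log ((n + 2 : ℕ) : ℝ)}.Finite :=
      (SawN_finite (n + 2)).subset fun _ h => h.1
    have hsub : {t | t ∈ SawN (n + 2) ∧ vL R0 t = 0} ⊆
        {t | t ∈ SawN (n + 2) ∧ (vL R0 t : ℝ) ≤ (1 : ℕ) * Real.log ((n + 2 : ℕ) : ℝ)} := by
      rintro t ⟨ht, hv⟩
      refine ⟨ht, ?_⟩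
      rw [hv, Nat.cast_zero]
      have : 0 ≤ Real.log ((n + 2 : ℕ) : ℝ) := Real.log_nonneg (by push_cast; linarith [(Nat.cast_nonneg n : (0 : ℝ) ≤ n)])
      positivity
    exact_mod_cast Set.ncard_le_ncard hsub hf

end TOG

end HexObs
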