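import Pool.Agent.TOG.LimE2
import Pool.Agent.TOG.WtF

/-!
TOG, end form: `togFunE` (means of the invariant functions with values in [0, 1]) and `togLimE` (events).
-/

set_option autoImplicit false

namespace HexObs

namespace TOG

open Finset TS SDN

open scoped ENNReal

/-- events that do not change under a toggle at a face of the colour class at distance more than R0 from the last vertex -/
def TogInvE (R0 : ℕ) (C : Set (List Bool)) : Prop := ∀ X Y, (3 : ℤ) ∣ (ctr X).1 →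
  (R0 : ℤ) ^ 2 < nrm (ctr X - vx oo up (X ++ (pS ++ Y)) (X ++ (pS ++ Y)).length) → X ++ (pS ++ Y) ∈ SA →
    X ++ (pL ++ Y) ∈ SA → (X ++ (pS ++ Y) ∈ C ↔ X ++ (pL ++ Y) ∈ C)

/-- functions that do not change under a toggle at a face of the colour class at distance more than R0 from the last vertex -/
def FunInvE (R0 : ℕ) (f : List Bool → ℝ) : Prop := ∀ X Y, (3 : ℤ) ∣ (ctr X).1 →
  (R0 : ℤ) ^ 2 < nrm (ctr X - vx oo up (X ++ (pS ++ Y)) (X ++ (pS ++ Y)).length) → X ++ (pS ++ Y) ∈ SA →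
    X ++ (pL ++ Y) ∈ SA → f (X ++ (pS ++ Y)) = f (X ++ (pL ++ Y))

namespace Gen

lemma TT_real {f : List Bool → ℝ} (hf : ∀ t, 0 ≤ f t) (n : ℕ) :
    TT (fun t => ENNReal.ofReal (f t)) n = ENNReal.ofReal (xc ^ n * ∑ t ∈ wdN n, f t) := by
  unfold TT
  rw [Finset.mul_sum, ENNReal.ofReal_sum_of_nonneg fun t _ => mul_nonneg (pow_nonneg xc_pos.le _) (hf t)]
  refine Finset.sum_congr rfl fun t ht => ?_
  unfold wE
  rw [(mem_Sn.1 ht).1, ENNReal.ofReal_mul (pow_nonneg xc_pos.le _)]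

lemma of_le {a b c : ℝ} (_ : 0 ≤ a) (hb : 0 ≤ b) (hc : 0 ≤ c)
    (h : ENNReal.ofReal a ≤ ENNReal.ofReal b + ENNReal.ofReal c) : a ≤ b + c := by
  rw [← ENNReal.ofReal_add hb hc] at h
  exact (ENNReal.ofReal_le_ofReal_iff (by positivity)).1 h

/-- **weighted sums of the invariant functions, two more letters, end form** -/
theorem sumE (hM : ManyL) (R0 : ℕ) {e : ℝ} (he : 0 < e) : ∃ n0 : ℕ, ∀ n, n0 ≤ n → ∀ f : List Bool → ℝ,
    (∀ t, 0 ≤ f t ∧ f t ≤ 1) → FunInvE R0 f →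
      |xc ^ (n + 2) * ∑ t ∈ wdN (n + 2), f t - xc ^ n * ∑ t ∈ wdN n, f t| ≤ e * (cS n * xc ^ n) := by
  have h := limE hM R0 he
  rw [Filter.eventually_atTop] at h
  obtain ⟨n0, h⟩ := h
  refine ⟨n0, fun n hn f hf1 hf2 => ?_⟩
  have hx := xc_pos
  have h1 := h n hn (fun t => ENNReal.ofReal (f t)) (fun t => by
    have := ENNReal.ofReal_le_ofReal (hf1 t).2
    rwa [ENNReal.ofReal_one] at this) (fun X Y a1 a2 a3 => by
      have : f (X ++ (pS ++ Y)) = f (X ++ (pL ++ Y)) := hf2 X Y a1.1 (by rw [← fv_eq]; exact a1.2) a2 a3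
      dsimp only
      rw [this])
  rw [TT_real (fun t => (hf1 t).1), TT_real (fun t => (hf1 t).1), TT_one, ← ENNReal.ofReal_mul he.le] at h1
  have s1 : 0 ≤ xc ^ (n + 2) * ∑ t ∈ wdN (n + 2), f t :=
    mul_nonneg (by positivity) (Finset.sum_nonneg fun t _ => (hf1 t).1)
  have s2 : 0 ≤ xc ^ n * ∑ t ∈ wdN n, f t := mul_nonneg (by positivity) (Finset.sum_nonneg fun t _ => (hf1 t).1)
  have s3 : 0 ≤ e * (cS n * xc ^ n) := by positivity
  rw [abs_le]
  constructor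
  · have := of_le s2 s1 s3 h1.2
    linarith
  · have := of_le s1 s2 s3 h1.1
    linarith

end Gen

/-- **(K), end form, functions**: the means of the invariant functions with values in [0, 1] hardly change when two
letters are added, uniformly in the function -/
theorem togFunE (hM : ManyL) (R0 : ℕ) {e : ℝ} (he : 0 < e) : ∃ n0 : ℕ, ∀ n, n0 ≤ n → ∀ f : List Bool → ℝ,
    (∀ t, 0 ≤ f t ∧ f t ≤ 1) → FunInvE R0 f → |Ef (n + 2) f - Ef n f| ≤ e := by
  obtain ⟨n0, h0⟩ := Gen.sumE hM R0 (half_pos he)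
  refine ⟨n0, fun n hn f hf1 hf2 => ?_⟩
  have hx := xc_pos
  have h1 := h0 n hn f hf1 hf2
  have h2 := h0 n hn (fun _ => 1) (fun _ => ⟨zero_le_one, le_rfl⟩) (fun _ _ _ _ _ _ => rfl)
  have hcard : ∀ m, ∑ _t ∈ wdN m, (1 : ℝ) = cS m := fun m => by
    rw [Finset.sum_const, nsmul_eq_mul, mul_one, card_wdN]
  simp only [hcard] at h2
  have hle : ∀ m, ∑ t ∈ wdN m, f t ≤ cS m := fun m => by
    rw [← hcard]
    exact Finset.sum_le_sum fun t _ => (hf1 t).2
  have hnn : ∀ m, 0 ≤ ∑ t ∈ wdN m, f t := fun m => Finset.sum_nonneg fun t _ => (hf1 t).1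
  have hc : ∀ m, (0 : ℝ) < cS m := fun m => by exact_mod_cast cS_pos m
  obtain ⟨b, hb⟩ : ∃ b, b = (cS n : ℝ) * xc ^ n := ⟨_, rfl⟩
  obtain ⟨b', hb'⟩ : ∃ b', b' = (cS (n + 2) : ℝ) * xc ^ (n + 2) := ⟨_, rfl⟩
  obtain ⟨a, ha⟩ : ∃ a, a = xc ^ n * ∑ t ∈ wdN n, f t := ⟨_, rfl⟩
  obtain ⟨a', ha'⟩ : ∃ a', a' = xc ^ (n + 2) * ∑ t ∈ wdN (n + 2), f t := ⟨_, rfl⟩
  have b0 : 0 < b := by
    rw [hb]
    have := hc n
    positivity
  have b0' : 0 < b' := by
    rw [hb']
    have := hc (n + 2)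
    positivity
  have a0' : 0 ≤ a' := by
    rw [ha']
    exact mul_nonneg (by positivity) (hnn _)
  have a1' : a' ≤ b' := by
    rw [ha', hb', mul_comm (cS (n + 2) : ℝ)]
    exact mul_le_mul_of_nonneg_left (hle _) (by positivity)
  have e1 : Ef n f = a / b := by
    unfold Ef
    rw [ha, hb]
    have := hc n
    field_simp
  have e2 : Ef (n + 2) f = a' / b' := by
    unfold Ef
    rw [ha', hb']
    have := hc (n + 2)
    field_simp
  rw [← ha, ← ha', ← hb] at h1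
  rw [mul_comm (xc ^ (n + 2)) (cS (n + 2) : ℝ), mul_comm (xc ^ n) (cS n : ℝ), ← hb, ← hb'] at h2
  have e3 : a' / b' - a / b = a' / b' * ((b - b') / b) + (a' - a) / b := by
    field_simp
    ring
  rw [e1, e2, e3]
  have h3 : |a' / b'| ≤ 1 := by
    rw [abs_of_nonneg (by positivity), div_le_one b0']
    exact a1'
  calc |a' / b' * ((b - b') / b) + (a' - a) / b| ≤ |a' / b' * ((b - b') / b)| + |(a' - a) / b| := abs_add_le _ _
    _ ≤ 1 * (e / 2) + e / 2 := by
        gcongr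
        · rw [abs_mul]
          gcongr
          rw [abs_div, abs_of_pos b0, div_le_iff₀ b0, abs_sub_comm]
          exact h2
        · rw [abs_div, abs_of_pos b0, div_le_iff₀ b0]
          exact h1
    _ = e := by ring

/-- **(K), end form, events** -/
theorem togLimE (hM : ManyL) (R0 : ℕ) {e : ℝ} (he : 0 < e) : ∃ n0 : ℕ, ∀ n, n0 ≤ n → ∀ C : Set (List Bool),
    TogInvE R0 C → |Pn (n + 2) C - Pn n C| ≤ e := by
  classical
  obtain ⟨n0, h0⟩ := togFunE hM R0 he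
  refine ⟨n0, fun n hn C hC => ?_⟩
  have h1 := h0 n hn (fun t => if t ∈ C then 1 else 0) (fun t => by
    split_ifs
    · exact ⟨zero_le_one, le_rfl⟩
    · exact ⟨le_rfl, zero_le_one⟩) (fun X Y a1 a2 a3 a4 => by
      have := hC X Y a1 a2 a3 a4
      simp only [this])
  have h2 : ∀ m, Pn m C = Ef m (fun t => if t ∈ C then 1 else 0) := fun m => by
    rw [Pn_eq]
    unfold Ef
    rw [Finset.sum_ite, Finset.sum_const_zero, add_zero, Finset.sum_const, nsmul_eq_mul, mul_one]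
  rw [h2, h2]
  exact h1

end TOG

end HexObs
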