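import Mathlib.Topology.Algebra.InfiniteSum.ENNReal
import Mathlib.Analysis.SpecialFunctions.Pow.Real
import Mathlib.Analysis.SpecialFunctions.Log.Basic

/-!
# Independent toggles: concentration and the invariance of the law of the invariant events (row K of TIP, abstract part)

`G n r v` = weight of the words with `n` letters, `r` places, `v` of them long (inside an invariant event).  The only
input is the exact relation `(r - v) G n r v = q (v + 1) G (n + 2) r (v + 1)` (`q = 1 / xc ^ 2` times the weights of the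
two letters: with the weights included the factor is `q`).
-/

set_option autoImplicit false

namespace HexObs.TOG

open scoped ENNReal

/-- A system of independent toggles. -/
structure Tgs (q : ℝ) (G : ℕ → ℕ → ℕ → ℝ≥0∞) : Prop where
  rel : ∀ n r v, ((r - v : ℕ) : ℝ≥0∞) * G n r v = ENNReal.ofReal q * ((v + 1 : ℕ) : ℝ≥0∞) * G (n + 2) r (v + 1)
  le : ∀ n r v, G n r v ≠ 0 → v ≤ r ∧ r ≤ n + 1

/-- the total weight. -/
noncomputable def tot (G : ℕ → ℕ → ℕ → ℝ≥0∞) (n : ℕ) : ℝ≥0∞ := ∑' p : ℕ × ℕ, G n p.1 p.2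

variable {q ε : ℝ} {G G' : ℕ → ℕ → ℕ → ℝ≥0∞}

theorem cancel {a b c : ℝ≥0∞} (h0 : a ≠ 0) (ht : a ≠ ⊤) (h : a * b ≤ a * c) : b ≤ c :=
  (ENNReal.mul_le_mul_iff_right h0 ht).1 h

theorem qv_ne (hq : 0 < q) (v : ℕ) : ENNReal.ofReal q * ((v + 1 : ℕ) : ℝ≥0∞) ≠ 0 ∧
    ENNReal.ofReal q * ((v + 1 : ℕ) : ℝ≥0∞) ≠ ⊤ := by
  constructor
  · exact mul_ne_zero (by rwa [Ne, ENNReal.ofReal_eq_zero, not_le]) (by exact_mod_cast Nat.succ_ne_zero v)
  · exact ENNReal.mul_ne_top ENNReal.ofReal_ne_top (ENNReal.natCast_ne_top _)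

theorem nat_sub_ge (r v : ℕ) : ENNReal.ofReal ((r : ℝ) - v) ≤ ((r - v : ℕ) : ℝ≥0∞) := by
  rw [← ENNReal.ofReal_natCast (r - v)]
  apply ENNReal.ofReal_le_ofReal
  rcases le_total v r with h | h
  · rw [Nat.cast_sub h]
  · have h1 : ((r : ℝ)) ≤ v := by exact_mod_cast h
    have h2 : (0 : ℝ) ≤ ((r - v : ℕ) : ℝ) := Nat.cast_nonneg _
    linarith

theorem nat_sub_le {r v : ℕ} (h : v ≤ r) : ((r - v : ℕ) : ℝ≥0∞) = ENNReal.ofReal ((r : ℝ) - v) := by
  rw [← ENNReal.ofReal_natCast (r - v), Nat.cast_sub h]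

/-- one move up. -/
theorem Tgs.up_one (h : Tgs q G) (hq : 0 < q) {δ : ℝ} (hδ : 0 ≤ δ) {n r v : ℕ}
    (hb : (1 + δ) * (q * (v + 1)) ≤ (r : ℝ) - v) :
    ENNReal.ofReal (1 + δ) * G n r v ≤ G (n + 2) r (v + 1) := by
  apply cancel (qv_ne hq v).1 (qv_ne hq v).2
  rw [← h.rel n r v, ← mul_assoc]
  gcongr
  refine le_trans ?_ (nat_sub_ge r v)
  refine le_trans (le_of_eq ?_) (ENNReal.ofReal_le_ofReal hb)
  rw [ENNReal.ofReal_mul (by linarith), ENNReal.ofReal_mul hq.le, mul_comm]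
  congr 2
  rw [← ENNReal.ofReal_natCast (v + 1)]
  push_cast
  rfl

/-- one move down. -/
theorem Tgs.dn_one (h : Tgs q G) (hq : 0 < q) {δ : ℝ} (hδ : 0 ≤ δ) {n r v : ℕ}
    (hb : (1 + δ) * ((r : ℝ) - v) ≤ q * (v + 1)) :
    ENNReal.ofReal (1 + δ) * G (n + 2) r (v + 1) ≤ G n r v := by
  rcases Nat.lt_or_ge v r with hv | hv
  · have h0 : ((r - v : ℕ) : ℝ≥0∞) ≠ 0 := by
      have : r - v ≠ 0 := by omega
      exact_mod_cast this
    apply cancel h0 (ENNReal.natCast_ne_top _)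
    rw [h.rel n r v, ← mul_assoc]
    refine mul_le_mul' ?_ le_rfl
    rw [nat_sub_le hv.le, mul_comm, ← ENNReal.ofReal_mul (by linarith)]
    refine (ENNReal.ofReal_le_ofReal hb).trans (le_of_eq ?_)
    rw [ENNReal.ofReal_mul hq.le, ← ENNReal.ofReal_natCast (v + 1)]
    push_cast
    rfl
  · have h0 : G (n + 2) r (v + 1) = 0 := by
      by_contra hne
      have := (h.le _ _ _ hne).1
      omega
    rw [h0, mul_zero]
    exact zero_le

/-- `m` moves up. -/
theorem Tgs.up_iter (h : Tgs q G) (hq : 0 < q) (hε : 0 < ε) {n r v m : ℕ}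
    (hb : (1 + ε) * (q * (v + 1)) ≤ (r : ℝ) - v)
    (hm : m * (1 + (1 + ε / 2) * q) ≤ ε / 2 * (q * (v + 1))) :
    ENNReal.ofReal (1 + ε / 2) ^ m * G n r v ≤ G (n + 2 * m) r (v + m) := by
  have key : ∀ i, i ≤ m → ENNReal.ofReal (1 + ε / 2) ^ i * G n r v ≤ G (n + 2 * i) r (v + i) := by
    intro i
    induction i with
    | zero => intro _; simp
    | succ i ih =>
      intro hi
      have h1 := ih (by omega)
      have h2 : ENNReal.ofReal (1 + ε / 2) * G (n + 2 * i) r (v + i) ≤ G (n + 2 * i + 2) r (v + i + 1) := by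
        apply h.up_one hq (by linarith)
        have h3 : ((i : ℝ) + 1) ≤ m := by exact_mod_cast hi
        push_cast
        have h4 : (i : ℝ) * (1 + (1 + ε / 2) * q) ≤ m * (1 + (1 + ε / 2) * q) := by
          apply mul_le_mul_of_nonneg_right (by linarith)
          positivity
        nlinarith
      calc ENNReal.ofReal (1 + ε / 2) ^ (i + 1) * G n r v
          = ENNReal.ofReal (1 + ε / 2) * (ENNReal.ofReal (1 + ε / 2) ^ i * G n r v) := by
            rw [pow_succ]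
            ring
        _ ≤ ENNReal.ofReal (1 + ε / 2) * G (n + 2 * i) r (v + i) := by gcongr
        _ ≤ _ := h2
  exact key m le_rfl

/-- `m` moves down. -/
theorem Tgs.dn_iter (h : Tgs q G) (hq : 0 < q) (hε : 0 < ε) {n r v m : ℕ}
    (hb : (r : ℝ) - (v + m : ℕ) ≤ (1 - ε) * (q * ((v + m : ℕ) + 1)))
    (hm : m * ((1 + ε / 2) + q) ≤ ε / 2 * (q * ((v + m : ℕ) + 1))) :
    ENNReal.ofReal (1 + ε / 2) ^ m * G (n + 2 * m) r (v + m) ≤ G n r v := by
  have key : ∀ i, i ≤ m → ENNReal.ofReal (1 + ε / 2) ^ i * G (n + 2 * m) r (v + m) ≤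
      G (n + 2 * (m - i)) r (v + (m - i)) := by
    intro i
    induction i with
    | zero => intro _; simp
    | succ i ih =>
      intro hi
      have h1 := ih (by omega)
      obtain ⟨j, hj⟩ : ∃ j, m = i + 1 + j := ⟨m - (i + 1), by omega⟩
      have e1 : m - i = j + 1 := by omega
      have e2 : m - (i + 1) = j := by omega
      rw [e1] at h1
      rw [e2]
      have h2 : ENNReal.ofReal (1 + ε / 2) * G (n + 2 * j + 2) r (v + j + 1) ≤ G (n + 2 * j) r (v + j) := by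
        apply h.dn_one hq (by linarith)
        have h3 : (m : ℝ) = i + 1 + j := by rw [hj]; push_cast; ring
        have h4 : (0 : ℝ) ≤ j := Nat.cast_nonneg _
        have h5 : (0 : ℝ) ≤ i := Nat.cast_nonneg _
        have h6 : (0 : ℝ) ≤ v := Nat.cast_nonneg _
        push_cast at hb hm ⊢
        have h7 : ((i : ℝ) + 1) * ((1 + ε / 2) + q) ≤ m * ((1 + ε / 2) + q) := by
          apply mul_le_mul_of_nonneg_right (by linarith)
          positivity
        have h8 : (r : ℝ) - (v + j) = ((r : ℝ) - (v + m)) + (i + 1) := by rw [h3]; ring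
        rw [h8]
        have h9 : q * ((v : ℝ) + j + 1) = q * ((v : ℝ) + m + 1) - q * (i + 1) := by rw [h3]; ring
        rw [h9]
        have h10 : (1 + ε / 2) * ((r : ℝ) - (v + m)) ≤ (1 + ε / 2) * ((1 - ε) * (q * (v + m + 1))) := by
          apply mul_le_mul_of_nonneg_left hb
          linarith
        have h11 : 0 ≤ q * ((v : ℝ) + m + 1) := by positivity
        have h12 : (1 + ε / 2) * ((1 - ε) * (q * ((v : ℝ) + m + 1))) ≤ (1 - ε / 2) * (q * ((v : ℝ) + m + 1)) := by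
          have h13 : (1 + ε / 2) * (1 - ε) ≤ 1 - ε / 2 := by nlinarith
          rw [← mul_assoc]
          exact mul_le_mul_of_nonneg_right h13 h11
        nlinarith
      have e3 : n + 2 * (j + 1) = n + 2 * j + 2 := by ring
      have e4 : v + (j + 1) = v + j + 1 := by ring
      rw [e3, e4] at h1
      calc ENNReal.ofReal (1 + ε / 2) ^ (i + 1) * G (n + 2 * m) r (v + m)
          = ENNReal.ofReal (1 + ε / 2) * (ENNReal.ofReal (1 + ε / 2) ^ i * G (n + 2 * m) r (v + m)) := by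
            rw [pow_succ]
            ring
        _ ≤ ENNReal.ofReal (1 + ε / 2) * G (n + 2 * j + 2) r (v + j + 1) := by gcongr
        _ ≤ _ := h2
  have h1 := key m le_rfl
  rwa [Nat.sub_self, mul_zero, add_zero, add_zero] at h1

/-- the pairs `(r, v)` with too many short places. -/
def HiD (q ε : ℝ) (r v : ℕ) : Prop := (1 + ε) * (q * (v + 1)) ≤ (r : ℝ) - v

/-- the pairs `(r, v)` with too few short places. -/
def LoD (q ε : ℝ) (r v : ℕ) : Prop := (r : ℝ) - v ≤ (1 - ε) * (q * (v + 1))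

open Classical in
/-- `x` if `P` holds, `0` otherwise. -/
noncomputable def ci (P : Prop) (x : ℝ≥0∞) : ℝ≥0∞ := if P then x else 0

theorem ci_pos {P : Prop} (h : P) (x : ℝ≥0∞) : ci P x = x := if_pos h

theorem ci_neg {P : Prop} (h : ¬ P) (x : ℝ≥0∞) : ci P x = 0 := if_neg h

theorem ci_le (P : Prop) (x : ℝ≥0∞) : ci P x ≤ x := by
  by_cases h : P
  · rw [ci_pos h]
  · rw [ci_neg h]
    exact zero_le

/-- the weight of a set of pairs. -/
noncomputable def wt (G : ℕ → ℕ → ℕ → ℝ≥0∞) (n : ℕ) (P : ℕ → ℕ → Prop) : ℝ≥0∞ :=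
  ∑' p : ℕ × ℕ, ci (P p.1 p.2) (G n p.1 p.2)

theorem wt_le_tot (n : ℕ) (P : ℕ → ℕ → Prop) : wt G n P ≤ tot G n :=
  ENNReal.tsum_le_tsum fun _ => ci_le _ _

theorem wt_mono {n : ℕ} {P Q : ℕ → ℕ → Prop} (h : ∀ r v, G n r v ≠ 0 → P r v → Q r v) : wt G n P ≤ wt G n Q := by
  refine ENNReal.tsum_le_tsum fun p => ?_
  by_cases hP : P p.1 p.2
  · by_cases h0 : G n p.1 p.2 = 0
    · rw [h0]
      exact (ci_le _ _).trans zero_le
    · rw [ci_pos hP, ci_pos (h _ _ h0 hP)]
  · rw [ci_neg hP]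
    exact zero_le

theorem wt_le {n : ℕ} (h : ∀ r v, G' n r v ≤ G n r v) (P : ℕ → ℕ → Prop) : wt G' n P ≤ wt G n P := by
  refine ENNReal.tsum_le_tsum fun p => ?_
  by_cases hP : P p.1 p.2
  · rw [ci_pos hP, ci_pos hP]
    exact h _ _
  · rw [ci_neg hP, ci_neg hP]

theorem wt_or (n : ℕ) (P Q : ℕ → ℕ → Prop) : wt G n (fun r v => P r v ∨ Q r v) ≤ wt G n P + wt G n Q := by
  unfold wt
  rw [← ENNReal.tsum_add]
  refine ENNReal.tsum_le_tsum fun p => ?_
  by_cases hP : P p.1 p.2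
  · rw [ci_pos hP]
    exact (ci_le _ _).trans le_self_add
  · by_cases hQ : Q p.1 p.2
    · rw [ci_pos hQ]
      exact (ci_le _ _).trans le_add_self
    · rw [ci_neg (fun h => h.elim hP hQ)]
      exact zero_le

theorem tot_le_wt (n : ℕ) (P : ℕ → ℕ → Prop) : tot G n ≤ wt G n P + wt G n (fun r v => ¬ P r v) := by
  unfold tot wt
  rw [← ENNReal.tsum_add]
  refine ENNReal.tsum_le_tsum fun p => ?_
  by_cases hP : P p.1 p.2
  · rw [ci_pos hP]
    exact le_self_add
  · rw [ci_neg hP, zero_add, ci_pos hP]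

theorem inj_shift (m : ℕ) : Function.Injective (fun p : ℕ × ℕ => (p.1, p.2 + m)) := by
  intro a b hab
  simp only [Prod.mk.injEq, add_left_inj] at hab
  exact Prod.ext hab.1 hab.2

/-- the upper deviations. -/
theorem Tgs.up_sum (h : Tgs q G) (hq : 0 < q) (hε : 0 < ε) {n m V : ℕ}
    (hm : m * (1 + (1 + ε / 2) * q) ≤ ε / 2 * (q * (V + 1))) :
    ENNReal.ofReal (1 + ε / 2) ^ m * wt G n (fun r v => V ≤ v ∧ HiD q ε r v) ≤ tot G (n + 2 * m) := by
  have h1 : ENNReal.ofReal (1 + ε / 2) ^ m * wt G n (fun r v => V ≤ v ∧ HiD q ε r v) ≤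
      ∑' p : ℕ × ℕ, G (n + 2 * m) p.1 (p.2 + m) := by
    unfold wt
    rw [← ENNReal.tsum_mul_left]
    refine ENNReal.tsum_le_tsum fun p => ?_
    by_cases hp : V ≤ p.2 ∧ HiD q ε p.1 p.2
    · rw [ci_pos hp]
      apply h.up_iter hq hε hp.2
      refine hm.trans ?_
      have : (V : ℝ) ≤ p.2 := by exact_mod_cast hp.1
      apply mul_le_mul_of_nonneg_left _ (by linarith)
      apply mul_le_mul_of_nonneg_left _ hq.le
      linarith
    · rw [ci_neg hp, mul_zero]
      exact zero_le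
  exact h1.trans (ENNReal.tsum_comp_le_tsum_of_injective (inj_shift m)
    (fun p : ℕ × ℕ => G (n + 2 * m) p.1 p.2))

/-- sums over the pairs with `m ≤ v`. -/
theorem wt_shift (m : ℕ) {n : ℕ} {P : ℕ → ℕ → Prop} (h : ∀ r v, P r v → m ≤ v) :
    wt G n P = ∑' p : ℕ × ℕ, ci (P p.1 (p.2 + m)) (G n p.1 (p.2 + m)) := by
  unfold wt
  refine ((inj_shift m).tsum_eq (f := fun p : ℕ × ℕ => ci (P p.1 p.2) (G n p.1 p.2)) ?_).symm
  intro p hp
  rw [Function.mem_support] at hp
  have h2 : P p.1 p.2 := by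
    by_contra hc
    exact hp (ci_neg hc _)
  have h3 := h _ _ h2
  exact ⟨(p.1, p.2 - m), Prod.ext rfl (by show p.2 - m + m = p.2; omega)⟩

/-- the lower deviations. -/
theorem Tgs.dn_sum (h : Tgs q G) (hq : 0 < q) (hε : 0 < ε) {n m V : ℕ} (hV : m ≤ V)
    (hm : m * ((1 + ε / 2) + q) ≤ ε / 2 * (q * (V + 1))) :
    ENNReal.ofReal (1 + ε / 2) ^ m * wt G (n + 2 * m) (fun r v => V ≤ v ∧ LoD q ε r v) ≤ tot G n := by
  rw [wt_shift m (fun r v h => hV.trans h.1), ← ENNReal.tsum_mul_left]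
  refine ENNReal.tsum_le_tsum fun p => ?_
  by_cases hp : V ≤ p.2 + m ∧ LoD q ε p.1 (p.2 + m)
  · rw [ci_pos hp]
    apply h.dn_iter hq hε hp.2
    refine hm.trans ?_
    have : (V : ℝ) ≤ ((p.2 + m : ℕ) : ℝ) := by exact_mod_cast hp.1
    apply mul_le_mul_of_nonneg_left _ (by linarith)
    apply mul_le_mul_of_nonneg_left _ hq.le
    linarith
  · rw [ci_neg hp, mul_zero]
    exact zero_le

/-- one step up in the length. -/
theorem Tgs.next_le (h : Tgs q G) (hq : 1 ≤ q) (hε : 0 < ε) (n V : ℕ) :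
    wt G (n + 2) (fun _ v => V < v) ≤
      ENNReal.ofReal (1 + ε) * tot G n + ((n + 1 : ℕ) : ℝ≥0∞) * wt G n (fun r v => V ≤ v ∧ HiD q ε r v) := by
  have hq0 : 0 < q := by linarith
  rw [wt_shift 1 (fun _ v h => by omega)]
  unfold tot wt
  rw [← ENNReal.tsum_mul_left, ← ENNReal.tsum_mul_left, ← ENNReal.tsum_add]
  refine ENNReal.tsum_le_tsum fun p => ?_
  by_cases hp : V < p.2 + 1
  · rw [ci_pos hp]
    have hr := h.rel n p.1 p.2
    by_cases hH : HiD q ε p.1 p.2
    · rw [ci_pos ⟨by omega, hH⟩]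
      refine le_trans ?_ le_add_self
      by_cases h0 : G n p.1 p.2 = 0
      · have h1 : G (n + 2) p.1 (p.2 + 1) = 0 := by
          rw [h0, mul_zero] at hr
          by_contra hne
          exact mul_ne_zero (qv_ne hq0 p.2).1 hne hr.symm
        rw [h1]
        exact zero_le
      · have h2 := (h.le _ _ _ h0).2
        have h3 : G (n + 2) p.1 (p.2 + 1) ≤ ((p.1 - p.2 : ℕ) : ℝ≥0∞) * G n p.1 p.2 := by
          rw [hr]
          refine le_mul_of_one_le_left' ?_
          have e1 : (1 : ℝ≥0∞) ≤ ENNReal.ofReal q := by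
            rw [← ENNReal.ofReal_one]
            exact ENNReal.ofReal_le_ofReal hq
          have e2 : (1 : ℝ≥0∞) ≤ ((p.2 + 1 : ℕ) : ℝ≥0∞) := by exact_mod_cast Nat.succ_le_succ (Nat.zero_le _)
          calc (1 : ℝ≥0∞) = 1 * 1 := (mul_one 1).symm
            _ ≤ _ := mul_le_mul' e1 e2
        refine h3.trans (mul_le_mul' ?_ le_rfl)
        have : p.1 - p.2 ≤ n + 1 := by omega
        exact_mod_cast this
    · refine le_trans ?_ le_self_add
      apply cancel (qv_ne hq0 p.2).1 (qv_ne hq0 p.2).2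
      rw [← hr, ← mul_assoc]
      refine mul_le_mul' ?_ le_rfl
      unfold HiD at hH
      rw [not_le] at hH
      rcases le_total p.2 p.1 with hv | hv
      · rw [nat_sub_le hv]
        refine (ENNReal.ofReal_le_ofReal hH.le).trans (le_of_eq ?_)
        rw [ENNReal.ofReal_mul (by linarith), ENNReal.ofReal_mul hq0.le, mul_comm]
        congr 2
        rw [← ENNReal.ofReal_natCast (p.2 + 1)]
        push_cast
        rfl
      · rw [Nat.sub_eq_zero_of_le hv]
        simp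
  · rw [ci_neg hp]
    exact zero_le

/-- one step down in the length. -/
theorem Tgs.prev_le (h : Tgs q G) (hq : 0 < q) (hε1 : ε < 1) (n : ℕ) :
    ENNReal.ofReal (1 - ε) * wt G n (fun r v => ¬ LoD q ε r v) ≤ tot G (n + 2) := by
  refine le_trans ?_ (ENNReal.tsum_comp_le_tsum_of_injective (inj_shift 1) (fun p : ℕ × ℕ => G (n + 2) p.1 p.2))
  unfold wt
  rw [← ENNReal.tsum_mul_left]
  refine ENNReal.tsum_le_tsum fun p => ?_
  by_cases hp : LoD q ε p.1 p.2
  · rw [ci_neg (not_not.2 hp), mul_zero]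
    exact zero_le
  · rw [ci_pos hp]
    show ENNReal.ofReal (1 - ε) * G n p.1 p.2 ≤ G (n + 2) p.1 (p.2 + 1)
    apply cancel (qv_ne hq p.2).1 (qv_ne hq p.2).2
    rw [← h.rel n p.1 p.2, ← mul_assoc]
    refine mul_le_mul' ?_ le_rfl
    refine le_trans ?_ (nat_sub_ge _ _)
    unfold LoD at hp
    rw [not_le] at hp
    refine le_trans (le_of_eq ?_) (ENNReal.ofReal_le_ofReal hp.le)
    rw [ENNReal.ofReal_mul (by linarith), ENNReal.ofReal_mul hq.le, mul_comm]
    congr 2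
    rw [← ENNReal.ofReal_natCast (p.2 + 1)]
    push_cast
    rfl

end HexObs.TOG
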