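import Pool.Agent.TOG.Abs
import Mathlib.Analysis.SpecialFunctions.Log.Deriv
import Mathlib.Analysis.SpecialFunctions.Pow.Asymptotics

/-!
# Independent toggles: adding two letters hardly changes the weight of an invariant event (row K of TIP, abstract part)
-/

set_option autoImplicit false

namespace HexObs.TOG

open scoped ENNReal
open Filter

variable {q ε : ℝ} {G G' : ℕ → ℕ → ℕ → ℝ≥0∞}

theorem le_div_of {a b : ℝ} {w : ℝ≥0∞} (ha : 0 < a) (h : ENNReal.ofReal a * w ≤ ENNReal.ofReal b) :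
    w ≤ ENNReal.ofReal (b / a) := by
  rw [ENNReal.ofReal_div_of_pos ha, ENNReal.le_div_iff_mul_le (Or.inl (by rwa [Ne, ENNReal.ofReal_eq_zero, not_le]))
    (Or.inl ENNReal.ofReal_ne_top), mul_comm]
  exact h

/-- elementary facts about the number of moves. -/
theorem num (hq : 1 ≤ q) (hε : 0 < ε) (K : ℕ) : ∃ V : ℕ, ∀ᶠ n : ℕ in atTop, ∃ m : ℕ,
    2 ≤ n ∧ 2 * m + 2 ≤ n ∧ n + 2 * m ≤ n ^ 2 ∧ m ≤ ⌊(V : ℝ) * Real.log n⌋₊ + 1 ∧
    (m : ℝ) * (1 + (1 + ε / 2) * q) ≤ ε / 2 * (q * (((⌊(V : ℝ) * Real.log n⌋₊ + 1 : ℕ) : ℝ) + 1)) ∧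
    (n : ℝ) ^ (3 * K + 4) ≤ (1 + ε / 2) ^ m := by
  have hlam : 0 < Real.log (1 + ε / 2) := Real.log_pos (by linarith)
  set lam := Real.log (1 + ε / 2) with hl
  set M : ℝ := (3 * K + 4) / lam with hM
  have hM0 : 0 < M := by positivity
  set A : ℝ := 1 + (1 + ε / 2) * q with hA
  have hA0 : 0 < A := by positivity
  obtain ⟨V, hV⟩ := exists_nat_ge ((M + 1) * (2 * A / (ε * q)) + M + 1)
  refine ⟨V, ?_⟩
  have e1 : ∀ᶠ n : ℕ in atTop, 1 ≤ Real.log n :=
    (Real.tendsto_log_atTop.comp tendsto_natCast_atTop_atTop).eventually_ge_atTop 1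
  have e2 : ∀ᶠ n : ℕ in atTop, 2 * (M + 1) * Real.log n + 2 ≤ n := by
    have h1 := Real.isLittleO_log_id_atTop.comp_tendsto (tendsto_natCast_atTop_atTop (R := ℝ))
    have h2 := h1.def (c := 1 / (4 * (M + 1))) (by positivity)
    filter_upwards [h2, eventually_ge_atTop 4, e1] with n hn hn2 hn1
    simp only [Function.comp_apply, id, Real.norm_eq_abs] at hn
    rw [abs_of_nonneg (by linarith), abs_of_nonneg (Nat.cast_nonneg n)] at hn
    have h3 : (4 : ℝ) ≤ n := by exact_mod_cast hn2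
    have h4 : 2 * (M + 1) * Real.log n ≤ 2 * (M + 1) * (1 / (4 * (M + 1)) * n) := by gcongr
    have h5 : 2 * (M + 1) * (1 / (4 * (M + 1)) * (n : ℝ)) = n / 2 := by
      field_simp
      ring
    linarith
  filter_upwards [e1, e2, eventually_ge_atTop 2] with n hn1 hn2 hn3
  have hn0 : (2 : ℝ) ≤ n := by exact_mod_cast hn3
  refine ⟨⌈M * Real.log n⌉₊, by omega, ?_, ?_, ?_, ?_, ?_⟩
  · have h1 := Nat.ceil_lt_add_one (a := M * Real.log n) (by positivity)
    have h2 : ((2 * ⌈M * Real.log n⌉₊ + 2 : ℕ) : ℝ) ≤ n := by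
      push_cast
      nlinarith
    exact_mod_cast h2
  · have h1 := Nat.ceil_lt_add_one (a := M * Real.log n) (by positivity)
    have h2 : ((n + 2 * ⌈M * Real.log n⌉₊ : ℕ) : ℝ) ≤ ((n ^ 2 : ℕ) : ℝ) := by
      push_cast
      nlinarith
    exact_mod_cast h2
  · have h1 := Nat.ceil_lt_add_one (a := M * Real.log n) (by positivity)
    have h2 := Nat.lt_floor_add_one ((V : ℝ) * Real.log n)
    have h3 : (M + 1) * Real.log n ≤ V * Real.log n := by
      apply mul_le_mul_of_nonneg_right _ (by linarith)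
      have : 0 ≤ (M + 1) * (2 * A / (ε * q)) := by positivity
      linarith
    have h4 : ((⌈M * Real.log n⌉₊ : ℕ) : ℝ) ≤ ((⌊(V : ℝ) * Real.log n⌋₊ + 1 : ℕ) : ℝ) := by
      push_cast
      nlinarith
    exact_mod_cast h4
  · have h1 := Nat.ceil_lt_add_one (a := M * Real.log n) (by positivity)
    have h2 := Nat.lt_floor_add_one ((V : ℝ) * Real.log n)
    have h3 : (M + 1) * (2 * A / (ε * q)) * Real.log n ≤ V * Real.log n := by
      apply mul_le_mul_of_nonneg_right _ (by linarith)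
      linarith
    have h4 : ((⌈M * Real.log n⌉₊ : ℕ) : ℝ) ≤ (M + 1) * Real.log n := by nlinarith
    calc ((⌈M * Real.log n⌉₊ : ℕ) : ℝ) * A ≤ ((M + 1) * Real.log n) * A := by gcongr
      _ = ε / 2 * (q * ((M + 1) * (2 * A / (ε * q)) * Real.log n)) := by
        field_simp
      _ ≤ ε / 2 * (q * (V * Real.log n)) := by gcongr
      _ ≤ _ := by
        push_cast
        gcongr
        linarith
  · have h1 : (n : ℝ) ^ (3 * K + 4) = Real.exp ((M * Real.log n) * lam) := by
      have h2 : (M * Real.log n) * lam = ((3 * K + 4 : ℕ) : ℝ) * Real.log n := by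
        rw [hM]
        push_cast
        field_simp
      rw [h2, Real.exp_nat_mul, Real.exp_log (by linarith)]
    have h3 : (1 + ε / 2) ^ ⌈M * Real.log n⌉₊ = Real.exp ((⌈M * Real.log n⌉₊ : ℕ) * lam) := by
      rw [Real.exp_nat_mul, hl, Real.exp_log (by linarith)]
    rw [h1, h3]
    apply Real.exp_le_exp.2
    exact mul_le_mul_of_nonneg_right (Nat.le_ceil _) hlam.le

/-- **Concentration of the number of the long places.** -/
theorem conc (hG : Tgs q G) (hq : 1 ≤ q) {K : ℕ}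
    (hT : ∀ n : ℕ, 2 ≤ n → ENNReal.ofReal (1 / (n : ℝ) ^ K) ≤ tot G n ∧ tot G n ≤ ENNReal.ofReal ((n : ℝ) ^ K))
    (hε : 0 < ε) : ∃ V : ℕ, ∀ᶠ n : ℕ in atTop,
      ((n + 1 : ℕ) : ℝ≥0∞) * wt G n (fun r v => ⌊(V : ℝ) * Real.log n⌋₊ + 1 ≤ v ∧ HiD q ε r v) ≤
        ENNReal.ofReal ε * tot G n ∧
      wt G n (fun r v => ⌊(V : ℝ) * Real.log n⌋₊ + 1 ≤ v ∧ LoD q ε r v) ≤ ENNReal.ofReal ε * tot G n := by
  obtain ⟨V, hV⟩ := num hq hε K
  refine ⟨V, ?_⟩
  obtain ⟨n1, hn1⟩ := exists_nat_ge (2 / ε)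
  filter_upwards [hV, eventually_ge_atTop n1, eventually_ge_atTop 1] with n hn hn2 hn3
  obtain ⟨m, h1, h2, h3, h4, h5, h6⟩ := hn
  have hq0 : 0 < q := by linarith
  have hn : (1 : ℝ) ≤ n := by exact_mod_cast (by omega : 1 ≤ n)
  have hn0 : (0 : ℝ) < n := by linarith
  have hpow : (0 : ℝ) < (1 + ε / 2) ^ m := by positivity
  have hlow := (hT n h1).1
  have hfin : (2 : ℝ) / n ≤ ε := by
    have : (n1 : ℝ) ≤ n := by exact_mod_cast hn2
    rw [div_le_iff₀ hn0]
    rw [div_le_iff₀ hε] at hn1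
    nlinarith
  constructor
  · have h7 := hG.up_sum hq0 hε (n := n) (m := m) (V := ⌊(V : ℝ) * Real.log n⌋₊ + 1) h5
    rw [← ENNReal.ofReal_pow (by linarith)] at h7
    have h8 : tot G (n + 2 * m) ≤ ENNReal.ofReal ((n : ℝ) ^ (2 * K)) := by
      refine (hT (n + 2 * m) (by omega)).2.trans (ENNReal.ofReal_le_ofReal ?_)
      rw [pow_mul]
      apply pow_le_pow_left₀ (Nat.cast_nonneg _)
      exact_mod_cast h3
    have h9 := le_div_of hpow (h7.trans h8)
    have h10 : (n : ℝ) ^ (2 * K) / (1 + ε / 2) ^ m ≤ 1 / (n : ℝ) ^ (K + 4) := by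
      rw [div_le_div_iff₀ hpow (by positivity), one_mul, ← pow_add]
      have e : 2 * K + (K + 4) = 3 * K + 4 := by ring
      rw [e]
      exact h6
    calc ((n + 1 : ℕ) : ℝ≥0∞) * wt G n (fun r v => ⌊(V : ℝ) * Real.log n⌋₊ + 1 ≤ v ∧ HiD q ε r v)
        ≤ ((n + 1 : ℕ) : ℝ≥0∞) * ENNReal.ofReal (1 / (n : ℝ) ^ (K + 4)) := by
          gcongr
          exact h9.trans (ENNReal.ofReal_le_ofReal h10)
      _ = ENNReal.ofReal ((n + 1) * (1 / (n : ℝ) ^ (K + 4))) := by
          rw [ENNReal.ofReal_mul (by positivity), ← ENNReal.ofReal_natCast (n + 1)]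
          push_cast
          rfl
      _ ≤ ENNReal.ofReal (ε * (1 / (n : ℝ) ^ K)) := by
          apply ENNReal.ofReal_le_ofReal
          rw [pow_add]
          have e : ((n : ℝ) + 1) * (1 / ((n : ℝ) ^ K * (n : ℝ) ^ 4)) = (((n : ℝ) + 1) / (n : ℝ) ^ 4) * (1 / (n : ℝ) ^ K) := by
            field_simp
          rw [e]
          apply mul_le_mul_of_nonneg_right _ (by positivity)
          refine le_trans ?_ hfin
          rw [div_le_div_iff₀ (by positivity) hn0]
          have : (1 : ℝ) ≤ (n : ℝ) ^ 2 := one_le_pow₀ hn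
          have e2 : (n : ℝ) ^ 4 = (n : ℝ) ^ 2 * (n : ℝ) ^ 2 := by ring
          nlinarith
      _ ≤ ENNReal.ofReal ε * tot G n := by
          rw [ENNReal.ofReal_mul hε.le]
          gcongr
  · obtain ⟨k, hk⟩ : ∃ k, n = k + 2 * m := ⟨n - 2 * m, by omega⟩
    have h7 := hG.dn_sum hq0 hε (n := k) (m := m) (V := ⌊(V : ℝ) * Real.log n⌋₊ + 1) h4 (by
      refine le_trans ?_ h5
      apply mul_le_mul_of_nonneg_left _ (Nat.cast_nonneg _)
      nlinarith)
    rw [← hk, ← ENNReal.ofReal_pow (by linarith)] at h7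
    have h8 : tot G k ≤ ENNReal.ofReal ((n : ℝ) ^ K) := by
      refine (hT k (by omega)).2.trans (ENNReal.ofReal_le_ofReal ?_)
      apply pow_le_pow_left₀ (Nat.cast_nonneg _)
      have : k ≤ n := by omega
      exact_mod_cast this
    have h9 := le_div_of hpow (h7.trans h8)
    refine h9.trans ?_
    calc ENNReal.ofReal ((n : ℝ) ^ K / (1 + ε / 2) ^ m)
        ≤ ENNReal.ofReal (ε * (1 / (n : ℝ) ^ K)) := by
          apply ENNReal.ofReal_le_ofReal
          have h10 : (n : ℝ) ^ K / (1 + ε / 2) ^ m ≤ (n : ℝ) ^ K / (n : ℝ) ^ (3 * K + 4) := by gcongr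
          refine h10.trans ?_
          have e : (n : ℝ) ^ K / (n : ℝ) ^ (3 * K + 4) = (1 / (n : ℝ) ^ (K + 4)) * (1 / (n : ℝ) ^ K) := by
            rw [div_mul_div_comm, one_mul, div_eq_div_iff (by positivity) (by positivity), ← pow_add, ← pow_add, one_mul]
            congr 1
            ring
          rw [e]
          apply mul_le_mul_of_nonneg_right _ (by positivity)
          refine le_trans ?_ hfin
          rw [div_le_div_iff₀ (by positivity) hn0, one_mul]
          have h11 : (n : ℝ) ^ 1 ≤ (n : ℝ) ^ (K + 4) := pow_le_pow_right₀ hn (by omega)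
          have h12 : (0 : ℝ) ≤ (n : ℝ) ^ (K + 4) := by positivity
          linarith
      _ ≤ ENNReal.ofReal ε * tot G n := by
          rw [ENNReal.ofReal_mul hε.le]
          gcongr

/-- **Two more letters.** -/
theorem lim_of (hG : Tgs q G) (hq : 1 ≤ q) {K : ℕ} {B : ℝ} (hB1 : 1 ≤ B)
    (hT : ∀ n : ℕ, 2 ≤ n → ENNReal.ofReal (1 / (n : ℝ) ^ K) ≤ tot G n ∧ tot G n ≤ ENNReal.ofReal ((n : ℝ) ^ K))
    (hB : ∀ n, tot G (n + 2) ≤ ENNReal.ofReal B * tot G n)
    (hM : ∀ (V : ℕ) (e : ℝ), 0 < e → ∀ᶠ n : ℕ in atTop,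
      wt G n (fun _ v => (v : ℝ) ≤ V * Real.log n) ≤ ENNReal.ofReal e * tot G n)
    {e : ℝ} (he : 0 < e) : ∀ᶠ n : ℕ in atTop, ∀ G', Tgs q G' → (∀ n r v, G' n r v ≤ G n r v) →
      tot G' (n + 2) ≤ tot G' n + ENNReal.ofReal e * tot G n ∧
      tot G' n ≤ tot G' (n + 2) + ENNReal.ofReal e * tot G n := by
  have hq0 : 0 < q := by linarith
  -- the constants
  obtain ⟨ε, hε, hε1, hε2⟩ : ∃ ε : ℝ, 0 < ε ∧ ε ≤ 1 / 2 ∧ ε * (4 * B + 3) ≤ e := by
    refine ⟨min (1 / 2) (e / (4 * B + 3)), ?_, min_le_left _ _, ?_⟩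
    · apply lt_min (by norm_num)
      positivity
    · calc min (1 / 2) (e / (4 * B + 3)) * (4 * B + 3) ≤ e / (4 * B + 3) * (4 * B + 3) := by
            gcongr
            exact min_le_right _ _
        _ = e := by field_simp
  obtain ⟨V, hV⟩ := conc hG hq hT hε
  have hM1 := hM V ε hε
  have hM2 := (tendsto_add_atTop_nat 2).eventually (hM (V + 1) ε hε)
  have e1 : ∀ᶠ n : ℕ in atTop, 1 ≤ Real.log n :=
    (Real.tendsto_log_atTop.comp tendsto_natCast_atTop_atTop).eventually_ge_atTop 1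
  filter_upwards [hV, hM1, hM2, e1, eventually_ge_atTop 1] with n hVn hMn hMn2 hlog hn1
  intro G' hG' hle
  have hn0 : (0 : ℝ) < n := by exact_mod_cast hn1
  have htle : ∀ n, tot G' n ≤ tot G n := fun n => ENNReal.tsum_le_tsum fun p => hle n p.1 p.2
  set W : ℕ := ⌊(V : ℝ) * Real.log n⌋₊ + 1 with hW
  have hWlt : (V : ℝ) * Real.log n < W := by
    rw [hW]
    push_cast
    exact Nat.lt_floor_add_one _
  have hWle : (W : ℝ) ≤ (V + 1 : ℕ) * Real.log ((n + 2 : ℕ) : ℝ) := by
    have h1 : Real.log n ≤ Real.log ((n + 2 : ℕ) : ℝ) := by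
      apply Real.log_le_log hn0
      push_cast
      linarith
    have h2 : ((⌊(V : ℝ) * Real.log n⌋₊ : ℕ) : ℝ) ≤ V * Real.log n := Nat.floor_le (by positivity)
    rw [hW]
    push_cast
    have h3 : (V : ℝ) * Real.log n ≤ V * Real.log ((n : ℝ) + 2) := by
      push_cast at h1
      gcongr
    push_cast at h1
    nlinarith
  constructor
  · have h1 := tot_le_wt (G := G') (n + 2) (fun _ v => W < v)
    have h2 := hG'.next_le hq hε n W
    have h3 : wt G' n (fun r v => W ≤ v ∧ HiD q ε r v) ≤ wt G n (fun r v => W ≤ v ∧ HiD q ε r v) := wt_le (hle n) _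
    have h4 : wt G' (n + 2) (fun _ v => ¬ W < v) ≤ ENNReal.ofReal ε * (ENNReal.ofReal B * tot G n) := by
      refine (wt_le (hle (n + 2)) _).trans ?_
      refine (wt_mono (Q := fun _ v => (v : ℝ) ≤ (V + 1 : ℕ) * Real.log ((n + 2 : ℕ) : ℝ)) fun r v _ hv => ?_).trans ?_
      · refine le_trans ?_ hWle
        have : v ≤ W := by omega
        exact_mod_cast this
      · refine hMn2.trans ?_
        gcongr
        exact hB n
    calc tot G' (n + 2) ≤ wt G' (n + 2) (fun _ v => W < v) + wt G' (n + 2) (fun _ v => ¬ W < v) := h1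
      _ ≤ (ENNReal.ofReal (1 + ε) * tot G' n + ((n + 1 : ℕ) : ℝ≥0∞) * wt G n (fun r v => W ≤ v ∧ HiD q ε r v)) +
          ENNReal.ofReal ε * (ENNReal.ofReal B * tot G n) := by
          gcongr
          exact h2.trans (by gcongr)
      _ ≤ (ENNReal.ofReal (1 + ε) * tot G' n + ENNReal.ofReal ε * tot G n) +
          ENNReal.ofReal ε * (ENNReal.ofReal B * tot G n) :=
          add_le_add (add_le_add le_rfl hVn.1) le_rfl
      _ = tot G' n + (ENNReal.ofReal ε * tot G' n + ENNReal.ofReal ε * tot G n +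
          ENNReal.ofReal ε * (ENNReal.ofReal B * tot G n)) := by
          rw [ENNReal.ofReal_add (by norm_num) hε.le, ENNReal.ofReal_one]
          ring
      _ ≤ tot G' n + (ENNReal.ofReal ε * tot G n + ENNReal.ofReal ε * tot G n +
          ENNReal.ofReal ε * (ENNReal.ofReal B * tot G n)) := by
          gcongr
          exact htle n
      _ = tot G' n + ENNReal.ofReal (ε * (B + 2)) * tot G n := by
          rw [ENNReal.ofReal_mul hε.le, ENNReal.ofReal_add (by linarith) (by norm_num)]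
          rw [show ENNReal.ofReal 2 = 1 + 1 by rw [← ENNReal.ofReal_one, ← ENNReal.ofReal_add (by norm_num) (by norm_num)]; norm_num]
          ring
      _ ≤ tot G' n + ENNReal.ofReal e * tot G n := by
          gcongr
          nlinarith
  · have h1 := tot_le_wt (G := G') n (fun r v => W ≤ v ∧ LoD q ε r v)
    have h2 := hG'.prev_le hq0 (ε := ε) (by linarith) n
    have h3 : wt G' n (fun r v => ¬ (W ≤ v ∧ LoD q ε r v)) ≤ wt G' n (fun _ v => (v : ℝ) ≤ V * Real.log n) +
        wt G' n (fun r v => ¬ LoD q ε r v) := by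
      refine (wt_mono fun r v _ h => ?_).trans (wt_or n _ _)
      by_cases hL : LoD q ε r v
      · left
        have h5 : v < W := by
          by_contra hc
          exact h ⟨by omega, hL⟩
        have h6 : v ≤ ⌊(V : ℝ) * Real.log n⌋₊ := by omega
        exact (Nat.le_floor_iff (by positivity)).1 h6
      · exact Or.inr hL
    have h4 : wt G' n (fun r v => ¬ LoD q ε r v) ≤ tot G' (n + 2) + ENNReal.ofReal (2 * ε * B) * tot G n := by
      have h5 : wt G' n (fun r v => ¬ LoD q ε r v) ≤ ENNReal.ofReal (1 + 2 * ε) * tot G' (n + 2) := by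
        have h6 : wt G' n (fun r v => ¬ LoD q ε r v) ≤
            ENNReal.ofReal (1 + 2 * ε) * (ENNReal.ofReal (1 - ε) * wt G' n (fun r v => ¬ LoD q ε r v)) := by
          rw [← mul_assoc, ← ENNReal.ofReal_mul (by linarith)]
          refine le_mul_of_one_le_left' ?_
          rw [← ENNReal.ofReal_one]
          apply ENNReal.ofReal_le_ofReal
          nlinarith
        refine h6.trans ?_
        gcongr
      refine h5.trans ?_
      rw [ENNReal.ofReal_add (by norm_num) (by linarith), ENNReal.ofReal_one, add_mul, one_mul]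
      refine add_le_add le_rfl ?_
      rw [ENNReal.ofReal_mul (p := 2 * ε) (by linarith), mul_assoc]
      exact mul_le_mul' le_rfl ((htle _).trans (hB n))
    calc tot G' n ≤ wt G' n (fun r v => W ≤ v ∧ LoD q ε r v) + wt G' n (fun r v => ¬ (W ≤ v ∧ LoD q ε r v)) := h1
      _ ≤ ENNReal.ofReal ε * tot G n + (ENNReal.ofReal ε * tot G n +
          (tot G' (n + 2) + ENNReal.ofReal (2 * ε * B) * tot G n)) := by
          gcongr
          · exact (wt_le (hle n) _).trans hVn.2
          · refine h3.trans ?_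
            gcongr
            exact (wt_le (hle n) _).trans hMn
      _ = tot G' (n + 2) + ENNReal.ofReal (ε * (2 * B + 2)) * tot G n := by
          have e1 : ε * (2 * B + 2) = ε + ε + 2 * ε * B := by ring
          rw [e1, ENNReal.ofReal_add (by linarith) (by positivity), ENNReal.ofReal_add hε.le hε.le]
          ring
      _ ≤ tot G' (n + 2) + ENNReal.ofReal e * tot G n := by
          gcongr
          nlinarith

end HexObs.TOG
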