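import Pool.Agent.TOG.Mass

/-!
TOG: frames of continuations, colours of the faces, the long piece, many long pieces of the right colour.
-/

set_option autoImplicit false

namespace HexObs

namespace TOG

open Finset TS SDN

open scoped ENNReal

/-- a continuation in its own frame -/
lemma cat_frame (A : List Bool) : ∃ c : Pt, c ∈ dirs ∧ dx up A A.length = mulE c up ∧ ∀ s : List Bool,
    (∀ i, vx oo up (A ++ s) (A.length + i) = vx oo up A A.length + mulE c (vx oo up s i)) ∧
    ∀ i, dx up (A ++ s) (A.length + i) = mulE c (dx up s i) := by
  obtain ⟨h1, h2⟩ := frame_dir (dx_mem up_dirs A A.length)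
  refine ⟨_, h1, h2, fun s => ⟨fun i => ?_, fun i => ?_⟩⟩
  · have h3 := vx_dropN oo up (A ++ s) A.length i
    rw [List.drop_left, vx_append (by omega), dx_append le_rfl, h2, vx_frameN] at h3
    exact h3.symm
  · have h3 : dx up (A ++ s) (A.length + i) = dx (dx up (A ++ s) A.length) s i := by
      unfold dx
      rw [ds_shift]
      apply ds_congr
      intro k _
      exact tf_append_right k
    rw [h3, dx_append le_rfl, h2, dx_mulE, ← h2]

/-- centres in the frame of a beginning -/
lemma ctr_frame {A : List Bool} {c : Pt}
    (h : ∀ s : List Bool, (∀ i, vx oo up (A ++ s) (A.length + i) = vx oo up A A.length + mulE c (vx oo up s i)) ∧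
      ∀ i, dx up (A ++ s) (A.length + i) = mulE c (dx up s i)) (s : List Bool) :
    ctr (A ++ s) = vx oo up A A.length + mulE c (ctr s) := by
  unfold ctr tip
  have e1 : (A ++ s).length + 1 = A.length + (s.length + 1) := by rw [List.length_append]; omega
  have e2 : (A ++ s).length = A.length + s.length := List.length_append
  rw [e1, e2, (h s).1, (h s).2, mulE_add]
  abel

/-- the right colour: the face of the long piece placed behind A has the colour of the allowed faces -/
def RC (A : List Bool) : Prop := (3 : ℤ) ∣ (ctr (A ++ [false])).1

/-- one of the two shortest pieces leads to the right colour -/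
lemma rc_or (A : List Bool) : RC A ∨ RC (A ++ [false, true]) ∨ RC (A ++ [true, false]) := by
  obtain ⟨c, hc, -, h⟩ := cat_frame A
  unfold RC
  rw [List.append_assoc, List.append_assoc, ctr_frame h, ctr_frame h, ctr_frame h]
  have e1 : ctr [false] = (2, 1) := by decide
  have e2 : ctr ([false, true] ++ [false]) = (3, 2) := by decide
  have e3 : ctr ([true, false] ++ [false]) = (1, 3) := by decide
  rw [e1, e2, e3]
  simp only [dirs, mem_insert, mem_singleton] at hc
  rcases hc with rfl | rfl | rfl | rfl | rfl | rfl <;>
    simp only [mulE, Prod.fst_add] <;> omega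

end TOG

end HexObs
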