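import Pool.Agent.TOG.Place

/-!
TOG: the number of the long places is at least the number of the pieces ks of the right colour minus the number of the
blocked cuts (seen from the past and from the future) minus a constant.
-/

set_option autoImplicit false

namespace HexObs

namespace TOG

open Finset TS SDN

open scoped ENNReal

lemma flat_le (l : List (List Bool)) {a b : ℕ} (h : a ≤ b) :
    (l.take a).flatten.length ≤ (l.take b).flatten.length := by
  have h1 : (l.take b).take a = l.take a := by rw [List.take_take, min_eq_left h]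
  have h2 : (l.take b).flatten = (l.take a).flatten ++ ((l.take b).drop a).flatten := by
    rw [← h1, ← List.flatten_append, List.take_append_drop]
  rw [h2, List.length_append]
  omega

lemma take_succ_flat {l : List (List Bool)} {k : ℕ} {g : List Bool} (h : l[k]? = some g) :
    (l.take (k + 1)).flatten = (l.take k).flatten ++ g := by
  rw [List.take_add_one, h]
  simp

lemma flat_lt {V : ℕ} {l : List (List Bool)} (hl : l ∈ LV V) {a b : ℕ} (h : a < b) (hb : b ≤ V) :
    (l.take a).flatten.length < (l.take b).flatten.length := by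
  have ha : a < l.length := by rw [hl.1]; omega
  have h1 : l[a]? = some l[a] := List.getElem?_eq_getElem ha
  have h2 := take_succ_flat h1
  have h3 : l[a] ∈ IU := hl.2 _ (List.getElem_mem ha)
  have h4 : 0 < l[a].length := by
    obtain ⟨r, hr⟩ := h3
    exact List.length_pos_iff.2 hr.2.1
  have h5 := flat_le l (show a + 1 ≤ b from h)
  rw [h2, List.length_append] at h5
  omega

lemma split_at {l : List (List Bool)} {k : ℕ} {g : List Bool} (h : l[k]? = some g) :
    l.flatten = (l.take k).flatten ++ (g ++ (l.drop (k + 1)).flatten) := by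
  have h1 := take_succ_flat h
  conv_lhs => rw [← List.take_append_drop (k + 1) l, List.flatten_append, h1]
  simp

/-- the reversed list of pieces -/
def rvl (l : List (List Bool)) : List (List Bool) := (l.map rev).reverse

lemma rev_append' (a b : List Bool) : rev (a ++ b) = rev b ++ rev a := by
  simp [rev]

lemma rvl_flatten (l : List (List Bool)) : (rvl l).flatten = rev l.flatten := by
  induction l with
  | nil => rfl
  | cons g l ih =>
    rw [List.flatten_cons, rev_append', ← ih]
    simp [rvl]

lemma rvl_LV {V : ℕ} {l : List (List Bool)} (hl : l ∈ LV V) : rvl l ∈ LV V := by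
  refine ⟨by simp [rvl, hl.1], ?_⟩
  intro g hg
  simp only [rvl, List.mem_reverse, List.mem_map] at hg
  obtain ⟨a, ha, rfl⟩ := hg
  obtain ⟨r, hr⟩ := hl.2 a ha
  exact ⟨r, Irr_rev hr⟩

lemma rvl_take {V : ℕ} {l : List (List Bool)} (hl : l ∈ LV V) {k : ℕ} (hk : k < V) :
    (rvl l).take (V - 1 - k) = rvl (l.drop (k + 1)) := by
  unfold rvl
  rw [List.take_reverse, List.length_map, hl.1, ← List.map_drop]
  congr 3
  omega

lemma box_of_nrm {c d : Pt} {R0 : ℕ} (h : nrm c ≤ (R0 : ℤ) ^ 2) (hd : d ∈ dirs) :
    c - d ∈ Icc (-(2 * (R0 : ℤ) + 2)) (2 * R0 + 2) ×ˢ Icc (-(2 * (R0 : ℤ) + 2)) (2 * R0 + 2) := by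
  obtain ⟨h1, h2⟩ := abs_le_of_nrm (by positivity) h
  have h3 : |c.1| ≤ 2 * R0 := by
    apply abs_le_of_sq_le_sq _ (by positivity)
    nlinarith
  have h4 : |c.2| ≤ 2 * R0 := by
    apply abs_le_of_sq_le_sq _ (by positivity)
    nlinarith
  rw [abs_le] at h3 h4
  simp only [mem_product, mem_Icc, Prod.fst_sub, Prod.snd_sub]
  simp only [dirs, mem_insert, mem_singleton] at hd
  rcases hd with rfl | rfl | rfl | rfl | rfl | rfl <;> simp only <;> refine ⟨⟨?_, ?_⟩, ?_, ?_⟩ <;> omega

open Classical in
/-- **number of the long places** -/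
theorem cnt_vL {R0 V : ℕ} {X Y : List Bool} {l : List (List Bool)} (hl : l ∈ LV V)
    (ht : X ++ (l.flatten ++ Y) ∈ SA) (hY : Y ≠ []) :
    ncl X l ≤ vL R0 (X ++ (l.flatten ++ Y)) + nbk p1 X l + nbk p2 (rev Y.dropLast) (rvl l) + (4 * R0 + 5) ^ 2 := by
  set t := X ++ (l.flatten ++ Y) with htd
  have hV : l.length = V := hl.1
  set G := (range V).filter (fun k => l[k]? = some ks ∧ RC (X ++ (l.take k).flatten)) with hG
  set B1 := (range V).filter (fun k => ¬ X ++ ((l.take k).flatten ++ p1) ∈ SA) with hB1
  set B2 := (range V).filter (fun k => ¬ rev Y.dropLast ++ (((rvl l).take (V - 1 - k)).flatten ++ p2) ∈ SA) with hB2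
  have cG : G.card = ncl X l := by
    rw [hG, card_filter]
    unfold ncl
    rw [hV]
  have cB1 : B1.card = nbk p1 X l := by
    rw [hB1, card_filter]
    unfold nbk
    rw [hV]
    refine sum_congr rfl fun k _ => ?_
    by_cases h : X ++ ((l.take k).flatten ++ p1) ∈ SA
    · rw [if_pos h, if_neg (not_not.2 h)]
    · rw [if_neg h, if_pos h]
  have cB2 : B2.card = nbk p2 (rev Y.dropLast) (rvl l) := by
    rw [hB2, card_filter]
    unfold nbk
    rw [(rvl_LV hl).1]
    rw [← sum_range_reflect (fun k => if rev Y.dropLast ++ (((rvl l).take k).flatten ++ p2) ∈ SA then 0 else 1) V]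
    refine sum_congr rfl fun k _ => ?_
    by_cases h : rev Y.dropLast ++ (((rvl l).take (V - 1 - k)).flatten ++ p2) ∈ SA
    · rw [if_pos h, if_neg (not_not.2 h)]
    · rw [if_neg h, if_pos h]
  -- the shape of t at k
  have shp : ∀ k, l[k]? = some ks → t = (X ++ (l.take k).flatten) ++ (ks ++ ((l.drop (k + 1)).flatten ++ Y)) := by
    intro k hk
    rw [htd, split_at hk]
    simp [List.append_assoc]
  have tk : ∀ k, l[k]? = some ks → t.take (X.length + (l.take k).flatten.length + 1) =
      (X ++ (l.take k).flatten) ++ [false] := by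
    intro k hk
    rw [shp k hk]
    have e : (X ++ (l.take k).flatten) ++ (ks ++ ((l.drop (k + 1)).flatten ++ Y)) =
        ((X ++ (l.take k).flatten) ++ [false]) ++ (ks.tail ++ ((l.drop (k + 1)).flatten ++ Y)) := by
      simp [ks]
    rw [e]
    apply List.take_left'
    simp
    omega
  set Nr := G.filter (fun k => nrm (ctr (X ++ (l.take k).flatten ++ [false])) ≤ (R0 : ℤ) ^ 2) with hNr
  have len : ∀ k, l[k]? = some ks → X.length + (l.take k).flatten.length + 10 ≤ t.length := by
    intro k hk
    rw [shp k hk]
    simp [ks]
    omega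
  have cN : Nr.card ≤ (4 * R0 + 5) ^ 2 := by
    have hbox : (Icc (-(2 * (R0 : ℤ) + 2)) (2 * R0 + 2) ×ˢ Icc (-(2 * (R0 : ℤ) + 2)) (2 * R0 + 2)).card =
        (4 * R0 + 5) ^ 2 := by
      rw [card_product, Int.card_Icc, sq]
      congr 1 <;> omega
    rw [← hbox]
    apply card_le_card_of_injOn (fun k => vx oo up t (X.length + (l.take k).flatten.length + 2))
    · intro k hk
      rw [mem_coe, hNr, mem_filter, hG, mem_filter] at hk
      obtain ⟨⟨hk0, hk1, -⟩, hk2⟩ := hk
      have h1 : tip oo up (X ++ (l.take k).flatten ++ [false]) =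
          vx oo up t (X.length + (l.take k).flatten.length + 2) := by
        unfold tip
        rw [← tk k hk1]
        have h2 : (t.take (X.length + (l.take k).flatten.length + 1)).length =
            X.length + (l.take k).flatten.length + 1 := by
          rw [List.length_take]
          have := len k hk1
          omega
        rw [h2]
        have h3 := vx_append (v0 := oo) (d0 := up) (t := t.take (X.length + (l.take k).flatten.length + 1))
          (s := t.drop (X.length + (l.take k).flatten.length + 1))
          (i := X.length + (l.take k).flatten.length + 1 + 1) (by omega)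
        rw [List.take_append_drop] at h3
        exact h3.symm
      show vx oo up t (X.length + (l.take k).flatten.length + 2) ∈ _
      rw [← h1]
      have h4 : tip oo up (X ++ (l.take k).flatten ++ [false]) = ctr (X ++ (l.take k).flatten ++ [false]) -
          dx up (X ++ (l.take k).flatten ++ [false]) (X ++ (l.take k).flatten ++ [false]).length := by
        unfold ctr
        abel
      rw [h4]
      exact box_of_nrm hk2 (dx_mem up_dirs _ _)
    · intro a ha b hb hab
      rw [mem_coe, hNr, mem_filter, hG, mem_filter] at ha hb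
      have la := len a ha.1.2.1
      have lb := len b hb.1.2.1
      have ra := mem_range.1 ha.1.1
      have rb := mem_range.1 hb.1.1
      rcases lt_trichotomy a b with h | h | h
      · have h1 := flat_lt hl h rb.le
        exact absurd hab (ht.inj _ _ (by omega) (by omega))
      · exact h
      · have h1 := flat_lt hl h ra.le
        exact absurd hab.symm (ht.inj _ _ (by omega) (by omega))
  -- the other ones are long places
  have cL : (((G \ B1) \ B2) \ Nr).card ≤ vL R0 t := by
    unfold vL
    apply card_le_card_of_injOn (fun k => X.length + (l.take k).flatten.length + 1)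
    · intro k hk
      rw [mem_coe, mem_sdiff, mem_sdiff, mem_sdiff] at hk
      obtain ⟨⟨⟨hk1, hk2⟩, hk3⟩, hk4⟩ := hk
      have hG1 := hk1
      rw [hG, mem_filter, mem_range] at hk1
      obtain ⟨hkV, hks, hrc⟩ := hk1
      rw [hB1, mem_filter] at hk2
      rw [hB2, mem_filter] at hk3
      rw [hNr, mem_filter] at hk4
      have u1 : X ++ ((l.take k).flatten ++ p1) ∈ SA := by
        by_contra h
        exact hk2 ⟨mem_range.2 hkV, h⟩
      have u2 : rev Y.dropLast ++ (((rvl l).take (V - 1 - k)).flatten ++ p2) ∈ SA := by
        by_contra h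
        exact hk3 ⟨mem_range.2 hkV, h⟩
      have u3 : (R0 : ℤ) ^ 2 < nrm (ctr (X ++ (l.take k).flatten ++ [false])) := by
        by_contra h
        exact hk4 ⟨hG1, not_lt.1 h⟩
      have v2 : rev ((l.drop (k + 1)).flatten ++ Y).dropLast ++ p2 ∈ SA := by
        rw [rvl_take hl hkV, rvl_flatten] at u2
        rw [List.dropLast_append_of_ne_nil hY, rev_append', List.append_assoc]
        exact u2
      have hsh := shp k hks
      have key := place_ok (P := X ++ (l.take k).flatten) (Q := (l.drop (k + 1)).flatten ++ Y) (by rw [← hsh]; exact ht)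
        (by rw [List.append_assoc]; exact u1) (Or.inr v2)
      show X.length + (l.take k).flatten.length + 1 ∈ (range (t.length + 1)).filter (PlL R0 t)
      rw [mem_filter, mem_range]
      have hlen := len k hks
      refine ⟨by omega, ?_, [true, true, false, true] ++ ((l.drop (k + 1)).flatten ++ Y), ?_, ?_⟩
      · rw [tk k hks]
        exact ⟨hrc, u3⟩
      · rw [tk k hks, ← key.2]
        exact hsh
      · rw [tk k hks]
        exact key.1
    · intro a ha b hb hab
      rw [mem_coe, mem_sdiff, mem_sdiff, mem_sdiff, hG, mem_filter, mem_range] at ha hb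
      have ra := ha.1.1.1.1
      have rb := hb.1.1.1.1
      have hab' : X.length + (l.take a).flatten.length + 1 = X.length + (l.take b).flatten.length + 1 := hab
      rcases lt_trichotomy a b with h | h | h
      · have h1 := flat_lt hl h rb.le
        omega
      · exact h
      · have h1 := flat_lt hl h ra.le
        omega
  have c1 := card_le_card_sdiff_add_card (s := G) (t := B1)
  have c2 := card_le_card_sdiff_add_card (s := G \ B1) (t := B2)
  have c3 := card_le_card_sdiff_add_card (s := (G \ B1) \ B2) (t := Nr)
  omega

end TOG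

end HexObs
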