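import Pool.Agent.TOG.Defs

/-!
TOG: the list of the (vertex, direction, letter) of a word, the two states of a face.
-/

set_option autoImplicit false

namespace HexObs

namespace TOG

open Finset TS SDN

/-- the list of (vertex, direction of the step to it, turn at it) of the word t started at v in the direction d -/
def ev (v d : Pt) : List Bool → List (Pt × Pt × Bool)
  | [] => []
  | b :: t => (v + d, d, b) :: ev (v + d) (turn b d) t

/-- last vertex -/
def fv (v d : Pt) : List Bool → Pt
  | [] => v
  | b :: t => fv (v + d) (turn b d) t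

/-- last direction -/
def fd (d : Pt) : List Bool → Pt
  | [] => d
  | b :: t => fd (turn b d) t

lemma fd_append (d : Pt) (X Y : List Bool) : fd d (X ++ Y) = fd (fd d X) Y := by
  induction X generalizing d with
  | nil => rfl
  | cons b X ih => exact ih (turn b d)

lemma fv_append (v d : Pt) (X Y : List Bool) : fv v d (X ++ Y) = fv (fv v d X) (fd d X) Y := by
  induction X generalizing v d with
  | nil => rfl
  | cons b X ih => exact ih (v + d) (turn b d)

lemma ev_append (v d : Pt) (X Y : List Bool) : ev v d (X ++ Y) = ev v d X ++ ev (fv v d X) (fd d X) Y := by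
  induction X generalizing v d with
  | nil => rfl
  | cons b X ih =>
    rw [List.cons_append, ev, ev, ih (v + d) (turn b d)]
    rfl

lemma ds_cons (d : Pt) (τ : ℕ → Bool) (i : ℕ) : ds d τ (i + 1) = ds (turn (τ 0) d) (fun k => τ (k + 1)) i := by
  rw [add_comm i 1, ds_shift]
  congr 1
  funext k
  rw [add_comm]

lemma vs_cons (v d : Pt) (τ : ℕ → Bool) (i : ℕ) :
    vs v d τ (i + 1) = vs (v + d) (turn (τ 0) d) (fun k => τ (k + 1)) i := by
  rw [add_comm i 1, vs_shift]
  congr 1
  funext k
  rw [add_comm]

lemma vx_cons (v d : Pt) (b : Bool) (t : List Bool) (i : ℕ) : vx v d (b :: t) (i + 1) = vx (v + d) (turn b d) t i := by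
  unfold vx
  rw [vs_cons]
  rfl

lemma dx_cons (d : Pt) (b : Bool) (t : List Bool) (i : ℕ) : dx d (b :: t) (i + 1) = dx (turn b d) t i := by
  unfold dx
  rw [ds_cons]
  rfl

lemma fv_eq (v d : Pt) (t : List Bool) : fv v d t = vx v d t t.length := by
  induction t generalizing v d with
  | nil => rfl
  | cons b t ih =>
    rw [List.length_cons, vx_cons]
    exact ih _ _

lemma fd_eq (d : Pt) (t : List Bool) : fd d t = dx d t t.length := by
  induction t generalizing d with
  | nil => rfl
  | cons b t ih =>
    rw [List.length_cons, dx_cons]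
    exact ih _

/-- the list of the vertices -/
def vl (v d : Pt) (t : List Bool) : List Pt := v :: (ev v d t).map Prod.fst

lemma vl_eq (v d : Pt) (t : List Bool) : vl v d t = (List.range (t.length + 1)).map (vx v d t) := by
  induction t generalizing v d with
  | nil => rfl
  | cons b t ih =>
    rw [List.range_succ_eq_map, List.map_cons, List.map_map]
    have h := ih (v + d) (turn b d)
    have e : (vx v d (b :: t)) ∘ Nat.succ = vx (v + d) (turn b d) t := by
      funext i
      exact vx_cons v d b t i
    rw [e, List.length_cons, ← h]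
    rfl

lemma mem_SA {t : List Bool} : t ∈ SA ↔ (vl oo up t).Nodup := by
  rw [vl_eq, List.nodup_map_iff_inj_on List.nodup_range]
  constructor
  · intro h i hi k hk e
    rw [List.mem_range] at hi hk
    rcases lt_trichotomy i k with h1 | h1 | h1
    · exact absurd e (h.inj i k h1 (by omega))
    · exact h1
    · exact absurd e.symm (h.inj k i h1 (by omega))
  · intro h
    refine ⟨fun _ _ _ => trivial, fun i k h1 h2 e => ?_⟩
    have := h i (List.mem_range.2 (by omega)) k (List.mem_range.2 (by omega)) e
    omega

lemma vx_fv (v d : Pt) (X Y : List Bool) : fv v d X = vx v d (X ++ Y) X.length := by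
  rw [fv_eq, vx_append (by omega)]

lemma ctr_eq (X : List Bool) : ctr X = fv oo up X + fd up X + fd up X := by
  unfold ctr tip
  rw [fv_eq, fd_eq]
  rfl

/-- every entry of the list comes from a factorization of the word -/
lemma ev_split {v d : Pt} {t : List Bool} {p e : Pt} {b : Bool} (h : (p, e, b) ∈ ev v d t) :
    ∃ X Y, t = X ++ b :: Y ∧ fv v d X + fd d X = p ∧ fd d X = e := by
  induction t generalizing v d with
  | nil => exact absurd h (by simp [ev])
  | cons c t ih =>
    rw [ev, List.mem_cons] at h
    rcases h with h | h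
    · obtain ⟨rfl, rfl, rfl⟩ : p = v + d ∧ e = d ∧ b = c := by simpa using h
      exact ⟨[], t, rfl, rfl, rfl⟩
    · obtain ⟨X, Y, h1, h2, h3⟩ := ih h
      exact ⟨c :: X, Y, by rw [h1]; rfl, h2, h3⟩

lemma fd_mem {d : Pt} (h : d ∈ dirs) (t : List Bool) : fd d t ∈ dirs := by
  rw [fd_eq]
  exact ds_mem h _

lemma up_mem : up ∈ dirs := by decide

lemma cl_ctr (X : List Bool) : cl (ctr X) = 1 := by
  rw [ctr_eq, cl_add, cl_add, fv_eq, fd_eq]
  unfold vx dx
  rw [cl_vs, cl_ds]
  by_cases h : Even X.length
  · rw [if_pos h, if_pos h]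
    decide
  · rw [if_neg h, if_neg h]
    decide

/-! ### the geometry of a face -/

lemma rLR (d : Pt) : rotL (rotR d) = d := by
  refine Prod.ext ?_ ?_ <;> simp [rotL, rotR]

lemma rRL (d : Pt) : rotR (rotL d) = d := by
  refine Prod.ext ?_ ?_ <;> simp [rotL, rotR]

lemma rRR (d : Pt) : rotR (rotR d) = - rotL d := by
  refine Prod.ext ?_ ?_ <;> simp [rotL, rotR]

lemma rLR_add (d : Pt) : rotL d + rotR d = d := by
  refine Prod.ext ?_ ?_ <;> simp [rotL, rotR]

/-- the walk with the letters R L R -/
lemma ev_pS (v d : Pt) (Y : List Bool) : ev v d (pS ++ Y) =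
    [(v + d, d, false), (v + d + rotR d, rotR d, true), (v + d + rotR d + d, d, false)] ++
      ev (v + d + rotR d + d) (rotR d) Y := by
  simp only [pS, List.cons_append, List.nil_append, ev, turn, Bool.false_eq_true, if_false, if_true, rLR]

/-- the walk with the letters L R R R L -/
lemma ev_pL (v d : Pt) (Y : List Bool) : ev v d (pL ++ Y) =
    [(v + d, d, true), (v + d + rotL d, rotL d, false), (v + d + rotL d + d, d, false),
      (v + d + rotR d + d + rotL d, rotR d, false), (v + d + rotR d + d, - rotL d, true)] ++
      ev (v + d + rotR d + d) (rotR d) Y := by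
  have e1 : v + d + rotL d + d + rotR d = v + d + rotR d + d + rotL d := by abel
  have e2 : v + d + rotR d + d + rotL d + - rotL d = v + d + rotR d + d := by abel
  have e3 : rotL (- rotL d) = rotR d := by
    rw [← rRR, rLR]
  simp only [pL, List.cons_append, List.nil_append, ev, turn, Bool.false_eq_true, if_false, if_true, rRL, rRR, e1, e2, e3]

/-- short state of the face c, entered in the direction d -/
def Sh (t : List Bool) (c d : Pt) : Prop :=
  (c - d, d, false) ∈ ev oo up t ∧ (c - rotL d, rotR d, true) ∈ ev oo up t ∧ (c + rotR d, d, false) ∈ ev oo up t ∧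
    c + d ∉ vl oo up t ∧ c + rotL d ∉ vl oo up t ∧ c - rotR d ∉ vl oo up t

/-- long state of the face c, entered in the direction d -/
def Lo (t : List Bool) (c d : Pt) : Prop :=
  (c - d, d, true) ∈ ev oo up t ∧ (c - rotR d, rotL d, false) ∈ ev oo up t ∧ (c + rotL d, d, false) ∈ ev oo up t ∧
    (c + d, rotR d, false) ∈ ev oo up t ∧ (c + rotR d, - rotL d, true) ∈ ev oo up t ∧ c - rotL d ∉ vl oo up t

end TOG

end HexObs
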