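import Pool.Agent.TOG.State

/-!
TOG: places = faces; a toggle changes the state of its own face only.
-/

set_option autoImplicit false

namespace HexObs

namespace TOG

open Finset TS SDN

lemma vl_of_ev {v d : Pt} {t : List Bool} {p e : Pt} {b : Bool} (h : (p, e, b) ∈ ev v d t) : p ∈ vl v d t := by
  unfold vl
  rw [List.mem_cons, List.mem_map]
  exact Or.inr ⟨_, h, rfl⟩

lemma dirs_neg {d : Pt} (h : d ∈ dirs) : - d ∈ dirs := by
  revert d
  decide

lemma dirs_rotL {d : Pt} (h : d ∈ dirs) : rotL d ∈ dirs := by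
  revert d
  decide

lemma dirs_rotR {d : Pt} (h : d ∈ dirs) : rotR d ∈ dirs := by
  revert d
  decide

/-- the vertices of the face c -/
def Hx (c p : Pt) : Prop := ∃ e ∈ dirs, p = c + e

lemma Hx_add {d : Pt} (h : d ∈ dirs) (c : Pt) : Hx c (c + d) := ⟨d, h, rfl⟩

lemma Hx_sub {d : Pt} (h : d ∈ dirs) (c : Pt) : Hx c (c - d) := ⟨- d, dirs_neg h, sub_eq_add_neg c d⟩

lemma dirs_le {d : Pt} (h : d ∈ dirs) : -1 ≤ d.1 ∧ d.1 ≤ 1 ∧ -1 ≤ d.2 ∧ d.2 ≤ 1 := by
  revert d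
  decide

/-- faces of the same colour have no common vertex -/
lemma Hx_disj {c f p : Pt} (hc : (3 : ℤ) ∣ c.1) (hc' : cl c = 1) (hf : (3 : ℤ) ∣ f.1) (hf' : cl f = 1) (hne : c ≠ f)
    (h : Hx c p) : ¬ Hx f p := by
  rintro ⟨e', he', h2⟩
  obtain ⟨e, he, h1⟩ := h
  have h3 : c + e = f + e' := h1.symm.trans h2
  have h4 : c.1 + e.1 = f.1 + e'.1 := congrArg Prod.fst h3
  have h5 : c.2 + e.2 = f.2 + e'.2 := congrArg Prod.snd h3
  have h6 : cl c = cl f := hc'.trans hf'.symm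
  unfold cl at h6
  rw [ZMod.intCast_eq_intCast_iff_dvd_sub] at h6
  have a1 := dirs_le he
  have a2 := dirs_le he'
  apply hne
  push_cast at h6
  refine Prod.ext ?_ ?_ <;> omega

/-! ### uniqueness of the direction -/

lemma Sh_uniq {t : List Bool} {c d d' : Pt} (hd : d ∈ dirs) (hd' : d' ∈ dirs) (h : Sh t c d) (h' : Sh t c d') :
    d = d' := by
  obtain ⟨h0, h1, h2, -, -, -⟩ := h
  obtain ⟨-, -, -, h3, h4, h5⟩ := h'
  have key : ∀ a ∈ dirs, ∀ b ∈ dirs, (- a ≠ b ∧ - a ≠ rotL b ∧ - a ≠ - rotR b) → (- rotL a ≠ b ∧ - rotL a ≠ rotL b ∧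
      - rotL a ≠ - rotR b) → (rotR a ≠ b ∧ rotR a ≠ rotL b ∧ rotR a ≠ - rotR b) → a = b := by decide
  have h0' := vl_of_ev h0
  have h1' := vl_of_ev h1
  have h2' := vl_of_ev h2
  rw [sub_eq_add_neg] at h0' h1' h5
  refine key d hd d' hd' ⟨?_, ?_, ?_⟩ ⟨?_, ?_, ?_⟩ ⟨?_, ?_, ?_⟩
  · exact fun e => h3 (e ▸ h0')
  · exact fun e => h4 (e ▸ h0')
  · exact fun e => h5 (e ▸ h0')
  · exact fun e => h3 (e ▸ h1')
  · exact fun e => h4 (e ▸ h1')
  · exact fun e => h5 (e ▸ h1')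
  · exact fun e => h3 (e ▸ h2')
  · exact fun e => h4 (e ▸ h2')
  · exact fun e => h5 (e ▸ h2')

lemma Lo_uniq {t : List Bool} {c d d' : Pt} (hd : d ∈ dirs) (hd' : d' ∈ dirs) (h : Lo t c d) (h' : Lo t c d') :
    d = d' := by
  obtain ⟨h0, h1, h2, h3, h4, -⟩ := h
  obtain ⟨-, -, -, -, -, h5⟩ := h'
  have key : ∀ a ∈ dirs, ∀ b ∈ dirs, (- a ≠ - rotL b ∧ - rotR a ≠ - rotL b ∧ rotL a ≠ - rotL b ∧ a ≠ - rotL b ∧
      rotR a ≠ - rotL b) → a = b := by decide
  have h0' := vl_of_ev h0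
  have h1' := vl_of_ev h1
  have h2' := vl_of_ev h2
  have h3' := vl_of_ev h3
  have h4' := vl_of_ev h4
  rw [sub_eq_add_neg] at h0' h1' h5
  refine key d hd d' hd' ⟨?_, ?_, ?_, ?_, ?_⟩
  · exact fun e => h5 (e ▸ h0')
  · exact fun e => h5 (e ▸ h1')
  · exact fun e => h5 (e ▸ h2')
  · exact fun e => h5 (e ▸ h3')
  · exact fun e => h5 (e ▸ h4')

lemma Sh_Lo {t : List Bool} {c d d' : Pt} (hd : d ∈ dirs) (hd' : d' ∈ dirs) (h : Sh t c d) (h' : Lo t c d') : False := by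
  obtain ⟨-, -, -, h3, h4, -⟩ := h
  obtain ⟨k0, k1, k2, k3, k4, -⟩ := h'
  have key : ∀ a ∈ dirs, ∀ b ∈ dirs, ¬ ((a ≠ - b ∧ a ≠ - rotR b ∧ a ≠ rotL b ∧ a ≠ b ∧ a ≠ rotR b) ∧
      (rotL a ≠ - b ∧ rotL a ≠ - rotR b ∧ rotL a ≠ rotL b ∧ rotL a ≠ b ∧ rotL a ≠ rotR b)) := by decide
  have k0' := vl_of_ev k0
  have k1' := vl_of_ev k1
  have k2' := vl_of_ev k2
  have k3' := vl_of_ev k3
  have k4' := vl_of_ev k4
  rw [sub_eq_add_neg] at k0' k1'
  refine key d hd d' hd' ⟨⟨?_, ?_, ?_, ?_, ?_⟩, ?_, ?_, ?_, ?_, ?_⟩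
  · exact fun e => h3 (e ▸ k0')
  · exact fun e => h3 (e ▸ k1')
  · exact fun e => h3 (e ▸ k2')
  · exact fun e => h3 (e ▸ k3')
  · exact fun e => h3 (e ▸ k4')
  · exact fun e => h4 (e ▸ k0')
  · exact fun e => h4 (e ▸ k1')
  · exact fun e => h4 (e ▸ k2')
  · exact fun e => h4 (e ▸ k3')
  · exact fun e => h4 (e ▸ k4')

/-! ### the states of the other faces -/

lemma ev_trans {X Y : List Bool} {p e : Pt} {b : Bool} (h : ¬ Hx (ctr X) p) :
    (p, e, b) ∈ ev oo up (X ++ (pS ++ Y)) ↔ (p, e, b) ∈ ev oo up (X ++ (pL ++ Y)) := by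
  have hd := fd_mem up_mem X
  have n1 : p ≠ ctr X - fd up X := fun e => h (e ▸ Hx_sub hd _)
  have n2 : p ≠ ctr X - rotL (fd up X) := fun e => h (e ▸ Hx_sub (dirs_rotL hd) _)
  have n3 : p ≠ ctr X - rotR (fd up X) := fun e => h (e ▸ Hx_sub (dirs_rotR hd) _)
  have n4 : p ≠ ctr X + fd up X := fun e => h (e ▸ Hx_add hd _)
  have n5 : p ≠ ctr X + rotL (fd up X) := fun e => h (e ▸ Hx_add (dirs_rotL hd) _)
  have n6 : p ≠ ctr X + rotR (fd up X) := fun e => h (e ▸ Hx_add (dirs_rotR hd) _)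
  rw [evS, evL]
  simp only [List.mem_append, List.mem_cons, List.not_mem_nil, Prod.mk.injEq, n1, n2, n3, n4, n5, n6, false_and,
    false_or]

lemma vl_trans {X Y : List Bool} {p : Pt} (h : ¬ Hx (ctr X) p) :
    p ∈ vl oo up (X ++ (pS ++ Y)) ↔ p ∈ vl oo up (X ++ (pL ++ Y)) := by
  have hd := fd_mem up_mem X
  have n1 : p ≠ ctr X - fd up X := fun e => h (e ▸ Hx_sub hd _)
  have n2 : p ≠ ctr X - rotL (fd up X) := fun e => h (e ▸ Hx_sub (dirs_rotL hd) _)
  have n3 : p ≠ ctr X - rotR (fd up X) := fun e => h (e ▸ Hx_sub (dirs_rotR hd) _)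
  have n4 : p ≠ ctr X + fd up X := fun e => h (e ▸ Hx_add hd _)
  have n5 : p ≠ ctr X + rotL (fd up X) := fun e => h (e ▸ Hx_add (dirs_rotL hd) _)
  have n6 : p ≠ ctr X + rotR (fd up X) := fun e => h (e ▸ Hx_add (dirs_rotR hd) _)
  rw [vlS, vlL]
  simp only [List.mem_append, List.mem_cons, List.not_mem_nil, n1, n2, n3, n4, n5, n6, false_or]

section
variable {X Y : List Bool} {c d : Pt}

lemma Sh_trans (hd : d ∈ dirs) (h : ∀ p, Hx c p → ¬ Hx (ctr X) p) :
    Sh (X ++ (pS ++ Y)) c d ↔ Sh (X ++ (pL ++ Y)) c d := by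
  have n1 := h _ (Hx_sub hd c)
  have n2 := h _ (Hx_sub (dirs_rotL hd) c)
  have n3 := h _ (Hx_sub (dirs_rotR hd) c)
  have n4 := h _ (Hx_add hd c)
  have n5 := h _ (Hx_add (dirs_rotL hd) c)
  have n6 := h _ (Hx_add (dirs_rotR hd) c)
  unfold Sh
  rw [ev_trans n1, ev_trans n2, ev_trans n6, vl_trans n4, vl_trans n5, vl_trans n3]

lemma Lo_trans (hd : d ∈ dirs) (h : ∀ p, Hx c p → ¬ Hx (ctr X) p) :
    Lo (X ++ (pS ++ Y)) c d ↔ Lo (X ++ (pL ++ Y)) c d := by
  have n1 := h _ (Hx_sub hd c)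
  have n2 := h _ (Hx_sub (dirs_rotL hd) c)
  have n3 := h _ (Hx_sub (dirs_rotR hd) c)
  have n4 := h _ (Hx_add hd c)
  have n5 := h _ (Hx_add (dirs_rotL hd) c)
  have n6 := h _ (Hx_add (dirs_rotR hd) c)
  unfold Lo
  rw [ev_trans n1, ev_trans n3, ev_trans n5, ev_trans n4, ev_trans n6, vl_trans n2]

end

/-! ### the faces in short and in long state -/

/-- allowed faces in short state -/
def FS (R0 : ℕ) (t : List Bool) : Set Pt := {c | Fc R0 c ∧ ∃ d ∈ dirs, Sh t c d}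

/-- allowed faces in long state -/
def FL (R0 : ℕ) (t : List Bool) : Set Pt := {c | Fc R0 c ∧ ∃ d ∈ dirs, Lo t c d}

lemma cl_Sh {t : List Bool} {c d : Pt} (h : Sh t c d) : cl c = 1 := by
  obtain ⟨X, Y, e1, e2, e3⟩ := ev_split h.1
  have hc : ctr X = c := by
    rw [ctr_eq, e2, e3]
    abel
  rw [← hc]
  exact cl_ctr X

lemma cl_Lo {t : List Bool} {c d : Pt} (h : Lo t c d) : cl c = 1 := by
  obtain ⟨X, Y, e1, e2, e3⟩ := ev_split h.1
  have hc : ctr X = c := by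
    rw [ctr_eq, e2, e3]
    abel
  rw [← hc]
  exact cl_ctr X

/-- places are determined by their vertex -/
lemma fac_inj {X Y X' Y' : List Bool} (ht : X ++ Y ∈ SA) (h : X ++ Y = X' ++ Y') (hc : ctr X = ctr X')
    (hd : fd up X = fd up X') : X.length = X'.length := by
  rw [ctr_eq, ctr_eq, hd] at hc
  have h4 : fv oo up X = fv oo up X' := add_right_cancel (add_right_cancel hc)
  have hl : (X ++ Y).length = X.length + Y.length := List.length_append
  have hl' : (X ++ Y).length = X'.length + Y'.length := by rw [h, List.length_append]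
  by_contra hne
  have e1 : vx oo up (X ++ Y) X.length = vx oo up (X ++ Y) X'.length := by
    rw [← vx_fv, h, ← vx_fv]
    exact h4
  rcases Nat.lt_or_gt_of_ne hne with h6 | h6
  · exact ht.inj _ _ h6 (by omega) e1
  · exact ht.inj _ _ h6 (by omega) e1.symm

lemma uS_eq (R0 : ℕ) {t : List Bool} (ht : t ∈ SA) : uS R0 t = (FS R0 t).ncard := by
  classical
  have h1 : FS R0 t = (((range (t.length + 1)).filter (PlS R0 t)).image fun i => ctr (t.take i) : Finset Pt) := by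
    ext c
    rw [Finset.mem_coe, Finset.mem_image]
    constructor
    · rintro ⟨h2, d, hd, h3⟩
      obtain ⟨X, Y, rfl, h4, h5, h6⟩ := place_of_Sh ht h3
      refine ⟨X.length, ?_, ?_⟩
      · rw [Finset.mem_filter, Finset.mem_range]
        refine ⟨?_, ?_, Y, ?_, ?_⟩
        · rw [List.length_append]
          omega
        · rw [List.take_left, h5]
          exact h2
        · rw [List.take_left]
        · rw [List.take_left]
          exact h4
      · rw [List.take_left]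
        exact h5
    · rintro ⟨i, h2, rfl⟩
      rw [Finset.mem_filter] at h2
      obtain ⟨h3, h4, Y, h5, h6⟩ := h2
      refine ⟨h4, _, fd_mem up_mem (t.take i), ?_⟩
      have := Sh_of h6
      rwa [← h5] at this
  rw [h1, Set.ncard_coe_finset, Finset.card_image_of_injOn]
  · rfl
  · intro i hi k hk hik
    rw [Finset.mem_coe, Finset.mem_filter, Finset.mem_range] at hi hk
    obtain ⟨hi1, hi2, Y, hi3, hi4⟩ := hi
    obtain ⟨hk1, hk2, Z, hk3, hk4⟩ := hk
    have e1 := Sh_of hi4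
    have e2 := Sh_of hk4
    rw [← hi3] at e1
    rw [← hk3] at e2
    change ctr (t.take i) = ctr (t.take k) at hik
    rw [hik] at e1
    have e3 := Sh_uniq (fd_mem up_mem _) (fd_mem up_mem _) e1 e2
    have e4 := fac_inj (hi3 ▸ ht) (hi3.symm.trans hk3) hik e3
    rw [List.length_take, List.length_take] at e4
    omega

lemma vL_eq (R0 : ℕ) {t : List Bool} (ht : t ∈ SA) : vL R0 t = (FL R0 t).ncard := by
  classical
  have h1 : FL R0 t = (((range (t.length + 1)).filter (PlL R0 t)).image fun i => ctr (t.take i) : Finset Pt) := by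
    ext c
    rw [Finset.mem_coe, Finset.mem_image]
    constructor
    · rintro ⟨h2, d, hd, h3⟩
      obtain ⟨X, Y, rfl, h4, h5, h6⟩ := place_of_Lo ht h3
      refine ⟨X.length, ?_, ?_⟩
      · rw [Finset.mem_filter, Finset.mem_range]
        refine ⟨?_, ?_, Y, ?_, ?_⟩
        · rw [List.length_append]
          omega
        · rw [List.take_left, h5]
          exact h2
        · rw [List.take_left]
        · rw [List.take_left]
          exact h4
      · rw [List.take_left]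
        exact h5
    · rintro ⟨i, h2, rfl⟩
      rw [Finset.mem_filter] at h2
      obtain ⟨h3, h4, Y, h5, h6⟩ := h2
      refine ⟨h4, _, fd_mem up_mem (t.take i), ?_⟩
      have := Lo_of h6
      rwa [← h5] at this
  rw [h1, Set.ncard_coe_finset, Finset.card_image_of_injOn]
  · rfl
  · intro i hi k hk hik
    rw [Finset.mem_coe, Finset.mem_filter, Finset.mem_range] at hi hk
    obtain ⟨hi1, hi2, Y, hi3, hi4⟩ := hi
    obtain ⟨hk1, hk2, Z, hk3, hk4⟩ := hk
    have e1 := Lo_of hi4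
    have e2 := Lo_of hk4
    rw [← hi3] at e1
    rw [← hk3] at e2
    change ctr (t.take i) = ctr (t.take k) at hik
    rw [hik] at e1
    have e3 := Lo_uniq (fd_mem up_mem _) (fd_mem up_mem _) e1 e2
    have e4 := fac_inj (hi3 ▸ ht) (hi3.symm.trans hk3) hik e3
    rw [List.length_take, List.length_take] at e4
    omega

lemma vl_fin (v d : Pt) (t : List Bool) : {p | p ∈ vl v d t}.Finite := List.finite_toSet _

lemma FS_fin (R0 : ℕ) (t : List Bool) : (FS R0 t).Finite := by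
  have h : FS R0 t ⊆ ⋃ d ∈ dirs, (fun p : Pt => p + d) '' {p | p ∈ vl oo up t} := by
    rintro c ⟨-, d, hd, h⟩
    rw [Set.mem_iUnion₂]
    refine ⟨d, hd, c - d, vl_of_ev h.1, ?_⟩
    change c - d + d = c
    abel
  refine Set.Finite.subset ?_ h
  exact Set.Finite.biUnion (Finset.finite_toSet dirs) fun d _ => (vl_fin _ _ _).image _

lemma FL_fin (R0 : ℕ) (t : List Bool) : (FL R0 t).Finite := by
  have h : FL R0 t ⊆ ⋃ d ∈ dirs, (fun p : Pt => p + d) '' {p | p ∈ vl oo up t} := by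
    rintro c ⟨-, d, hd, h⟩
    rw [Set.mem_iUnion₂]
    refine ⟨d, hd, c - d, vl_of_ev h.1, ?_⟩
    change c - d + d = c
    abel
  refine Set.Finite.subset ?_ h
  exact Set.Finite.biUnion (Finset.finite_toSet dirs) fun d _ => (vl_fin _ _ _).image _

/-- **a toggle from short to long takes one short place away and gives one long place** -/
theorem tog_states {R0 : ℕ} {X Y : List Bool} (hF : Fc R0 (ctr X)) (h1 : X ++ (pS ++ Y) ∈ SA)
    (h2 : X ++ (pL ++ Y) ∈ SA) : uS R0 (X ++ (pS ++ Y)) = uS R0 (X ++ (pL ++ Y)) + 1 ∧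
      vL R0 (X ++ (pL ++ Y)) = vL R0 (X ++ (pS ++ Y)) + 1 := by
  have hS := Sh_of h2
  have hL := Lo_of h1
  have hd := fd_mem up_mem X
  rw [uS_eq R0 h1, uS_eq R0 h2, vL_eq R0 h1, vL_eq R0 h2]
  have hdis : ∀ c, (3 : ℤ) ∣ c.1 → cl c = 1 → c ≠ ctr X → ∀ p, Hx c p → ¬ Hx (ctr X) p := fun c a1 a2 a3 p a4 =>
    Hx_disj a1 a2 hF.1 (cl_ctr X) a3 a4
  constructor
  · have e : FS R0 (X ++ (pS ++ Y)) = insert (ctr X) (FS R0 (X ++ (pL ++ Y))) := by
      ext c
      rw [Set.mem_insert_iff]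
      constructor
      · rintro ⟨a1, d, a2, a3⟩
        by_cases hc : c = ctr X
        · exact Or.inl hc
        · exact Or.inr ⟨a1, d, a2, (Sh_trans a2 (hdis c a1.1 (cl_Sh a3) hc)).1 a3⟩
      · rintro (rfl | ⟨a1, d, a2, a3⟩)
        · exact ⟨hF, _, hd, hS⟩
        · by_cases hc : c = ctr X
          · exact absurd (Sh_Lo a2 hd (hc ▸ a3) hL) id
          · exact ⟨a1, d, a2, (Sh_trans a2 (hdis c a1.1 (cl_Sh a3) hc)).2 a3⟩
    rw [e, Set.ncard_insert_of_notMem _ (FS_fin _ _)]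
    rintro ⟨-, d, a2, a3⟩
    exact Sh_Lo a2 hd a3 hL
  · have e : FL R0 (X ++ (pL ++ Y)) = insert (ctr X) (FL R0 (X ++ (pS ++ Y))) := by
      ext c
      rw [Set.mem_insert_iff]
      constructor
      · rintro ⟨a1, d, a2, a3⟩
        by_cases hc : c = ctr X
        · exact Or.inl hc
        · exact Or.inr ⟨a1, d, a2, (Lo_trans a2 (hdis c a1.1 (cl_Lo a3) hc)).2 a3⟩
      · rintro (rfl | ⟨a1, d, a2, a3⟩)
        · exact ⟨hF, _, hd, hL⟩
        · by_cases hc : c = ctr X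
          · exact absurd (Sh_Lo hd a2 hS (hc ▸ a3)) id
          · exact ⟨a1, d, a2, (Lo_trans a2 (hdis c a1.1 (cl_Lo a3) hc)).1 a3⟩
    rw [e, Set.ncard_insert_of_notMem _ (FL_fin _ _)]
    rintro ⟨-, d, a2, a3⟩
    exact Sh_Lo hd a2 hS a3

end TOG

end HexObs
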