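import Pool.Agent.TOG.FewP
import Pool.Agent.SIM.NearCut1
import Pool.Agent.SIM.SimB

/-!
TOG: a walk contains a product of many irreducible bridges. Second part: three cuts of one leaf (helper49).
-/

set_option autoImplicit false

namespace HexObs

namespace TOG

open Finset TS SDN NTW NTA HexObs.SIM EN

open scoped ENNReal

/-- **three bridges in one interior leaf** -/
theorem leaf3 {k J J1 l0 : ℕ} {c r : ℕ → ℕ} (hcr : ∀ i, i < 3 → c i + r i + 1 ≤ c (i + 1)) (hc3 : c 3 + r 3 ≤ k + 5)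
    (hc0 : 1 ≤ c 0) {S : Set (List Bool)} (hS : ∀ i, i < 4 → NoCut (c i) (r i) ⊆ S) {t : List Bool}
    (ht : t ∈ WL (k + J)) {m u : ℕ} {e : ℕ → ℕ} (hL : Lf false (k + 7) t m u e) (hE : ¬ HasRun false (k + 2) (One S) t)
    (hl2 : 2 ≤ l0) (hl0 : l0 + 2 ≤ m) (hJ1 : J1 ≤ l0 + 1) (hJ : 1 ≤ J1) :
    Cut3 (fun _ _ _ => True) (LastR k J (RJ k (2 ^ (k + J + 2)) J1)) (FirstF (c 0) (k + J + 1)) (2 ^ (c 0 + r 0))
      (2 ^ (c 3 + r 3)) t := by
  have hH := HW.of_lf hL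
  have hp0 : (0 : ℤ) < 2 ^ (k + 5) := by positivity
  have hle0 : e (l0 + 1) ≤ t.length := (hH.mono (by omega) le_rfl).trans hH.le
  -- the windows
  have w0 := hcr 0 (by norm_num)
  have w1 := hcr 1 (by norm_num)
  have w2 := hcr 2 (by norm_num)
  simp only [Nat.zero_add, Nat.reduceAdd] at w0 w1 w2
  have k1 : 2 * 2 ^ (c 0 + r 0) ≤ 2 ^ c 1 := by
    rw [← pow_succ']
    exact Nat.pow_le_pow_right (by norm_num) w0
  have k2 : 2 * 2 ^ (c 1 + r 1) ≤ 2 ^ c 2 := by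
    rw [← pow_succ']
    exact Nat.pow_le_pow_right (by norm_num) w1
  have k3 : 2 * 2 ^ (c 2 + r 2) ≤ 2 ^ c 3 := by
    rw [← pow_succ']
    exact Nat.pow_le_pow_right (by norm_num) w2
  have k6 : 2 ^ (c 0 + r 0) ≤ 2 ^ (c 1 + r 1) := Nat.pow_le_pow_right (by norm_num) (by omega)
  have k7 : 2 ^ (c 0 + r 0) ≤ 2 ^ (c 2 + r 2) := Nat.pow_le_pow_right (by norm_num) (by omega)
  have k8 : 2 ^ (c 3 + r 3) ≤ 2 ^ (k + 5) := Nat.pow_le_pow_right (by norm_num) hc3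
  have k9 : 2 ^ (c 1 + r 1) ≤ 2 ^ (c 3 + r 3) := Nat.pow_le_pow_right (by norm_num) (by omega)
  have k10 : 0 < 2 ^ (c 0 + r 0) := by positivity
  have hRc : RR (c 0) = 3 * 2 ^ (c 0) - 2 := rfl
  have e53 : (2 : ℤ) ^ (k + 2 + 3) = 2 ^ (k + 5) := rfl
  -- the leaf
  obtain ⟨g1, hh1, g11, g12, g13, g14⟩ := leaf_int ht.1 hL hE (l := l0) hl2 hl0
  obtain ⟨v, z, v11, v12, v13, v14, v15, v16⟩ := leaf_cut g11 g12 g13
  obtain ⟨p1, G1, q1, q2, q3, q4, q5⟩ := v16 (c 0) (r 0) (by omega) (fun h => g14 (hS 0 (by norm_num) h))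
  obtain ⟨p2, G2, r1, r2, r3, r4, r5⟩ := v16 (c 1) (r 1) (by omega) (fun h => g14 (hS 1 (by norm_num) h))
  obtain ⟨p3, G3, s1, s2, s3, s4, s5⟩ := v16 (c 2) (r 2) (by omega) (fun h => g14 (hS 2 (by norm_num) h))
  obtain ⟨p4, G4, y1, y2, y3, y4, y5⟩ := v16 (c 3) (r 3) (by omega) (fun h => g14 (hS 3 (by norm_num) h))
  obtain ⟨D, hD⟩ : ∃ D, D = dD false (u + l0) := ⟨_, rfl⟩
  rw [← hD] at v15 q1 q2 q5 r1 r2 r5 s1 s2 s5 y1 y2 y5
  have hzl : z ≤ t.length := by omega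
  have q12 : p2 < p1 := cut_lt r1 q1 (by omega)
  have q23 : p3 < p2 := cut_lt s1 r1 (by omega)
  have q34 : p4 < p3 := cut_lt y1 s1 (by omega)
  have hpz : p1 < z := q1.2.1
  obtain ⟨n1, m1, m1'⟩ := cut_mid ht.1 hzl y1 s1 q34.le
  obtain ⟨n2, m2, m2'⟩ := cut_mid ht.1 hzl s1 r1 q23.le
  obtain ⟨n3, m3, m3'⟩ := cut_mid ht.1 hzl r1 q1 q12.le
  have heq : t = t.take p4 ++ ((t.drop p4).take (p3 - p4) ++ ((t.drop p3).take (p2 - p3) ++
      ((t.drop p2).take (p1 - p2) ++ t.drop p1))) := by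
    have e3 : (t.drop p2).take (p1 - p2) ++ t.drop p1 = t.drop p2 := by
      have := List.take_append_drop (p1 - p2) (t.drop p2)
      rwa [List.drop_drop, Nat.add_sub_cancel' q12.le] at this
    have e2 : (t.drop p3).take (p2 - p3) ++ t.drop p2 = t.drop p3 := by
      have := List.take_append_drop (p2 - p3) (t.drop p3)
      rwa [List.drop_drop, Nat.add_sub_cancel' q23.le] at this
    have e1 : (t.drop p4).take (p3 - p4) ++ t.drop p3 = t.drop p4 := by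
      have := List.take_append_drop (p3 - p4) (t.drop p4)
      rwa [List.drop_drop, Nat.add_sub_cancel' q34.le] at this
    rw [e3, e2, e1, List.take_append_drop]
  have hn4 : (3 : ℤ) * G4 ≤ 3 * 2 ^ (k + 5) := by
    have h3 : (G4 : ℤ) ≤ ((2 ^ (k + 5) : ℕ) : ℤ) := by exact_mod_cast y4.trans k8
    push_cast at h3
    omega
  refine ⟨t.take p4, (t.drop p4).take (p3 - p4), (t.drop p3).take (p2 - p3), (t.drop p2).take (p1 - p2), t.drop p1,
    n1, n2, n3, heq, m1, m2, m3, by omega, by omega, by omega, by omega, by omega, by omega, ?_, ?_, trivial⟩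
  · intro A B hA hB hAB
    obtain ⟨e1, e2, e3, e4, e5⟩ := cut_inner hzl y1 s1 q34.le hA hB hAB
    rw [← e4]
    have h1 := e1.2.2.2.1 p4 y1.1 (by omega)
    rw [hD] at e1 h1 y5
    refine last_take ht hH (by omega) hJ1 hJ v11 v13 e1 ?_
    omega
  · intro A B hA hB hAB
    obtain ⟨e1, e2, e3, e4, e5⟩ := cut_inner hzl r1 q1 q12.le hA hB hAB
    rw [← e5]
    have h3 := q1.2.2.2.1 (p2 + A.length) e1.1 e2
    rw [hD] at e1
    refine botS_sub hc0 (bot_mem ht hzl e1 ?_)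
    rw [← hD, hRc]
    have h4 : ((2 ^ c 0 : ℕ) : ℤ) ≤ (G1 : ℤ) := by exact_mod_cast q3
    push_cast at h4
    omega

end TOG

end HexObs
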