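import Pool.Agent.TOG.FewG
import Pool.Agent.SIM.NoCutX

/-!
TOG: a walk contains a product of many irreducible bridges. Third part: words with many leaves (helper49).
-/

set_option autoImplicit false

namespace HexObs

namespace TOG

open Finset TS SDN NTW NTA HexObs.SIM

open scoped ENNReal

/-- **three bridges in one interior leaf, off the event without cuts** -/
theorem leaf_cut3 {k J J1 Ja M i : ℕ} {d : ℕ → ℕ} {t : List Bool} (hd0 : d 0 = 0)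
    (hd : ∀ a, d a + 4 ≤ d (a + 1)) (hd4 : d 4 ≤ k + 1) (ht : t ∈ WL (k + 2 + J)) (hJ : 2 ≤ J)
    (hA : Many t i M (RR (k + 7))) (hi : i ≤ t.length) (hJa : 1 ≤ Ja) (hMa : 4 * Ja + 10 ≤ M) (hJ1 : 1 ≤ J1)
    (hM1 : 2 * J1 + 10 ≤ M)
    (hE : ¬ EN.HR 0 (k + 2) (Adj (k + 2) (2 ^ (k + 2 + J + 3)) Ja (EN.One (NcS (k + 2) J 4 d))) t) :
    Cut3 (fun _ _ _ => True) (LastR k (J + 2) (EN.RJ k (2 ^ (k + J + 4)) J1)) (FirstF (k + 2 - d 4) (k + J + 3))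
      (2 ^ (k + 1 - d 3)) (2 ^ (k + 1)) t := by
  have hA' : Many t i M (RR (k + 2 + 5)) := hA
  have h1 := no_one ht hJ hJa hA' hi hMa hE
  obtain ⟨m, u, e, hF⟩ := lf_exists false (k + 2 + 5) t
  obtain ⟨f1, f2⟩ := many_folds hA' hi hF
  have d0 := hd 0
  have d1 := hd 1
  have d2 := hd 2
  have d3 := hd 3
  simp only [Nat.zero_add, Nat.reduceAdd] at d0 d1 d2 d3
  have key := leaf3 (k := k) (J := J + 2) (J1 := J1) (l0 := M / 2 - 3)
    (c := fun a => k + 2 - d (4 - a)) (r := fun a => d (4 - a) - d (3 - a) - 1)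
    (fun a ha => by
      rcases (by omega : a = 0 ∨ a = 1 ∨ a = 2) with rfl | rfl | rfl
      · simp only [Nat.sub_zero, Nat.zero_add, Nat.reduceSub]
        omega
      · simp only [Nat.reduceAdd, Nat.reduceSub]
        omega
      · simp only [Nat.reduceAdd, Nat.reduceSub]
        omega)
    (by
      simp only [Nat.reduceSub]
      omega)
    (by
      simp only [Nat.sub_zero]
      omega)
    (S := {g | ∃ a, a < 4 ∧ g ∈ NoCut (k + 2 - d (a + 1)) (d (a + 1) - d a - 1)})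
    (fun a ha g hg => by
      refine ⟨3 - a, by omega, ?_⟩
      rw [show 3 - a + 1 = 4 - a by omega]
      exact hg)
    (t := t) (by rwa [show k + (J + 2) = k + 2 + J by ring]) hF h1 (by omega) (by omega) (by omega) hJ1
  simp only [Nat.sub_zero, Nat.reduceSub] at key
  rw [show k + 2 - d 4 + (d 4 - d 3 - 1) = k + 1 - d 3 by omega, show k + 2 - d 1 + (d 1 - d 0 - 1) = k + 1 by omega,
    show k + (J + 2) + 2 = k + J + 4 by ring, show k + (J + 2) + 1 = k + J + 3 by ring] at key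
  exact key

/-- **the mass of the words with three bridges and without a long product** -/
theorem mass_F {m : ℕ → ℝ} (hm : ∀ k, 0 < m k) (hMU : MUp m) (hG : EN.GBU m) : ∃ J1 : ℕ, 1 ≤ J1 ∧
    ∀ J D D' : ℕ, 6 ≤ J → D < D' → ∃ (A : ℝ) (k0 : ℕ), 1 ≤ A ∧ ∀ (k nl V : ℕ) (E : Set (List Bool)), k0 ≤ k →
      (∀ t ∈ E, Cut3 (fun _ _ _ => True) (LastR k (J + 2) (EN.RJ k (2 ^ (k + J + 4)) J1))
          (FirstF (k + 2 - D') (k + J + 3)) (2 ^ (k + 1 - D)) (2 ^ (k + 1)) t ∧ t.length = nl ∧ NoLg V t) →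
      gf E ≤ ENNReal.ofReal (A * V / Ub (k + J + 2) * (Ub (k + J + 2) / m (k + J + 2))) * Xb (k + J + 2) ^ 2 := by
  obtain ⟨J1, C2, k2, hJ1, hC2, hlast⟩ := last_rj hm hG
  obtain ⟨Cm, hCm, hMU⟩ := hMU
  refine ⟨J1, hJ1, fun J D D' hJ hDD => ?_⟩
  obtain ⟨C3, hC3, hcut⟩ := cut3_exact
  obtain ⟨C5, k5, hC5, hfirst⟩ := half_first
  obtain ⟨Cx, hCx, hX⟩ := xDbl
  obtain ⟨A, hA⟩ : ∃ A : ℝ, A = (C3 * 4 ^ D * 4 ^ (J + 2)) * (C2 ^ (J + 2) * Cm ^ (J + 2)) * (C5 ^ (J + D' + 6) * Cx) :=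
    ⟨_, rfl⟩
  have hA0 : 0 < A := by rw [hA]; positivity
  refine ⟨max A 1, k2 + k5 + D' + 7, le_max_right _ _, fun k nl V E hk hE => ?_⟩
  obtain ⟨n, hn⟩ : ∃ n : ℕ, n = 2 ^ (k + 1 - D) := ⟨_, rfl⟩
  have hn1 : 1 ≤ n := by rw [hn]; exact Nat.one_le_two_pow
  have hn0 : (0 : ℝ) < n := by exact_mod_cast hn1
  have hU := TS.Ub_pos (k + J + 3)
  have hU2 := TS.Ub_pos (k + J + 2)
  have hUc := TS.Ub_pos (k + 1)
  have hmk := hm k
  have hmK := hm (k + J + 2)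
  have hnr : (n : ℝ) = 2 ^ (k + 1 - D) := by rw [hn]; push_cast; rfl
  have hn2 : (2 : ℝ) ^ (k + 1) = n * 2 ^ D := by
    rw [hnr, ← pow_add]
    congr 1
    omega
  have hUr : Ub (k + J + 3) ≤ 2 ^ (J + 2) * Ub (k + 1) := by
    have := DL.Ub_add (k + 1) (J + 2)
    rwa [show k + 1 + (J + 2) = k + J + 3 by ring] at this
  have hratio : (2 ^ (k + 1) / (n * Ub (k + 1)) : ℝ) ≤ 2 ^ D * 2 ^ (J + 2) / Ub (k + J + 3) := by
    have h2 : (2 ^ (k + 1) / (n * Ub (k + 1)) : ℝ) = 2 ^ D / Ub (k + 1) := by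
      rw [hn2]
      field_simp
    rw [h2, div_le_div_iff₀ hUc hU]
    calc (2 : ℝ) ^ D * Ub (k + J + 3) ≤ 2 ^ D * (2 ^ (J + 2) * Ub (k + 1)) := mul_le_mul_of_nonneg_left hUr (by positivity)
      _ = _ := by ring
  have hratio0 : (0 : ℝ) ≤ 2 ^ (k + 1) / (n * Ub (k + 1)) := by positivity
  have h1 := hcut (LastR k (J + 2) (EN.RJ k (2 ^ (k + J + 4)) J1)) (FirstF (k + 2 - D') (k + J + 3))
    {Z | Z ∈ BU ∧ ¬ LgZ V Z} E n (k + 1) nl (ENNReal.ofReal (C2 ^ (J + 2) * (Ub (k + J + 2) / m k)) * Xb (k + J + 2)) hn1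
    (fun t ht => by rw [hn]; exact ⟨(hE t ht).1, (hE t ht).2.1⟩)
    (fun P Z Q h3 h4 => ⟨h4, fun h5 => (hE _ h3).2.2 ⟨P, Z, Q, rfl, h4, h5⟩⟩) (fun l => by
      have := hlast k (J + 2) l (by omega) (by omega)
      rwa [show k + (J + 2) + 2 = k + J + 4 by ring, show k + (J + 2) = k + J + 2 by ring] at this)
  have hF := hfirst (k - D' - 3) (J + D' + 6) (by omega) (by omega)
  rw [show k - D' - 3 + 5 = k + 2 - D' by omega, show k - D' - 3 + (J + D' + 6) = k + J + 3 by omega] at hF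
  have hX3 : Xb (k + J + 3) ≤ ENNReal.ofReal Cx * Xb (k + J + 2) := hX (k + J + 2)
  have hV : gf {Z | Z ∈ BU ∧ ¬ LgZ V Z} ≤ ENNReal.ofReal (V : ℝ) := by
    rw [ENNReal.ofReal_natCast]
    exact FPc.few_mass V
  refine h1.trans ((mul_le_mul' le_rfl (mul_le_mul' (mul_le_mul' le_rfl (hF.trans (mul_le_mul' le_rfl hX3))) hV)).trans ?_)
  have key : ∀ (x y z w v : ℝ) (X : ℝ≥0∞), 0 ≤ x → 0 ≤ y → 0 ≤ z → 0 ≤ w → ENNReal.ofReal x *
      (ENNReal.ofReal y * X * (ENNReal.ofReal z * (ENNReal.ofReal w * X)) * ENNReal.ofReal v) =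
      ENNReal.ofReal (x * y * (z * w) * v) * X ^ 2 := by
    intro x y z w v X hx0 hy0 hz0 hw0
    rw [ENNReal.ofReal_mul (mul_nonneg (mul_nonneg hx0 hy0) (mul_nonneg hz0 hw0)), ENNReal.ofReal_mul (mul_nonneg hx0 hy0),
      ENNReal.ofReal_mul hx0, ENNReal.ofReal_mul hz0]
    ring
  rw [key _ _ _ _ _ _ (by positivity) (by positivity) (by positivity) (by positivity)]
  refine mul_le_mul_left (ENNReal.ofReal_le_ofReal ?_) _
  have hmm : 1 / m k ≤ Cm ^ (J + 2) / m (k + J + 2) := by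
    rw [div_le_div_iff₀ hmk hmK, one_mul]
    have := mUp_pow hCm hMU k (J + 2)
    rwa [show k + (J + 2) = k + J + 2 by ring] at this
  have f1 : C3 * (2 ^ (k + 1) / (n * Ub (k + 1))) ^ 2 ≤ C3 * 4 ^ D * 4 ^ (J + 2) / Ub (k + J + 3) ^ 2 := by
    have h2 := pow_le_pow_left₀ hratio0 hratio 2
    have h3 : ((2 : ℝ) ^ D * 2 ^ (J + 2) / Ub (k + J + 3)) ^ 2 = 4 ^ D * 4 ^ (J + 2) / Ub (k + J + 3) ^ 2 := by
      rw [div_pow, mul_pow, ← pow_mul, ← pow_mul, mul_comm D 2, mul_comm (J + 2) 2, pow_mul, pow_mul]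
      norm_num
    rw [h3] at h2
    calc C3 * (2 ^ (k + 1) / (n * Ub (k + 1))) ^ 2 ≤ C3 * (4 ^ D * 4 ^ (J + 2) / Ub (k + J + 3) ^ 2) :=
          mul_le_mul_of_nonneg_left h2 (by positivity)
      _ = _ := by ring
  have hUU : 1 / Ub (k + J + 3) ≤ 1 / Ub (k + J + 2) :=
    one_div_le_one_div_of_le hU2 (TS.Ub_mono (by omega))
  have hVr : (0 : ℝ) ≤ V := Nat.cast_nonneg V
  calc C3 * (2 ^ (k + 1) / (n * Ub (k + 1))) ^ 2 * (C2 ^ (J + 2) * (Ub (k + J + 2) / m k)) *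
        (C5 ^ (J + D' + 6) * Ub (k + J + 3) * Cx) * V
      = (C3 * (2 ^ (k + 1) / (n * Ub (k + 1))) ^ 2) * (1 / m k) *
        (C2 ^ (J + 2) * Ub (k + J + 2) * (C5 ^ (J + D' + 6) * Ub (k + J + 3) * Cx) * V) := by ring
    _ ≤ (C3 * 4 ^ D * 4 ^ (J + 2) / Ub (k + J + 3) ^ 2) * (Cm ^ (J + 2) / m (k + J + 2)) *
        (C2 ^ (J + 2) * Ub (k + J + 2) * (C5 ^ (J + D' + 6) * Ub (k + J + 3) * Cx) * V) := by
        refine mul_le_mul_of_nonneg_right ?_ (by positivity)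
        exact mul_le_mul f1 hmm (by positivity) (by positivity)
    _ = A * V * (Ub (k + J + 2) / m (k + J + 2)) * (1 / Ub (k + J + 3)) := by
        rw [hA]
        field_simp
    _ ≤ A * V * (Ub (k + J + 2) / m (k + J + 2)) * (1 / Ub (k + J + 2)) := by
        refine mul_le_mul_of_nonneg_left hUU (by positivity)
    _ ≤ max A 1 * V * (Ub (k + J + 2) / m (k + J + 2)) * (1 / Ub (k + J + 2)) := by
        have := le_max_left A 1
        gcongr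
    _ = _ := by ring

/-- **words with many leaves and without a long product, exactly n letters** -/
theorem many_F {m : ℕ → ℝ} (hm : ∀ k, 0 < m k) (hMU : MUp m) (hG : EN.GBU m) (hEv : EvAX m) : ∃ M : ℕ,
    ∀ (J J' : ℕ) (e : ℝ), 0 < e → ∃ (A : ℝ) (k0 : ℕ), 1 ≤ A ∧ ∀ k n V : ℕ, k0 ≤ k →
      gf {t | (t.length = n ∧ t ∈ WL (k + J)) ∧ (∃ i, i ≤ t.length ∧ Many t i M (RR (k - J'))) ∧ NoLg V t} ≤
        ENNReal.ofReal ((e + A * V / Ub k) * (Ub (k + J) / m (k + J))) * Xb (k + J) ^ 2 := by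
  obtain ⟨Jn, hJn, hnc⟩ := nocut_evX hEv
  obtain ⟨JM, hJM, hmass⟩ := mass_F hm hMU hG
  obtain ⟨Cm, hCm, hMU⟩ := hMU
  obtain ⟨M, hM⟩ : ∃ M : ℕ, M = 2 * JM + 4 * Jn + 20 := ⟨_, rfl⟩
  refine ⟨M, fun J J' e he => ?_⟩
  have hCm0 : 0 < Cm := by linarith
  obtain ⟨a, ha⟩ : ∃ a, a = J + J' + 1 := ⟨_, rfl⟩
  obtain ⟨dw, kN, hd0, hdw, hdN, hnoc⟩ := hnc 4 (by norm_num) (a + 5) (by omega) (e / Cm ^ (a + 5)) (by positivity)
  have hd34 : dw 3 < dw 4 := by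
    have := hdw 3
    simp only [Nat.reduceAdd] at this
    omega
  obtain ⟨A, kE, hA, hmass⟩ := hmass (a + 5) (dw 3) (dw 4) (by omega) hd34
  refine ⟨A, kN + kE + a + dw 4 + J' + 20, hA, fun k nn V hk => ?_⟩
  obtain ⟨K, hK⟩ : ∃ K, K = k + J := ⟨_, rfl⟩
  obtain ⟨k0, hk0⟩ : ∃ k0, k0 = K - a - 7 := ⟨_, rfl⟩
  have hkcK : k0 + 2 + (a + 5) = K := by omega
  have hgfS := hnoc 0 (k0 + 2) nn (by omega)
  rw [hkcK] at hgfS
  rw [← hK]
  have hU := TS.Ub_pos K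
  have hUk := TS.Ub_pos k
  have hmK := hm K
  obtain ⟨W, hW⟩ : ∃ W : ℝ, W = Ub K / m K := ⟨_, rfl⟩
  have hW0 : 0 < W := by rw [hW]; positivity
  rw [← hW]
  obtain ⟨B3, hB3⟩ : ∃ B3 : Set (List Bool), B3 = {t | t.length = nn ∧ t ∈ WL K ∧
    EN.HR 0 (k0 + 2) (Adj (k0 + 2) (2 ^ (K + 3)) Jn (EN.One (NcS (k0 + 2) (a + 5) 4 dw))) t} := ⟨_, rfl⟩
  obtain ⟨E, hE⟩ : ∃ E : Set (List Bool), E = {t | (t.length = nn ∧ t ∈ WL K) ∧
    (∃ i, i ≤ t.length ∧ Many t i M (RR (k - J'))) ∧ NoLg V t ∧ t ∉ B3} := ⟨_, rfl⟩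
  have hVr : (0 : ℝ) ≤ V := Nat.cast_nonneg V
  have hgE : gf E ≤ ENNReal.ofReal (A * V / Ub k * W) * Xb K ^ 2 := by
    have h1 := hmass k0 nn V E (by omega) ?_
    · rw [show k0 + (a + 5) + 2 = K by omega, ← hW] at h1
      refine h1.trans (mul_le_mul_left (ENNReal.ofReal_le_ofReal (mul_le_mul_of_nonneg_right ?_ hW0.le)) _)
      exact div_le_div_of_nonneg_left (by positivity) hUk (TS.Ub_mono (by omega))
    · intro t ht
      rw [hE] at ht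
      obtain ⟨⟨tl, t1⟩, ⟨i, hi, hMany⟩, t3, t4⟩ := ht
      refine ⟨?_, tl, t3⟩
      have hnoE : ¬ EN.HR 0 (k0 + 2) (Adj (k0 + 2) (2 ^ (k0 + 2 + (a + 5) + 3)) Jn
          (EN.One (NcS (k0 + 2) (a + 5) 4 dw))) t := by
        intro hcon
        rw [hkcK] at hcon
        refine t4 ?_
        rw [hB3]
        exact ⟨tl, t1, hcon⟩
      have ht2 : t ∈ WL (k0 + 2 + (a + 5)) := by
        rw [hkcK]
        exact t1
      have hRR : RR (k0 + 7) ≤ RR (k - J') := by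
        unfold RR
        have : (2 : ℤ) ^ (k0 + 7) ≤ 2 ^ (k - J') := pow_le_pow_right₀ (by norm_num) (by omega)
        linarith
      have hMk : Many t i M (RR (k0 + 7)) := hMany.mono le_rfl le_rfl hRR
      exact leaf_cut3 (k := k0) (J := a + 5) (J1 := JM) (Ja := Jn) (M := M) (d := dw) hd0 hdw (by omega) ht2 (by omega)
        hMk hi hJn (by omega) hJM (by omega) hnoE
  have hsub : {t | (t.length = nn ∧ t ∈ WL K) ∧ (∃ i, i ≤ t.length ∧ Many t i M (RR (k - J'))) ∧ NoLg V t} ⊆ B3 ∪ E := by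
    rintro t ⟨ht, hp, hq⟩
    by_cases h3 : t ∈ B3
    · exact Or.inl h3
    refine Or.inr ?_
    rw [hE]
    exact ⟨ht, hp, hq, h3⟩
  have g3 : gf B3 ≤ ENNReal.ofReal (e * W) * Xb K ^ 2 := by
    rw [hB3]
    refine hgfS.trans (mul_le_mul_left (ENNReal.ofReal_le_ofReal ?_) _)
    have hmk := hm (k0 + 2)
    have h1 := mUp_pow hCm hMU (k0 + 2) (a + 5)
    rw [hkcK] at h1
    rw [hW]
    have h2 : Ub K / m (k0 + 2) ≤ Cm ^ (a + 5) * (Ub K / m K) := by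
      rw [← mul_div_assoc, div_le_div_iff₀ hmk hmK]
      calc Ub K * m K ≤ Ub K * (Cm ^ (a + 5) * m (k0 + 2)) := mul_le_mul_of_nonneg_left h1 hU.le
        _ = _ := by ring
    calc e / Cm ^ (a + 5) * (Ub K / m (k0 + 2)) ≤ e / Cm ^ (a + 5) * (Cm ^ (a + 5) * (Ub K / m K)) :=
          mul_le_mul_of_nonneg_left h2 (by positivity)
      _ = e * (Ub K / m K) := by field_simp
  refine (gf_mono hsub).trans ((gf_union_le _ _).trans ((add_le_add g3 hgE).trans (le_of_eq ?_)))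
  rw [← add_mul, ← ENNReal.ofReal_add (by positivity) (by positivity)]
  congr 2
  ring

end TOG

end HexObs
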