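import Pool.Agent.SIM.MassX
import Pool.Agent.SIM.HumpG
import Pool.Agent.NUX.Br1

/-!
TOG: a walk contains a product of many irreducible bridges. First part: the masses (helper49).
-/

set_option autoImplicit false

namespace HexObs

namespace TOG

open Finset TS SDN NTW NTA HexObs.SIM

open scoped ENNReal

/-- Z is a product of at least V irreducible bridges -/
def LgZ (V : ℕ) (Z : List Bool) : Prop :=
  ∃ l : List (List Bool), (∀ k ∈ l, ∃ r, k ∈ Irr r) ∧ Z = l.flatten ∧ V ≤ l.length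

/-- no factor of t is a product of at least V irreducible bridges -/
def NoLg (V : ℕ) (t : List Bool) : Prop := ¬ ∃ X Z Y : List Bool, t = X ++ (Z ++ Y) ∧ Z ∈ BU ∧ LgZ V Z

namespace FPc

/-- every bridge is a product of irreducible bridges -/
lemma pieces : ∀ (h : ℕ) (Z : List Bool), Z ∈ Brd h → ∃ l : List (List Bool), (∀ k ∈ l, ∃ r, k ∈ Irr r) ∧ Z = l.flatten := by
  intro h
  induction h using Nat.strong_induction_on with
  | _ h ih =>
    intro Z hZ
    rcases Nat.eq_zero_or_pos h with h0 | h0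
    · subst h0
      refine ⟨[], by simp, ?_⟩
      rw [List.flatten_nil]
      rw [Brd_zero] at hZ
      exact hZ
    · obtain ⟨r, s, u, hr1, hr2, hs, hu, he⟩ := Brd_first hZ h0
      obtain ⟨l, h1, h2⟩ := ih (h - r) (by omega) u hu
      refine ⟨s :: l, ?_, ?_⟩
      · intro k hk
        rcases List.mem_cons.1 hk with rfl | hk
        · exact ⟨r, hs⟩
        · exact h1 k hk
      · rw [List.flatten_cons, ← h2]
        exact he

/-- the products of exactly j pieces -/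
def Pj (j : ℕ) : Set (List Bool) := {Z | ∃ l : List (List Bool), (∀ k ∈ l, ∃ r, k ∈ Irr r) ∧ Z = l.flatten ∧ l.length = j}

lemma gf_Pj (j : ℕ) : gf (Pj j) ≤ 1 := by
  induction j with
  | zero =>
    refine (gf_mono ?_).trans JumpVaux.gf_nil.le
    rintro Z ⟨l, -, h1, h2⟩
    rw [List.length_eq_zero_iff] at h2
    rw [h1, h2]
    simp
  | succ j ih =>
    have h1 : gf (Pj (j + 1)) ≤ gf IU * gf (Pj j) := by
      refine gf_le_mul fun Z hZ => ?_
      obtain ⟨l, h1, h2, h3⟩ := hZ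
      cases l with
      | nil => simp at h3
      | cons a l =>
        refine ⟨a, h1 a List.mem_cons_self, l.flatten, ⟨l, fun k hk => h1 k (List.mem_cons_of_mem _ hk), rfl, ?_⟩, ?_⟩
        · simpa using h3
        · rw [h2, List.flatten_cons]
    rw [BrL.gf_IU, one_mul] at h1
    exact h1.trans ih

/-- **the bridges with fewer than V pieces** -/
theorem few_mass (V : ℕ) : gf {Z | Z ∈ BU ∧ ¬ LgZ V Z} ≤ V := by
  have h1 : {Z | Z ∈ BU ∧ ¬ LgZ V Z} ⊆ ⋃ j ∈ range V, Pj j := by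
    rintro Z ⟨⟨h, hZ⟩, hn⟩
    obtain ⟨l, h1, h2⟩ := pieces h Z hZ
    simp only [Set.mem_iUnion, Finset.mem_range, exists_prop]
    refine ⟨l.length, ?_, l, h1, h2, rfl⟩
    by_contra hc
    exact hn ⟨l, h1, h2, not_lt.1 hc⟩
  refine (gf_mono h1).trans ((JumpVaux.gf_biUnion_le _ _).trans ?_)
  refine (Finset.sum_le_card_nsmul _ _ 1 fun j _ => gf_Pj j).trans ?_
  rw [Finset.card_range, nsmul_eq_mul, mul_one]

end FPc

open FPc CS in
/-- **the sum over the middle bridge Z, exactly nl letters** -/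
theorem cut3_exact : ∃ C : ℝ, 1 ≤ C ∧ ∀ (LL RR F E : Set (List Bool)) (n b nl : ℕ) (x : ℝ≥0∞), 1 ≤ n →
    (∀ t ∈ E, Cut3 (fun _ _ _ => True) LL RR n (2 ^ b) t ∧ t.length = nl) →
    (∀ A Z B : List Bool, A ++ (Z ++ B) ∈ E → Z ∈ BU → Z ∈ F) → (∀ l : ℕ, gf {L | L.length = l ∧ L ∈ LL} ≤ x) →
    gf E ≤ ENNReal.ofReal (C * (2 ^ b / (n * Ub b)) ^ 2) * (x * gf RR * gf F) := by
  classical
  obtain ⟨K, hK, hP⟩ := piece_mass
  refine ⟨K ^ 2, one_le_pow₀ hK, fun LL RR F E n b nl x hn hE hF hx => ?_⟩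
  have hU := Ub_pos b
  have hn0 : (0 : ℝ) < n := by exact_mod_cast hn
  obtain ⟨p, hp⟩ : ∃ p : List Bool → ℝ≥0∞, p = fun P => if P ∈ IU ∧ hgt P ≤ 2 ^ b then wE P * (hgt P : ℝ≥0∞) else 0 :=
    ⟨_, rfl⟩
  obtain ⟨z, hz⟩ : ∃ z : List Bool → ℝ≥0∞, z = fun Z => if Z ∈ F then wE Z else 0 := ⟨_, rfl⟩
  obtain ⟨r, hr⟩ : ∃ r : List Bool → ℝ≥0∞, r = fun R => if R ∈ RR then wE R else 0 := ⟨_, rfl⟩
  have hsz : ∑' L, z L = gf F := by
    unfold gf
    rw [hz, _root_.tsum_subtype F (fun t => wE t)]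
    exact tsum_congr fun t => by rw [Set.indicator_apply]
  have hsr : ∑' L, r L = gf RR := by
    unfold gf
    rw [hr, _root_.tsum_subtype RR (fun t => wE t)]
    exact tsum_congr fun t => by rw [Set.indicator_apply]
  have h0 : ∀ f : List Bool → List Bool → List Bool → List Bool → List Bool → ℝ≥0∞,
      ∑' L : List Bool, ∑' P : List Bool, ∑' P2 : List Bool, ∑' R : List Bool, ∑' Z : List Bool, f L P P2 R Z =
      ∑' P : List Bool, ∑' P2 : List Bool, ∑' R : List Bool, ∑' Z : List Bool, ∑' L : List Bool, f L P P2 R Z := by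
    intro f
    rw [ENNReal.tsum_comm]
    refine tsum_congr fun P => ?_
    rw [ENNReal.tsum_comm]
    refine tsum_congr fun P2 => ?_
    rw [ENNReal.tsum_comm]
    refine tsum_congr fun R => ?_
    rw [ENNReal.tsum_comm]
  have h1 : (n : ℝ≥0∞) ^ 2 * gf E ≤ ∑' P : List Bool, ∑' P2 : List Bool, ∑' R : List Bool, ∑' Z : List Bool,
      p P * (p P2 * (r R * (z Z * x))) := by
    refine (cut3_master (Q := fun _ _ _ => True) (fun _ _ _ _ _ _ _ _ => trivial) (fun t ht => (hE t ht).1)).trans ?_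
    rw [h0]
    refine ENNReal.tsum_le_tsum fun P => ENNReal.tsum_le_tsum fun P2 => ENNReal.tsum_le_tsum fun R =>
      ENNReal.tsum_le_tsum fun Z => ?_
    by_cases hc : (Z ∈ F ∧ R ∈ RR) ∧ (P ∈ IU ∧ hgt P ≤ 2 ^ b) ∧ (P2 ∈ IU ∧ hgt P2 ≤ 2 ^ b)
    · have e1 : z Z = wE Z := by rw [hz]; exact if_pos hc.1.1
      have e2 : r R = wE R := by rw [hr]; exact if_pos hc.1.2
      have e3 : p P = wE P * (hgt P : ℝ≥0∞) := by rw [hp]; exact if_pos hc.2.1
      have e4 : p P2 = wE P2 * (hgt P2 : ℝ≥0∞) := by rw [hp]; exact if_pos hc.2.2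
      rw [e1, e2, e3, e4]
      have h2 := hx (nl - (P ++ (Z ++ (P2 ++ R))).length)
      have h3 : gf {L | L.length = nl - (P ++ (Z ++ (P2 ++ R))).length ∧ L ∈ LL} =
          ∑' L : List Bool, (if L.length = nl - (P ++ (Z ++ (P2 ++ R))).length ∧ L ∈ LL then wE L else 0) := by
        unfold gf
        rw [_root_.tsum_subtype _ (fun t => wE t)]
        exact tsum_congr fun t => by rw [Set.indicator_apply]; rfl
      rw [h3] at h2
      calc (∑' L : List Bool, (if Q5 (fun _ _ _ => True) LL RR n (2 ^ b) L P P2 R Z ∧ L ++ (P ++ (Z ++ (P2 ++ R))) ∈ E then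
            wE L * wE P * wE P2 * wE R * wE Z * ((hgt P : ℝ≥0∞) * (hgt P2 : ℝ≥0∞)) else 0))
          ≤ ∑' L : List Bool, (wE P * (hgt P : ℝ≥0∞)) * (wE P2 * (hgt P2 : ℝ≥0∞)) * wE R * wE Z *
            (if L.length = nl - (P ++ (Z ++ (P2 ++ R))).length ∧ L ∈ LL then wE L else 0) := by
            refine ENNReal.tsum_le_tsum fun L => ?_
            by_cases hd : Q5 (fun _ _ _ => True) LL RR n (2 ^ b) L P P2 R Z ∧ L ++ (P ++ (Z ++ (P2 ++ R))) ∈ E
            · have h4 := (hE _ hd.2).2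
              rw [List.length_append] at h4
              rw [if_pos hd, if_pos ⟨by omega, hd.1.1.1⟩]
              refine le_of_eq ?_
              ring
            · rw [if_neg hd]
              exact zero_le
        _ ≤ (wE P * (hgt P : ℝ≥0∞)) * (wE P2 * (hgt P2 : ℝ≥0∞)) * wE R * wE Z * x := by
            rw [ENNReal.tsum_mul_left]
            exact mul_le_mul' le_rfl h2
        _ = _ := by ring
    · refine le_trans (le_of_eq (ENNReal.tsum_eq_zero.2 fun L => if_neg ?_)) zero_le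
      rintro ⟨h2, h3⟩
      have h4 : (L ++ P) ++ (Z ++ (P2 ++ R)) ∈ E := by
        rw [List.append_assoc]
        exact h3
      exact hc ⟨⟨hF _ _ _ h4 h2.2.2.2.1.1, h2.1.2⟩, h2.2.1, h2.2.2.1⟩
  have h2 : ∑' P : List Bool, ∑' P2 : List Bool, ∑' R : List Bool, ∑' Z : List Bool,
      p P * (p P2 * (r R * (z Z * x))) = (∑' P, p P) * ((∑' P, p P) * (gf RR * (gf F * x))) := by
    simp only [ENNReal.tsum_mul_left, ENNReal.tsum_mul_right, hsz, hsr]
  have h3 : ∑' P, p P ≤ ENNReal.ofReal (K * 2 ^ b / Ub b) := by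
    rw [hp]
    exact hP b
  have hn1 : ((n : ℝ≥0∞) ^ 2) ≠ 0 := by
    have : (n : ℝ≥0∞) ≠ 0 := by exact_mod_cast (by omega : n ≠ 0)
    exact pow_ne_zero _ this
  have hn2 : ((n : ℝ≥0∞) ^ 2) ≠ ⊤ := ENNReal.pow_ne_top (ENNReal.natCast_ne_top n)
  rw [h2] at h1
  have h4 : gf E ≤ ((n : ℝ≥0∞) ^ 2)⁻¹ * (ENNReal.ofReal (K * 2 ^ b / Ub b) *
      (ENNReal.ofReal (K * 2 ^ b / Ub b) * (gf RR * (gf F * x)))) := by
    calc gf E = ((n : ℝ≥0∞) ^ 2)⁻¹ * ((n : ℝ≥0∞) ^ 2 * gf E) := by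
          rw [← mul_assoc, ENNReal.inv_mul_cancel hn1 hn2, one_mul]
      _ ≤ _ := mul_le_mul' le_rfl (h1.trans (mul_le_mul' h3 (mul_le_mul' h3 le_rfl)))
  refine h4.trans (le_of_eq ?_)
  have h5 : ((n : ℝ≥0∞) ^ 2)⁻¹ = ENNReal.ofReal (((n : ℝ) ^ 2)⁻¹) := by
    rw [ENNReal.ofReal_inv_of_pos (by positivity), ENNReal.ofReal_pow hn0.le, ENNReal.ofReal_natCast]
  have h6 : ENNReal.ofReal (K ^ 2 * (2 ^ b / (n * Ub b)) ^ 2) = ((n : ℝ≥0∞) ^ 2)⁻¹ *
      (ENNReal.ofReal (K * 2 ^ b / Ub b) * ENNReal.ofReal (K * 2 ^ b / Ub b)) := by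
    rw [h5, ← ENNReal.ofReal_mul (by positivity), ← ENNReal.ofReal_mul (by positivity)]
    congr 1
    field_simp
  rw [h6]
  ring

end TOG

end HexObs
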