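import Pool.Agent.TOG.Count

/-!
TOG, general form: places at the faces c with F v c, v = last vertex of the word (a toggle does not move it).
Needed: all faces with F v c have the same colour.
-/

set_option autoImplicit false

namespace HexObs

namespace TOG

open Finset TS SDN

namespace Gen

/-- short place number i of t -/
def PlS (F : Pt → Pt → Prop) (t : List Bool) (i : ℕ) : Prop :=
  F (fv oo up t) (ctr (t.take i)) ∧ ∃ Y, t = t.take i ++ (pS ++ Y) ∧ t.take i ++ (pL ++ Y) ∈ SA

/-- long place number i of t -/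
def PlL (F : Pt → Pt → Prop) (t : List Bool) (i : ℕ) : Prop :=
  F (fv oo up t) (ctr (t.take i)) ∧ ∃ Y, t = t.take i ++ (pL ++ Y) ∧ t.take i ++ (pS ++ Y) ∈ SA

open Classical in
/-- number of the short places -/
noncomputable def uS (F : Pt → Pt → Prop) (t : List Bool) : ℕ := ((range (t.length + 1)).filter (PlS F t)).card

open Classical in
/-- number of the long places -/
noncomputable def vL (F : Pt → Pt → Prop) (t : List Bool) : ℕ := ((range (t.length + 1)).filter (PlL F t)).card

/-- the last vertex does not move -/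
lemma fv_tog (X Y : List Bool) : fv oo up (X ++ (pS ++ Y)) = fv oo up (X ++ (pL ++ Y)) := by
  have e1 : ∀ v d : Pt, fv v d (pS ++ Y) = fv (v + d + rotR d + d) (rotR d) Y := fun v d => by
    simp only [pS, List.cons_append, List.nil_append, fv, turn, Bool.false_eq_true, if_false, if_true, rLR]
  have e2 : ∀ v d : Pt, fv v d (pL ++ Y) = fv (v + d + rotR d + d) (rotR d) Y := fun v d => by
    have a1 : v + d + rotL d + d + rotR d = v + d + rotR d + d + rotL d := by abel
    have a2 : v + d + rotR d + d + rotL d + - rotL d = v + d + rotR d + d := by abel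
    have a3 : rotL (- rotL d) = rotR d := by
      rw [← rRR, rLR]
    simp only [pL, List.cons_append, List.nil_append, fv, turn, Bool.false_eq_true, if_false, if_true, rRL, rRR, a1, a2, a3]
  rw [fv_append oo up X (pS ++ Y), fv_append oo up X (pL ++ Y), e1, e2]

/-! ### the faces in short and in long state -/

/-- allowed faces in short state -/
def FS (F : Pt → Pt → Prop) (t : List Bool) : Set Pt := {c | F (fv oo up t) c ∧ ∃ d ∈ dirs, Sh t c d}

/-- allowed faces in long state -/
def FL (F : Pt → Pt → Prop) (t : List Bool) : Set Pt := {c | F (fv oo up t) c ∧ ∃ d ∈ dirs, Lo t c d}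

lemma uS_eq (F : Pt → Pt → Prop) {t : List Bool} (ht : t ∈ SA) : uS F t = (FS F t).ncard := by
  classical
  have h1 : FS F t = (((range (t.length + 1)).filter (PlS F t)).image fun i => ctr (t.take i) : Finset Pt) := by
    ext c
    rw [Finset.mem_coe, Finset.mem_image]
    constructor
    · rintro ⟨h2, d, hd, h3⟩
      obtain ⟨X, Y, rfl, h4, h5, h6⟩ := place_of_Sh ht h3
      refine ⟨X.length, ?_, ?_⟩
      · rw [Finset.mem_filter, Finset.mem_range]
        refine ⟨?_, ?_, Y, ?_, ?_⟩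
        · rw [List.length_append]
          omega
        · rw [List.take_left, h5]
          exact h2
        · rw [List.take_left]
        · rw [List.take_left]
          exact h4
      · rw [List.take_left]
        exact h5
    · rintro ⟨i, h2, rfl⟩
      rw [Finset.mem_filter] at h2
      obtain ⟨h3, h4, Y, h5, h6⟩ := h2
      refine ⟨h4, _, fd_mem up_mem (t.take i), ?_⟩
      have := Sh_of h6
      rwa [← h5] at this
  rw [h1, Set.ncard_coe_finset, Finset.card_image_of_injOn]
  · rfl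
  · intro i hi k hk hik
    rw [Finset.mem_coe, Finset.mem_filter, Finset.mem_range] at hi hk
    obtain ⟨hi1, hi2, Y, hi3, hi4⟩ := hi
    obtain ⟨hk1, hk2, Z, hk3, hk4⟩ := hk
    have e1 := Sh_of hi4
    have e2 := Sh_of hk4
    rw [← hi3] at e1
    rw [← hk3] at e2
    change ctr (t.take i) = ctr (t.take k) at hik
    rw [hik] at e1
    have e3 := Sh_uniq (fd_mem up_mem _) (fd_mem up_mem _) e1 e2
    have e4 := fac_inj (hi3 ▸ ht) (hi3.symm.trans hk3) hik e3
    rw [List.length_take, List.length_take] at e4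
    omega

lemma vL_eq (F : Pt → Pt → Prop) {t : List Bool} (ht : t ∈ SA) : vL F t = (FL F t).ncard := by
  classical
  have h1 : FL F t = (((range (t.length + 1)).filter (PlL F t)).image fun i => ctr (t.take i) : Finset Pt) := by
    ext c
    rw [Finset.mem_coe, Finset.mem_image]
    constructor
    · rintro ⟨h2, d, hd, h3⟩
      obtain ⟨X, Y, rfl, h4, h5, h6⟩ := place_of_Lo ht h3
      refine ⟨X.length, ?_, ?_⟩
      · rw [Finset.mem_filter, Finset.mem_range]
        refine ⟨?_, ?_, Y, ?_, ?_⟩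
        · rw [List.length_append]
          omega
        · rw [List.take_left, h5]
          exact h2
        · rw [List.take_left]
        · rw [List.take_left]
          exact h4
      · rw [List.take_left]
        exact h5
    · rintro ⟨i, h2, rfl⟩
      rw [Finset.mem_filter] at h2
      obtain ⟨h3, h4, Y, h5, h6⟩ := h2
      refine ⟨h4, _, fd_mem up_mem (t.take i), ?_⟩
      have := Lo_of h6
      rwa [← h5] at this
  rw [h1, Set.ncard_coe_finset, Finset.card_image_of_injOn]
  · rfl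
  · intro i hi k hk hik
    rw [Finset.mem_coe, Finset.mem_filter, Finset.mem_range] at hi hk
    obtain ⟨hi1, hi2, Y, hi3, hi4⟩ := hi
    obtain ⟨hk1, hk2, Z, hk3, hk4⟩ := hk
    have e1 := Lo_of hi4
    have e2 := Lo_of hk4
    rw [← hi3] at e1
    rw [← hk3] at e2
    change ctr (t.take i) = ctr (t.take k) at hik
    rw [hik] at e1
    have e3 := Lo_uniq (fd_mem up_mem _) (fd_mem up_mem _) e1 e2
    have e4 := fac_inj (hi3 ▸ ht) (hi3.symm.trans hk3) hik e3
    rw [List.length_take, List.length_take] at e4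
    omega

lemma FS_fin (F : Pt → Pt → Prop) (t : List Bool) : (FS F t).Finite := by
  have h : FS F t ⊆ ⋃ d ∈ dirs, (fun p : Pt => p + d) '' {p | p ∈ vl oo up t} := by
    rintro c ⟨-, d, hd, h⟩
    rw [Set.mem_iUnion₂]
    refine ⟨d, hd, c - d, vl_of_ev h.1, ?_⟩
    change c - d + d = c
    abel
  refine Set.Finite.subset ?_ h
  exact Set.Finite.biUnion (Finset.finite_toSet dirs) fun d _ => (vl_fin _ _ _).image _

lemma FL_fin (F : Pt → Pt → Prop) (t : List Bool) : (FL F t).Finite := by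
  have h : FL F t ⊆ ⋃ d ∈ dirs, (fun p : Pt => p + d) '' {p | p ∈ vl oo up t} := by
    rintro c ⟨-, d, hd, h⟩
    rw [Set.mem_iUnion₂]
    refine ⟨d, hd, c - d, vl_of_ev h.1, ?_⟩
    change c - d + d = c
    abel
  refine Set.Finite.subset ?_ h
  exact Set.Finite.biUnion (Finset.finite_toSet dirs) fun d _ => (vl_fin _ _ _).image _

/-- **a toggle from short to long takes one short place away and gives one long place** -/
theorem tog_states {F : Pt → Pt → Prop} (h3 : ∀ v c, F v c → (3 : ℤ) ∣ c.1) {X Y : List Bool}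
    (hF : F (fv oo up (X ++ (pS ++ Y))) (ctr X)) (h1 : X ++ (pS ++ Y) ∈ SA)
    (h2 : X ++ (pL ++ Y) ∈ SA) : uS F (X ++ (pS ++ Y)) = uS F (X ++ (pL ++ Y)) + 1 ∧
      vL F (X ++ (pL ++ Y)) = vL F (X ++ (pS ++ Y)) + 1 := by
  have hS := Sh_of h2
  have hL := Lo_of h1
  have hd := fd_mem up_mem X
  rw [uS_eq F h1, uS_eq F h2, vL_eq F h1, vL_eq F h2]
  have hdis : ∀ c, (3 : ℤ) ∣ c.1 → cl c = 1 → c ≠ ctr X → ∀ p, Hx c p → ¬ Hx (ctr X) p := fun c a1 a2 a3 p a4 =>
    Hx_disj a1 a2 (h3 _ _ hF) (cl_ctr X) a3 a4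
  constructor
  · have e : FS F (X ++ (pS ++ Y)) = insert (ctr X) (FS F (X ++ (pL ++ Y))) := by
      ext c
      rw [Set.mem_insert_iff]
      constructor
      · rintro ⟨a1, d, a2, a3⟩
        by_cases hc : c = ctr X
        · exact Or.inl hc
        · exact Or.inr ⟨by rw [← fv_tog]; exact a1, d, a2, (Sh_trans a2 (hdis c (h3 _ _ a1) (cl_Sh a3) hc)).1 a3⟩
      · rintro (rfl | ⟨a1, d, a2, a3⟩)
        · exact ⟨hF, _, hd, hS⟩
        · by_cases hc : c = ctr X
          · exact absurd (Sh_Lo a2 hd (hc ▸ a3) hL) id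
          · exact ⟨by rw [fv_tog]; exact a1, d, a2, (Sh_trans a2 (hdis c (h3 _ _ a1) (cl_Sh a3) hc)).2 a3⟩
    rw [e, Set.ncard_insert_of_notMem _ (FS_fin _ _)]
    rintro ⟨-, d, a2, a3⟩
    exact Sh_Lo a2 hd a3 hL
  · have e : FL F (X ++ (pL ++ Y)) = insert (ctr X) (FL F (X ++ (pS ++ Y))) := by
      ext c
      rw [Set.mem_insert_iff]
      constructor
      · rintro ⟨a1, d, a2, a3⟩
        by_cases hc : c = ctr X
        · exact Or.inl hc
        · exact Or.inr ⟨by rw [fv_tog]; exact a1, d, a2, (Lo_trans a2 (hdis c (h3 _ _ a1) (cl_Lo a3) hc)).2 a3⟩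
      · rintro (rfl | ⟨a1, d, a2, a3⟩)
        · exact ⟨by rw [← fv_tog]; exact hF, _, hd, hL⟩
        · by_cases hc : c = ctr X
          · exact absurd (Sh_Lo hd a2 hS (hc ▸ a3)) id
          · exact ⟨by rw [← fv_tog]; exact a1, d, a2, (Lo_trans a2 (hdis c (h3 _ _ a1) (cl_Lo a3) hc)).1 a3⟩
    rw [e, Set.ncard_insert_of_notMem _ (FL_fin _ _)]
    rintro ⟨-, d, a2, a3⟩
    exact Sh_Lo hd a2 hS a3

/-- a place of t -/
lemma PlS_iff {F : Pt → Pt → Prop} {t : List Bool} {i : ℕ} (hi : i ≤ t.length) : PlS F t i ↔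
    ∃ X Y, X.length = i ∧ t = X ++ (pS ++ Y) ∧ X ++ (pL ++ Y) ∈ SA ∧ F (fv oo up t) (ctr X) := by
  constructor
  · rintro ⟨h1, Y, h2, h3⟩
    exact ⟨t.take i, Y, by rw [List.length_take]; omega, h2, h3, h1⟩
  · rintro ⟨X, Y, rfl, rfl, h2, h3⟩
    refine ⟨?_, Y, ?_, ?_⟩
    · rw [pl_take]
      exact h3
    · rw [pl_take]
    · rw [pl_take]
      exact h2

lemma PlL_iff {F : Pt → Pt → Prop} {t : List Bool} {i : ℕ} (hi : i ≤ t.length) : PlL F t i ↔
    ∃ X Y, X.length = i ∧ t = X ++ (pL ++ Y) ∧ X ++ (pS ++ Y) ∈ SA ∧ F (fv oo up t) (ctr X) := by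
  constructor
  · rintro ⟨h1, Y, h2, h3⟩
    exact ⟨t.take i, Y, by rw [List.length_take]; omega, h2, h3, h1⟩
  · rintro ⟨X, Y, rfl, rfl, h2, h3⟩
    refine ⟨?_, Y, ?_, ?_⟩
    · rw [pl_take]
      exact h3
    · rw [pl_take]
    · rw [pl_take]
      exact h2

/-- sum of the weights f over the words with n letters, u short and v long places -/
noncomputable def WW (F : Pt → Pt → Prop) (f : List Bool → ENNReal) (n u v : ℕ) : ENNReal := by
  classical
  exact ∑ t ∈ (SawN_finite n).toFinset.filter fun t => uS F t = u ∧ vL F t = v, f t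

/-- functions that do not change under a toggle at an allowed face -/
def FunInv (F : Pt → Pt → Prop) {α : Type} (f : List Bool → α) : Prop :=
  ∀ X Y, F (fv oo up (X ++ (pS ++ Y))) (ctr X) → X ++ (pS ++ Y) ∈ SA → X ++ (pL ++ Y) ∈ SA →
    f (X ++ (pS ++ Y)) = f (X ++ (pL ++ Y))

/-- **the toggle identity, weighted form** -/
theorem togSum {F : Pt → Pt → Prop} (hF3 : ∀ v c, F v c → (3 : ℤ) ∣ c.1) {f : List Bool → ENNReal} (hf : FunInv F f)
    (n u v : ℕ) : ((u + 1 : ℕ) : ENNReal) * WW F f n (u + 1) v = ((v + 1 : ℕ) : ENNReal) * WW F f (n + 2) u (v + 1) := by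
  classical
  obtain ⟨A, hA⟩ : ∃ A, A = (SawN_finite n).toFinset.filter fun t => uS F t = u + 1 ∧ vL F t = v := ⟨_, rfl⟩
  obtain ⟨B, hB⟩ : ∃ B, B = (SawN_finite (n + 2)).toFinset.filter fun t => uS F t = u ∧ vL F t = v + 1 := ⟨_, rfl⟩
  have mA : ∀ t, t ∈ A ↔ t ∈ SawN n ∧ uS F t = u + 1 ∧ vL F t = v := fun t => by
    rw [hA, Finset.mem_filter, Set.Finite.mem_toFinset]
  have mB : ∀ t, t ∈ B ↔ t ∈ SawN (n + 2) ∧ uS F t = u ∧ vL F t = v + 1 := fun t => by
    rw [hB, Finset.mem_filter, Set.Finite.mem_toFinset]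
  have cA : WW F f n (u + 1) v = ∑ t ∈ A, f t := by
    rw [hA]
    rfl
  have cB : WW F f (n + 2) u (v + 1) = ∑ t ∈ B, f t := by
    rw [hB]
    rfl
  have sA : ∑ p ∈ (A.sigma fun t => (range (t.length + 1)).filter (PlS F t)), f p.1 =
      ((u + 1 : ℕ) : ENNReal) * ∑ t ∈ A, f t := by
    rw [Finset.sum_sigma, Finset.mul_sum]
    refine Finset.sum_congr rfl fun t ht => ?_
    dsimp only
    rw [Finset.sum_const, nsmul_eq_mul]
    have e : ((range (t.length + 1)).filter (PlS F t)).card = u + 1 := ((mA t).1 ht).2.1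
    rw [e]
  have sB : ∑ p ∈ (B.sigma fun t => (range (t.length + 1)).filter (PlL F t)), f p.1 =
      ((v + 1 : ℕ) : ENNReal) * ∑ t ∈ B, f t := by
    rw [Finset.sum_sigma, Finset.mul_sum]
    refine Finset.sum_congr rfl fun t ht => ?_
    dsimp only
    rw [Finset.sum_const, nsmul_eq_mul]
    have e : ((range (t.length + 1)).filter (PlL F t)).card = v + 1 := ((mB t).1 ht).2.2
    rw [e]
  rw [cA, cB, ← sA, ← sB]
  refine Finset.sum_nbij' (fun p : (_ : List Bool) × ℕ => (⟨p.1.take p.2 ++ (pL ++ p.1.drop (p.2 + 3)), p.2⟩ : (_ : List Bool) × ℕ))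
    (fun p : (_ : List Bool) × ℕ => (⟨p.1.take p.2 ++ (pS ++ p.1.drop (p.2 + 5)), p.2⟩ : (_ : List Bool) × ℕ)) ?_ ?_ ?_ ?_ ?_
  · rintro ⟨t, i⟩ h
    rw [Finset.mem_sigma, Finset.mem_filter, Finset.mem_range] at h
    obtain ⟨h1, h2, h3⟩ := h
    obtain ⟨⟨h4, h4'⟩, h6, h7⟩ := (mA t).1 h1
    change i < t.length + 1 at h2
    obtain ⟨X, Y, rfl, rfl, h8, h9⟩ := (PlS_iff (t := t) (i := i) (by omega)).1 h3
    have hS : X ++ (pS ++ Y) ∈ SA := h4'
    obtain ⟨k1, k2⟩ := tog_states hF3 h9 hS h8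
    rw [Finset.mem_sigma, Finset.mem_filter, Finset.mem_range]
    dsimp only
    rw [pl_take, pl_drop (show X.length + 3 = X.length + pS.length from rfl)]
    refine ⟨(mB _).2 ⟨⟨?_, h8⟩, by omega, by omega⟩, ?_, ?_⟩
    · simp only [List.length_append, pS, pL, List.length_cons, List.length_nil] at h4 ⊢
      omega
    · rw [List.length_append]
      omega
    · refine (PlL_iff ?_).2 ⟨X, Y, rfl, rfl, hS, by rw [← fv_tog]; exact h9⟩
      rw [List.length_append]
      omega
  · rintro ⟨t, i⟩ h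
    rw [Finset.mem_sigma, Finset.mem_filter, Finset.mem_range] at h
    obtain ⟨h1, h2, h3⟩ := h
    obtain ⟨⟨h4, h4'⟩, h6, h7⟩ := (mB t).1 h1
    change i < t.length + 1 at h2
    obtain ⟨X, Y, rfl, rfl, h8, h9⟩ := (PlL_iff (t := t) (i := i) (by omega)).1 h3
    have hL : X ++ (pL ++ Y) ∈ SA := h4'
    obtain ⟨k1, k2⟩ := tog_states hF3 (by rw [fv_tog]; exact h9) h8 hL
    rw [Finset.mem_sigma, Finset.mem_filter, Finset.mem_range]
    dsimp only
    rw [pl_take, pl_drop (show X.length + 5 = X.length + pL.length from rfl)]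
    refine ⟨(mA _).2 ⟨⟨?_, h8⟩, by omega, by omega⟩, ?_, ?_⟩
    · simp only [List.length_append, pS, pL, List.length_cons, List.length_nil] at h4 ⊢
      omega
    · rw [List.length_append]
      omega
    · refine (PlS_iff ?_).2 ⟨X, Y, rfl, rfl, hL, by rw [fv_tog]; exact h9⟩
      rw [List.length_append]
      omega
  · rintro ⟨t, i⟩ h
    rw [Finset.mem_sigma, Finset.mem_filter, Finset.mem_range] at h
    obtain ⟨h1, h2, h3⟩ := h
    change i < t.length + 1 at h2
    obtain ⟨X, Y, rfl, rfl, h8, h9⟩ := (PlS_iff (t := t) (i := i) (by omega)).1 h3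
    dsimp only
    rw [pl_take, pl_drop (show X.length + 3 = X.length + pS.length from rfl), pl_take,
      pl_drop (show X.length + 5 = X.length + pL.length from rfl)]
  · rintro ⟨t, i⟩ h
    rw [Finset.mem_sigma, Finset.mem_filter, Finset.mem_range] at h
    obtain ⟨h1, h2, h3⟩ := h
    change i < t.length + 1 at h2
    obtain ⟨X, Y, rfl, rfl, h8, h9⟩ := (PlL_iff (t := t) (i := i) (by omega)).1 h3
    dsimp only
    rw [pl_take, pl_drop (show X.length + 5 = X.length + pL.length from rfl), pl_take,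
      pl_drop (show X.length + 3 = X.length + pS.length from rfl)]
  · rintro ⟨t, i⟩ h
    rw [Finset.mem_sigma, Finset.mem_filter, Finset.mem_range] at h
    obtain ⟨h1, h2, h3⟩ := h
    obtain ⟨⟨h4, h4'⟩, h6, h7⟩ := (mA t).1 h1
    change i < t.length + 1 at h2
    obtain ⟨X, Y, rfl, rfl, h8, h9⟩ := (PlS_iff (t := t) (i := i) (by omega)).1 h3
    have hS : X ++ (pS ++ Y) ∈ SA := h4'
    dsimp only
    rw [pl_take, pl_drop (show X.length + 3 = X.length + pS.length from rfl)]
    exact hf X Y h9 hS h8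

end Gen

end TOG

end HexObs
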