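import Pool.Agent.TOG.Gen
import Pool.Agent.TOG.AbsLim

/-!
TOG, general form: two more letters change the sums of the toggle invariant functions very little.
-/

set_option autoImplicit false

namespace HexObs

namespace TOG

open Finset TS SDN

open scoped ENNReal

namespace Gen

/-- the words with n letters as a finset -/
noncomputable def Sn (n : ℕ) : Finset (List Bool) := (SawN_finite n).toFinset

lemma mem_Sn {n : ℕ} {t : List Bool} : t ∈ Sn n ↔ t ∈ SawN n := Set.Finite.mem_toFinset _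

/-- sum of f over the words with n letters, critical weight -/
noncomputable def TT (f : List Bool → ℝ≥0∞) (n : ℕ) : ℝ≥0∞ := ∑ t ∈ Sn n, wE t * f t

/-- the weights by the numbers of places (r of them, v long) -/
noncomputable def GG (F : Pt → Pt → Prop) (f : List Bool → ℝ≥0∞) (n r v : ℕ) : ℝ≥0∞ :=
  ∑ t ∈ Sn n, ci (uS F t + vL F t = r ∧ vL F t = v) (wE t * f t)

variable {F : Pt → Pt → Prop} {f : List Bool → ℝ≥0∞}

lemma GG_eq (F : Pt → Pt → Prop) (f : List Bool → ℝ≥0∞) (n u v : ℕ) :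
    GG F f n (u + v) v = ENNReal.ofReal (xc ^ n) * WW F f n u v := by
  classical
  unfold GG WW
  rw [Finset.sum_filter, Finset.mul_sum]
  refine Finset.sum_congr rfl fun t ht => ?_
  have hl : wE t = ENNReal.ofReal (xc ^ n) := by
    unfold wE
    rw [(mem_Sn.1 ht).1]
  by_cases h : uS F t = u ∧ vL F t = v
  · rw [ci_pos (by omega), if_pos h, hl]
  · rw [ci_neg (by omega), if_neg h, mul_zero]

lemma GG_lt (F : Pt → Pt → Prop) (f : List Bool → ℝ≥0∞) {n r v : ℕ} (h : r < v) : GG F f n r v = 0 := by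
  unfold GG
  refine Finset.sum_eq_zero fun t _ => ?_
  rw [ci_neg (by omega)]

lemma pS_pL {t A Y Z : List Bool} (h1 : t = A ++ (pS ++ Y)) (h2 : t = A ++ (pL ++ Z)) : False := by
  have h := List.append_cancel_left (h1.symm.trans h2)
  simp [pS, pL] at h

lemma uv_le (F : Pt → Pt → Prop) (t : List Bool) : uS F t + vL F t ≤ t.length + 1 := by
  classical
  unfold uS vL
  rw [← Finset.card_union_of_disjoint]
  · calc _ ≤ (range (t.length + 1)).card := Finset.card_le_card (by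
          intro i hi
          rw [Finset.mem_union, Finset.mem_filter, Finset.mem_filter] at hi
          rcases hi with hi | hi <;> exact hi.1)
      _ = t.length + 1 := card_range _
  · rw [Finset.disjoint_left]
    intro i h1 h2
    rw [Finset.mem_filter] at h1 h2
    obtain ⟨-, -, Y, h3, -⟩ := h1
    obtain ⟨-, -, Z, h4, -⟩ := h2
    exact pS_pL h3 h4

lemma qx : 0 < 1 / xc ^ 2 := by
  have := xc_pos
  positivity

theorem tgs (hF3 : ∀ v c, F v c → (3 : ℤ) ∣ c.1) (hf : FunInv F f) : Tgs (1 / xc ^ 2) (GG F f) := by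
  constructor
  · intro n r v
    rcases Nat.lt_or_ge v r with h | h
    · obtain ⟨u, rfl⟩ : ∃ u, r = (u + 1) + v := ⟨r - (v + 1), by omega⟩
      have e1 : u + 1 + v = u + (v + 1) := by omega
      rw [GG_eq, e1, GG_eq]
      have e2 : u + (v + 1) - v = u + 1 := by omega
      rw [e2]
      have key := togSum hF3 hf n u v
      have e3 : ENNReal.ofReal (1 / xc ^ 2) * ENNReal.ofReal (xc ^ (n + 2)) = ENNReal.ofReal (xc ^ n) := by
        rw [← ENNReal.ofReal_mul qx.le]
        congr 1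
        have := xc_pos
        rw [pow_add]
        field_simp
      calc ((u + 1 : ℕ) : ℝ≥0∞) * (ENNReal.ofReal (xc ^ n) * WW F f n (u + 1) v)
          = ENNReal.ofReal (xc ^ n) * (((u + 1 : ℕ) : ℝ≥0∞) * WW F f n (u + 1) v) := by ring
        _ = ENNReal.ofReal (1 / xc ^ 2) * ENNReal.ofReal (xc ^ (n + 2)) *
            (((v + 1 : ℕ) : ℝ≥0∞) * WW F f (n + 2) u (v + 1)) := by rw [key, e3]
        _ = _ := by ring
    · have e1 : r - v = 0 := by omega
      rw [e1, GG_lt F f (show r < v + 1 by omega)]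
      simp
  · intro n r v h
    unfold GG at h
    obtain ⟨t, ht, h1⟩ := Finset.exists_ne_zero_of_sum_ne_zero h
    by_cases hc : uS F t + vL F t = r ∧ vL F t = v
    · have h2 := uv_le F t
      rw [(mem_Sn.1 ht).1] at h2
      omega
    · rw [ci_neg hc] at h1
      exact absurd rfl h1

lemma tsum_ci (a b : ℕ) (x : ℝ≥0∞) : ∑' p : ℕ × ℕ, ci (a = p.1 ∧ b = p.2) x = x := by
  rw [tsum_eq_single (a, b)]
  · exact ci_pos ⟨rfl, rfl⟩ _
  · intro p hp
    apply ci_neg
    rintro ⟨h1, h2⟩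
    exact hp (Prod.ext h1.symm h2.symm)

lemma ci_sum {ι : Type} (s : Finset ι) (P : Prop) (g : ι → ℝ≥0∞) : ci P (∑ i ∈ s, g i) = ∑ i ∈ s, ci P (g i) := by
  by_cases hP : P
  · rw [ci_pos hP]
    exact Finset.sum_congr rfl fun i _ => (ci_pos hP _).symm
  · rw [ci_neg hP]
    exact (Finset.sum_eq_zero fun i _ => ci_neg hP _).symm

lemma wt_GG (F : Pt → Pt → Prop) (f : List Bool → ℝ≥0∞) (n : ℕ) (P : ℕ → ℕ → Prop) :
    wt (GG F f) n P = ∑ t ∈ Sn n, ci (P (uS F t + vL F t) (vL F t)) (wE t * f t) := by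
  unfold wt GG
  simp_rw [ci_sum]
  rw [Summable.tsum_finsetSum fun _ _ => ENNReal.summable]
  refine Finset.sum_congr rfl fun t _ => ?_
  have h : ∀ p : ℕ × ℕ, ci (P p.1 p.2) (ci (uS F t + vL F t = p.1 ∧ vL F t = p.2) (wE t * f t)) =
      ci (uS F t + vL F t = p.1 ∧ vL F t = p.2) (ci (P (uS F t + vL F t) (vL F t)) (wE t * f t)) := by
    intro p
    by_cases hp : uS F t + vL F t = p.1 ∧ vL F t = p.2
    · rw [ci_pos hp, ci_pos hp, hp.1, hp.2]
    · rw [ci_neg hp, ci_neg hp]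
      by_cases hP : P p.1 p.2
      · rw [ci_pos hP]
      · rw [ci_neg hP]
  simp_rw [h]
  exact tsum_ci _ _ _

lemma tot_GG (F : Pt → Pt → Prop) (f : List Bool → ℝ≥0∞) (n : ℕ) : tot (GG F f) n = TT f n := by
  have h := wt_GG F f n (fun _ _ => True)
  have e : wt (GG F f) n (fun _ _ => True) = tot (GG F f) n := by
    unfold wt tot
    exact tsum_congr fun p => ci_pos trivial _
  rw [← e, h]
  unfold TT
  exact Finset.sum_congr rfl fun t _ => ci_pos trivial _

lemma GG_mono {f g : List Bool → ℝ≥0∞} (h : ∀ t, f t ≤ g t) (n r v : ℕ) : GG F f n r v ≤ GG F g n r v := by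
  unfold GG
  refine Finset.sum_le_sum fun t _ => ?_
  by_cases hc : uS F t + vL F t = r ∧ vL F t = v
  · rw [ci_pos hc, ci_pos hc]
    gcongr
    exact h t
  · rw [ci_neg hc, ci_neg hc]

/-- **the limit theorem for a system of allowed faces** -/
theorem lim_gen (hF3 : ∀ v c, F v c → (3 : ℤ) ∣ c.1) {K : ℕ} {B : ℝ} (hB1 : 1 ≤ B)
    (hT : ∀ n : ℕ, 2 ≤ n → ENNReal.ofReal (1 / (n : ℝ) ^ K) ≤ TT (fun _ => 1) n ∧
      TT (fun _ => 1) n ≤ ENNReal.ofReal ((n : ℝ) ^ K))
    (hB : ∀ n, TT (fun _ => 1) (n + 2) ≤ ENNReal.ofReal B * TT (fun _ => 1) n)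
    (hM : ∀ (V : ℕ) (e : ℝ), 0 < e → ∀ᶠ n : ℕ in Filter.atTop,
      ∑ t ∈ Sn n, ci ((vL F t : ℝ) ≤ V * Real.log n) (wE t) ≤ ENNReal.ofReal e * TT (fun _ => 1) n)
    {e : ℝ} (he : 0 < e) : ∀ᶠ n : ℕ in Filter.atTop, ∀ f : List Bool → ℝ≥0∞, (∀ t, f t ≤ 1) → FunInv F f →
      TT f (n + 2) ≤ TT f n + ENNReal.ofReal e * TT (fun _ => 1) n ∧
      TT f n ≤ TT f (n + 2) + ENNReal.ofReal e * TT (fun _ => 1) n := by
  have h1 : FunInv F (fun _ : List Bool => (1 : ℝ≥0∞)) := fun _ _ _ _ _ => rfl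
  have hq : 1 ≤ 1 / xc ^ 2 := by
    rw [xc_sq, one_div_one_div]
    have := Real.sqrt_nonneg 2
    linarith
  have key := lim_of (tgs hF3 h1) hq hB1 (K := K) (fun n hn => by rw [tot_GG]; exact hT n hn)
    (fun n => by rw [tot_GG, tot_GG]; exact hB n) (fun V e he => by
      filter_upwards [hM V e he] with n hn
      rw [tot_GG, wt_GG]
      refine le_trans (le_of_eq (Finset.sum_congr rfl fun t _ => ?_)) hn
      rw [mul_one]) he
  filter_upwards [key] with n hn f hf1 hf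
  have h2 := hn (GG F f) (tgs hF3 hf) (fun n r v => GG_mono hf1 n r v)
  rw [tot_GG, tot_GG, tot_GG] at h2
  exact h2

end Gen

end TOG

end HexObs
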