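import Pool.Agent.TOG.Long
import Pool.Agent.NUX.Br1
import Pool.Agent.SDN.Frames

/-!
TOG: sums over lists of pieces; the one-step lemma; few blocked cuts; many pieces of one kind.
-/

set_option autoImplicit false

namespace HexObs

namespace TOG

open Finset TS SDN

open scoped ENNReal

lemma xc_le1 : xc ≤ 1 := by
  have h1 : xc ^ 2 = 1 / (2 + Real.sqrt 2) := xc_sq
  have h2 : 0 ≤ Real.sqrt 2 := Real.sqrt_nonneg 2
  have h3 : xc ^ 2 ≤ 1 := by
    rw [h1, div_le_one (by linarith)]
    linarith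
  nlinarith [xc_pos]

/-- mass of a set of lists of pieces -/
noncomputable def gl (S : Set (List (List Bool))) : ℝ≥0∞ := ∑' l : S, wE l.1.flatten

lemma gl_mono {S T : Set (List (List Bool))} (h : S ⊆ T) : gl S ≤ gl T :=
  ENNReal.tsum_mono_subtype (fun l : List (List Bool) => wE l.flatten) h

lemma gl_empty : gl (∅ : Set (List (List Bool))) = 0 := by
  unfold gl
  simp

lemma gl_nil {S : Set (List (List Bool))} (h : S ⊆ {[]}) : gl S ≤ 1 := by
  refine (gl_mono h).trans ?_
  unfold gl
  rw [tsum_singleton ([] : List (List Bool)) (fun l : List (List Bool) => wE l.flatten)]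
  simp [wE]

lemma gl_step (V : ℕ) (S : Set (List (List Bool))) (hS : S ⊆ LV (V + 1)) :
    gl S ≤ ∑' g : IU, wE g.1 * gl {l | l ∈ LV V ∧ g.1 :: l ∈ S} := by
  have key : ∀ l : S, ∃ g : IU, ∃ l' : {l' | l' ∈ LV V ∧ g.1 :: l' ∈ S}, l.1 = g.1 :: l'.1 := by
    rintro ⟨l, hl⟩
    obtain ⟨h1, h2⟩ := hS hl
    match l, hl, h1, h2 with
    | [], _, h1, _ => simp at h1
    | g :: l', hl, h1, h2 =>
      refine ⟨⟨g, h2 g (List.mem_cons_self ..)⟩, ⟨l', ⟨?_, fun x hx => h2 x (List.mem_cons_of_mem _ hx)⟩, hl⟩, rfl⟩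
      simpa using h1
  choose φ ψ h using key
  let F : (Σ g : IU, {l' | l' ∈ LV V ∧ g.1 :: l' ∈ S}) → ℝ≥0∞ := fun p => wE p.1.1 * wE p.2.1.flatten
  let χ : S → Σ g : IU, {l' | l' ∈ LV V ∧ g.1 :: l' ∈ S} := fun l => ⟨φ l, ψ l⟩
  have hχ : Function.Injective χ := by
    intro a b hab
    apply Subtype.ext
    rw [h a, h b]
    exact congrArg (fun p : (Σ g : IU, {l' | l' ∈ LV V ∧ g.1 :: l' ∈ S}) => p.1.1 :: p.2.1) hab
  calc gl S = ∑' l : S, F (χ l) := by
        unfold gl
        refine tsum_congr fun l => ?_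
        show wE l.1.flatten = wE (φ l).1 * wE (ψ l).1.flatten
        rw [← wE_append, h l]
        simp
    _ ≤ ∑' p, F p := ENNReal.tsum_comp_le_tsum_of_injective hχ F
    _ = ∑' g : IU, ∑' l' : {l' | l' ∈ LV V ∧ g.1 :: l' ∈ S}, wE g.1 * wE l'.1.flatten := ENNReal.tsum_sigma' F
    _ = _ := by
        refine tsum_congr fun g => ?_
        rw [ENNReal.tsum_mul_left]
        rfl

lemma wE_le_one (t : List Bool) : wE t ≤ 1 := by
  unfold wE
  rw [ENNReal.ofReal_le_one]
  exact pow_le_one₀ xc_pos.le xc_le1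

open Classical in
/-- the one-step lemma -/
theorem step1 {p : List Bool} (hp : p ∈ IU) (V : ℕ) (S : Set (List (List Bool))) (hS : S ⊆ LV (V + 1)) {B c : ℝ}
    (hB : 0 ≤ B) (hc : 0 ≤ c)
    (h1 : ∀ g ∈ IU, g ≠ p → gl {l | l ∈ LV V ∧ g :: l ∈ S} ≤ ENNReal.ofReal B)
    (h2 : gl {l | l ∈ LV V ∧ p :: l ∈ S} ≤ ENNReal.ofReal (c * B)) :
    gl S ≤ ENNReal.ofReal ((1 - (1 - c) * xc ^ p.length) * B) := by
  have hw : wE p = ENNReal.ofReal (xc ^ p.length) := rfl
  have hw1 : xc ^ p.length ≤ 1 := pow_le_one₀ xc_pos.le xc_le1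
  have hw0 : 0 < xc ^ p.length := pow_pos xc_pos _
  let P : IU := ⟨p, hp⟩
  have hsum : wE p + ∑' g : IU, (if g = P then 0 else wE g.1) = 1 := by
    rw [← BrL.gf_IU]
    unfold gf
    have := ENNReal.tsum_eq_add_tsum_ite (f := fun g : IU => wE g.1) P
    convert this.symm
  have hW : ∑' g : IU, (if g = P then 0 else wE g.1) = ENNReal.ofReal (1 - xc ^ p.length) := by
    have h3 : ∑' g : IU, (if g = P then 0 else wE g.1) = 1 - wE p := by
      rw [← hsum]
      exact (ENNReal.add_sub_cancel_left (wE_ne_top p)).symm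
    rw [h3, hw, ENNReal.ofReal_sub _ hw0.le, ENNReal.ofReal_one]
  calc gl S ≤ ∑' g : IU, wE g.1 * gl {l | l ∈ LV V ∧ g.1 :: l ∈ S} := gl_step V S hS
    _ = wE p * gl {l | l ∈ LV V ∧ p :: l ∈ S} +
        ∑' g : IU, (if g = P then 0 else wE g.1 * gl {l | l ∈ LV V ∧ g.1 :: l ∈ S}) := by
        have := ENNReal.tsum_eq_add_tsum_ite (f := fun g : IU => wE g.1 * gl {l | l ∈ LV V ∧ g.1 :: l ∈ S}) P
        convert this
    _ ≤ wE p * ENNReal.ofReal (c * B) + ∑' g : IU, (if g = P then 0 else wE g.1) * ENNReal.ofReal B := by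
        refine add_le_add (by gcongr) (ENNReal.tsum_le_tsum fun g => ?_)
        by_cases hg : g = P
        · rw [if_pos hg, if_pos hg, zero_mul]
        · rw [if_neg hg, if_neg hg]
          gcongr
          exact h1 g.1 g.2 fun h => hg (Subtype.ext h)
    _ = ENNReal.ofReal ((1 - (1 - c) * xc ^ p.length) * B) := by
        rw [ENNReal.tsum_mul_right, hW, hw, ← ENNReal.ofReal_mul hw0.le, ← ENNReal.ofReal_mul (by linarith),
          ← ENNReal.ofReal_add (by positivity) (mul_nonneg (by linarith) hB)]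
        congr 1
        ring

/-- the total mass of the lists with V pieces -/
theorem gl_LV (V : ℕ) : gl (LV V) ≤ 1 := by
  induction V with
  | zero => exact gl_nil fun l hl => List.length_eq_zero_iff.1 hl.1
  | succ V ih =>
    refine (gl_step V _ Set.Subset.rfl).trans ?_
    calc ∑' g : IU, wE g.1 * gl {l | l ∈ LV V ∧ g.1 :: l ∈ LV (V + 1)} ≤ ∑' g : IU, wE g.1 * 1 := by
          refine ENNReal.tsum_le_tsum fun g => ?_
          gcongr
          exact (gl_mono fun l hl => hl.1).trans ih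
      _ = 1 := by
          simp_rw [mul_one]
          exact BrL.gf_IU

open Classical in
/-- number of the cuts k < length l, seen from A, where the piece p is blocked -/
noncomputable def nbk (p A : List Bool) (l : List (List Bool)) : ℕ :=
  ∑ k ∈ range l.length, if A ++ ((l.take k).flatten ++ p) ∈ SA then 0 else 1

open Classical in
lemma nbk_cons (p A g : List Bool) (l : List (List Bool)) :
    nbk p A (g :: l) = nbk p (A ++ g) l + if A ++ p ∈ SA then 0 else 1 := by
  unfold nbk
  rw [List.length_cons, sum_range_succ']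
  congr 1
  refine sum_congr rfl fun k _ => ?_
  simp [List.append_assoc]

/-- **each blocked cut costs a factor 1 - (weight of the blocked piece)** -/
theorem blk_le {p : List Bool} (hp : p ∈ IU) (V : ℕ) : ∀ (A : List Bool) (s : ℕ),
    gl {l | l ∈ LV V ∧ A ++ l.flatten ∈ SA ∧ s ≤ nbk p A l} ≤ ENNReal.ofReal ((1 - xc ^ p.length) ^ s) := by
  have hw1 : xc ^ p.length ≤ 1 := pow_le_one₀ xc_pos.le xc_le1
  have hw0 : 0 < xc ^ p.length := pow_pos xc_pos _
  induction V with
  | zero =>
    intro A s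
    rcases Nat.eq_zero_or_pos s with rfl | hs
    · rw [pow_zero, ENNReal.ofReal_one]
      exact gl_nil fun l hl => List.length_eq_zero_iff.1 hl.1.1
    · refine le_trans (gl_mono (T := ∅) fun l hl => ?_) (by rw [gl_empty]; exact zero_le)
      obtain ⟨h1, -, h3⟩ := hl
      have : l = [] := List.length_eq_zero_iff.1 h1.1
      rw [this] at h3
      simp only [nbk, List.length_nil, range_zero, sum_empty] at h3
      omega
  | succ V ih =>
    intro A s
    by_cases hA : A ++ p ∈ SA
    · have h0 := step1 hp V {l | l ∈ LV (V + 1) ∧ A ++ l.flatten ∈ SA ∧ s ≤ nbk p A l} (fun l hl => hl.1)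
        (B := (1 - xc ^ p.length) ^ s) (c := 1) (pow_nonneg (by linarith) _) zero_le_one
      rw [sub_self, zero_mul, sub_zero, one_mul] at h0
      have key : ∀ g, gl {l | l ∈ LV V ∧ g :: l ∈ {l | l ∈ LV (V + 1) ∧ A ++ l.flatten ∈ SA ∧ s ≤ nbk p A l}} ≤
          ENNReal.ofReal ((1 - xc ^ p.length) ^ s) := by
        intro g
        refine le_trans (gl_mono fun l hl => ?_) (ih (A ++ g) s)
        obtain ⟨h1, -, h3, h4⟩ := hl
        refine ⟨h1, ?_, ?_⟩
        · rwa [List.flatten_cons, ← List.append_assoc] at h3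
        · rwa [nbk_cons, if_pos hA, add_zero] at h4
      exact h0 (fun g _ _ => key g) (key p)
    · rcases Nat.eq_zero_or_pos s with rfl | hs
      · rw [pow_zero, ENNReal.ofReal_one]
        exact (gl_mono fun l hl => hl.1).trans (gl_LV _)
      · obtain ⟨s, rfl⟩ : ∃ s', s = s' + 1 := ⟨s - 1, by omega⟩
        have h0 := step1 hp V {l | l ∈ LV (V + 1) ∧ A ++ l.flatten ∈ SA ∧ s + 1 ≤ nbk p A l} (fun l hl => hl.1)
          (B := (1 - xc ^ p.length) ^ s) (c := 0) (pow_nonneg (by linarith) _) le_rfl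
        rw [sub_zero, one_mul] at h0
        rw [pow_succ, mul_comm]
        refine h0 (fun g _ _ => ?_) ?_
        · refine le_trans (gl_mono fun l hl => ?_) (ih (A ++ g) s)
          obtain ⟨h1, -, h3, h4⟩ := hl
          refine ⟨h1, ?_, ?_⟩
          · rwa [List.flatten_cons, ← List.append_assoc] at h3
          · rw [nbk_cons, if_neg hA] at h4
            omega
        · refine le_trans (gl_mono (T := ∅) fun l hl => ?_) (by rw [gl_empty]; exact zero_le)
          obtain ⟨-, -, h3, -⟩ := hl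
          apply hA
          rw [List.flatten_cons, ← List.append_assoc] at h3
          have := SA_take h3 (A ++ p).length
          rwa [List.take_left] at this

end TOG

end HexObs
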