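import Pool.Agent.TOG.Col

/-!
TOG: the pieces used: the piece with a long place, the two blocking pieces.
-/

set_option autoImplicit false

namespace HexObs

namespace TOG

open Finset TS SDN

open scoped ENNReal

/-- the piece with a long place behind its first letter: R ++ (L R R R L) ++ L L R L -/
def ks : List Bool := [false, true, false, false, false, true, true, true, false, true]

/-- the same piece with the short place -/
def ks' : List Bool := [false, false, true, false, true, true, false, true]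

/-- the piece blocked by the past -/
def p1 : List Bool := [false, false, true, true]

/-- the piece blocked by the future (of the reversed walk) -/
def p2 : List Bool := [false, true, false, false, true, false, false, true, true, true, false, true]

/-- irreducibility from a finite check -/
lemma irr_chk {w : List Bool} {T : ℕ} (hB : w ∈ Brd T) (hne : w ≠ [])
    (h : ∀ j, j < w.length → 0 < j → ¬ (dx up (w.take j) j = up ∧ (∀ i, i < j → lev (w.take j) i ≤ lev (w.take j) j) ∧
      ∀ i, i < (w.drop j).length → 0 < lev (w.drop j) (i + 1))) : w ∈ IU := by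
  refine ⟨T, hB, hne, ?_⟩
  intro a b s u hs hu he
  by_contra hc
  push Not at hc
  have hs0 : 0 < s.length := List.length_pos_iff.2 hc.1
  have hu0 : 0 < u.length := List.length_pos_iff.2 hc.2
  have e1 : w.take s.length = s := by rw [he, List.take_left]
  have e2 : w.drop s.length = u := by rw [he, List.drop_left]
  have hl : w.length = s.length + u.length := by rw [he, List.length_append]
  rw [mem_Brd] at hs hu
  apply h s.length (by omega) hs0
  rw [e1, e2]
  refine ⟨hs.2.2.1, fun i hi => ?_, fun i hi => (hu.1 (i + 1) (by omega) (by omega)).1⟩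
  rw [hs.2.2.2]
  rcases Nat.eq_zero_or_pos i with rfl | h0
  · rw [lev_zero]
    positivity
  · exact (hs.1 i h0 hi.le).2

lemma ks_Brd : ks ∈ Brd 2 := by
  rw [mem_Brd]
  have e : ks.length = 10 := rfl
  refine ⟨?_, ?_, by decide, by decide⟩
  · rw [e]
    have : ∀ i, i < 10 → 0 < lev ks (i + 1) ∧ lev ks (i + 1) ≤ 3 * ((2 : ℕ) : ℤ) := by decide
    intro i h1 h2
    have := this (i - 1) (by omega)
    rwa [Nat.sub_add_cancel h1] at this
  · rw [e]
    have : ∀ k, k < 11 → ∀ i, i < k → vx oo up ks i ≠ vx oo up ks k := by decide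
    intro i k hik hk
    exact this k (by omega) i hik

lemma p1_Brd : p1 ∈ Brd 1 := by
  rw [mem_Brd]
  have e : p1.length = 4 := rfl
  refine ⟨?_, ?_, by decide, by decide⟩
  · rw [e]
    have : ∀ i, i < 4 → 0 < lev p1 (i + 1) ∧ lev p1 (i + 1) ≤ 3 * ((1 : ℕ) : ℤ) := by decide
    intro i h1 h2
    have := this (i - 1) (by omega)
    rwa [Nat.sub_add_cancel h1] at this
  · rw [e]
    have : ∀ k, k < 5 → ∀ i, i < k → vx oo up p1 i ≠ vx oo up p1 k := by decide
    intro i k hik hk
    exact this k (by omega) i hik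

lemma p2_Brd : p2 ∈ Brd 2 := by
  rw [mem_Brd]
  have e : p2.length = 12 := rfl
  refine ⟨?_, ?_, by decide, by decide⟩
  · rw [e]
    have : ∀ i, i < 12 → 0 < lev p2 (i + 1) ∧ lev p2 (i + 1) ≤ 3 * ((2 : ℕ) : ℤ) := by decide
    intro i h1 h2
    have := this (i - 1) (by omega)
    rwa [Nat.sub_add_cancel h1] at this
  · rw [e]
    have : ∀ k, k < 13 → ∀ i, i < k → vx oo up p2 i ≠ vx oo up p2 k := by decide
    intro i k hik hk
    exact this k (by omega) i hik

lemma ks_IU : ks ∈ IU := irr_chk ks_Brd (by decide) (by decide)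

lemma p1_IU : p1 ∈ IU := irr_chk p1_Brd (by decide) (by decide)

lemma p2_IU : p2 ∈ IU := irr_chk p2_Brd (by decide) (by decide)

lemma rl_Brd : [false, true] ∈ Brd 1 := by
  rw [mem_Brd]
  refine ⟨?_, ?_, by decide, by decide⟩
  · have : ∀ i, i < 2 → 0 < lev [false, true] (i + 1) ∧ lev [false, true] (i + 1) ≤ 3 * ((1 : ℕ) : ℤ) := by decide
    intro i h1 h2
    have h3 : i ≤ 2 := h2
    have := this (i - 1) (by omega)
    rwa [Nat.sub_add_cancel h1] at this
  · have : ∀ k, k < 3 → ∀ i, i < k → vx oo up [false, true] i ≠ vx oo up [false, true] k := by decide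
    intro i k hik hk
    have h3 : k ≤ 2 := hk
    exact this k (by omega) i hik

lemma lr_Brd : [true, false] ∈ Brd 1 := by
  rw [mem_Brd]
  refine ⟨?_, ?_, by decide, by decide⟩
  · have : ∀ i, i < 2 → 0 < lev [true, false] (i + 1) ∧ lev [true, false] (i + 1) ≤ 3 * ((1 : ℕ) : ℤ) := by decide
    intro i h1 h2
    have h3 : i ≤ 2 := h2
    have := this (i - 1) (by omega)
    rwa [Nat.sub_add_cancel h1] at this
  · have : ∀ k, k < 3 → ∀ i, i < k → vx oo up [true, false] i ≠ vx oo up [true, false] k := by decide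
    intro i k hik hk
    have h3 : k ≤ 2 := hk
    exact this k (by omega) i hik

lemma rl_IU : [false, true] ∈ IU := irr_chk rl_Brd (by decide) (by decide)

lemma lr_IU : [true, false] ∈ IU := irr_chk lr_Brd (by decide) (by decide)

open Classical in
/-- number of the pieces ks at a cut of the right colour, seen from A -/
noncomputable def ncl (A : List Bool) (l : List (List Bool)) : ℕ :=
  ∑ k ∈ range l.length, if l[k]? = some ks ∧ RC (A ++ (l.take k).flatten) then 1 else 0

open Classical in
lemma ncl_cons (A g : List Bool) (l : List (List Bool)) :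
    ncl A (g :: l) = ncl (A ++ g) l + if g = ks ∧ RC A then 1 else 0 := by
  unfold ncl
  rw [List.length_cons, sum_range_succ']
  congr 1
  · refine sum_congr rfl fun k _ => ?_
    simp [List.append_assoc]
  · simp

open Classical in
/-- **many pieces ks at cuts of the right colour** -/
theorem cnt_le (V : ℕ) : ∀ (A : List Bool) (m : ℕ),
    gl {l | l ∈ LV V ∧ ncl A l ≤ m} ≤ ENNReal.ofReal ((if RC A then 1 - xc ^ 10 / 4 else 1) *
      (2 ^ m * (1 - xc ^ 2 * xc ^ 10 / 4) ^ V * 2)) := by
  have hx := xc_pos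
  have ha : xc ^ 2 ≤ 1 := pow_le_one₀ xc_pos.le xc_le1
  have ha0 : 0 < xc ^ 2 := pow_pos hx 2
  have hw : xc ^ 10 ≤ 1 := pow_le_one₀ xc_pos.le xc_le1
  have hw0 : 0 < xc ^ 10 := pow_pos hx 10
  set w := xc ^ 10 with hwd
  set a := xc ^ 2 with had
  have hρ0 : 0 ≤ 1 - a * w / 4 := by nlinarith
  induction V with
  | zero =>
    intro A m
    refine (gl_nil fun l hl => List.length_eq_zero_iff.1 hl.1.1).trans ?_
    rw [pow_zero, mul_one, ENNReal.one_le_ofReal]
    have h1 : (1 : ℝ) ≤ 2 ^ m := one_le_pow₀ (by norm_num)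
    split_ifs <;> nlinarith
  | succ V ih =>
    intro A m
    have hB : 0 ≤ 2 ^ m * (1 - a * w / 4) ^ V * 2 := by positivity
    have gen : ∀ (A' : List Bool) (m' : ℕ), gl {l | l ∈ LV V ∧ ncl A' l ≤ m'} ≤
        ENNReal.ofReal (2 ^ m' * (1 - a * w / 4) ^ V * 2) := by
      intro A' m'
      refine (ih A' m').trans (ENNReal.ofReal_le_ofReal ?_)
      have h1 : 0 ≤ 2 ^ m' * (1 - a * w / 4) ^ V * 2 := by positivity
      split_ifs <;> nlinarith
    have oth : ∀ g ∈ IU, gl {l | l ∈ LV V ∧ g :: l ∈ {l | l ∈ LV (V + 1) ∧ ncl A l ≤ m}} ≤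
        ENNReal.ofReal (2 ^ m * (1 - a * w / 4) ^ V * 2) := by
      intro g _
      refine le_trans (gl_mono fun l hl => ?_) (gen (A ++ g) m)
      obtain ⟨h1, -, h3⟩ := hl
      rw [ncl_cons] at h3
      exact ⟨h1, by omega⟩
    by_cases hA : RC A
    · rw [if_pos hA]
      have h0 := step1 ks_IU V {l | l ∈ LV (V + 1) ∧ ncl A l ≤ m} (fun l hl => hl.1) hB (c := 1 / 2) (by norm_num)
        (fun g hg _ => oth g hg) ?_
      · have e : ks.length = 10 := rfl
        rw [e, ← hwd] at h0
        refine h0.trans (ENNReal.ofReal_le_ofReal ?_)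
        rw [pow_succ]
        have h2 : (1 - (1 - 1 / 2) * w) ≤ (1 - w / 4) * (1 - a * w / 4) := by nlinarith [mul_pos ha0 hw0]
        calc (1 - (1 - 1 / 2) * w) * (2 ^ m * (1 - a * w / 4) ^ V * 2) ≤
            ((1 - w / 4) * (1 - a * w / 4)) * (2 ^ m * (1 - a * w / 4) ^ V * 2) :=
              mul_le_mul_of_nonneg_right h2 hB
          _ = _ := by ring
      · rcases Nat.eq_zero_or_pos m with rfl | hm
        · refine le_trans (gl_mono (T := ∅) fun l hl => ?_) (by rw [gl_empty]; exact zero_le)
          obtain ⟨-, -, h3⟩ := hl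
          rw [ncl_cons, if_pos ⟨rfl, hA⟩] at h3
          omega
        · refine (le_trans (gl_mono fun l hl => ?_) (gen (A ++ ks) (m - 1))).trans (ENNReal.ofReal_le_ofReal ?_)
          · obtain ⟨h1, -, h3⟩ := hl
            rw [ncl_cons, if_pos ⟨rfl, hA⟩] at h3
            exact ⟨h1, by omega⟩
          · obtain ⟨m, rfl⟩ : ∃ m', m = m' + 1 := ⟨m - 1, by omega⟩
            rw [Nat.add_sub_cancel, pow_succ]
            apply le_of_eq
            ring
    · rw [if_neg hA, one_mul]
      have h5 : ∃ p : List Bool, p ∈ IU ∧ p.length = 2 ∧ RC (A ++ p) := by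
        rcases rc_or A with h | h | h
        · exact absurd h hA
        · exact ⟨_, rl_IU, rfl, h⟩
        · exact ⟨_, lr_IU, rfl, h⟩
      obtain ⟨p, hp, hpl, hpr⟩ := h5
      have h0 := step1 hp V {l | l ∈ LV (V + 1) ∧ ncl A l ≤ m} (fun l hl => hl.1) hB (c := 1 - w / 4) (by linarith)
        (fun g hg _ => oth g hg) ?_
      · rw [hpl, ← had] at h0
        refine h0.trans (ENNReal.ofReal_le_ofReal (le_of_eq ?_))
        rw [pow_succ]
        ring
      · refine le_trans (gl_mono fun l hl => ?_) ((ih (A ++ p) m).trans (ENNReal.ofReal_le_ofReal ?_))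
        · obtain ⟨h1, -, h3⟩ := hl
          rw [ncl_cons] at h3
          exact ⟨h1, by omega⟩
        · rw [if_pos hpr]

end TOG

end HexObs
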