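import Pool.Agent.TOG.Ev

/-!
TOG: places and states of the faces.
-/

set_option autoImplicit false

namespace HexObs

namespace TOG

open Finset TS SDN

/-- the part of the list behind the place -/
def eQ (X Y : List Bool) : List (Pt × Pt × Bool) := ev (ctr X + rotR (fd up X)) (rotR (fd up X)) Y

lemma evS (X Y : List Bool) : ev oo up (X ++ (pS ++ Y)) = ev oo up X ++
    ([(ctr X - fd up X, fd up X, false), (ctr X - rotL (fd up X), rotR (fd up X), true),
      (ctr X + rotR (fd up X), fd up X, false)] ++ eQ X Y) := by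
  rw [ev_append, ev_pS, eQ]
  have h := rLR_add (fd up X)
  have e1 : fv oo up X + fd up X = ctr X - fd up X := by
    rw [ctr_eq]
    abel
  have e2 : ctr X - fd up X + rotR (fd up X) = ctr X - rotL (fd up X) := by
    rw [← sub_eq_zero]
    have : ctr X - fd up X + rotR (fd up X) - (ctr X - rotL (fd up X)) =
      rotL (fd up X) + rotR (fd up X) - fd up X := by abel
    rw [this, h, sub_self]
  have e3 : ctr X - rotL (fd up X) + fd up X = ctr X + rotR (fd up X) := by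
    rw [← sub_eq_zero]
    have : ctr X - rotL (fd up X) + fd up X - (ctr X + rotR (fd up X)) =
      fd up X - (rotL (fd up X) + rotR (fd up X)) := by abel
    rw [this, h, sub_self]
  rw [e1, e2, e3]

lemma evL (X Y : List Bool) : ev oo up (X ++ (pL ++ Y)) = ev oo up X ++
    ([(ctr X - fd up X, fd up X, true), (ctr X - rotR (fd up X), rotL (fd up X), false),
      (ctr X + rotL (fd up X), fd up X, false), (ctr X + fd up X, rotR (fd up X), false),
      (ctr X + rotR (fd up X), - rotL (fd up X), true)] ++ eQ X Y) := by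
  rw [ev_append, ev_pL, eQ]
  have h := rLR_add (fd up X)
  have e1 : fv oo up X + fd up X = ctr X - fd up X := by
    rw [ctr_eq]
    abel
  have e2 : ctr X - fd up X + rotL (fd up X) = ctr X - rotR (fd up X) := by
    rw [← sub_eq_zero]
    have : ctr X - fd up X + rotL (fd up X) - (ctr X - rotR (fd up X)) =
      rotL (fd up X) + rotR (fd up X) - fd up X := by abel
    rw [this, h, sub_self]
  have e3 : ctr X - rotR (fd up X) + fd up X = ctr X + rotL (fd up X) := by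
    rw [← sub_eq_zero]
    have : ctr X - rotR (fd up X) + fd up X - (ctr X + rotL (fd up X)) =
      fd up X - (rotL (fd up X) + rotR (fd up X)) := by abel
    rw [this, h, sub_self]
  have e4 : ctr X - fd up X + rotR (fd up X) + fd up X = ctr X + rotR (fd up X) := by abel
  have e5 : ctr X + rotR (fd up X) + rotL (fd up X) = ctr X + fd up X := by
    rw [add_assoc, add_comm (rotR _), h]
  rw [e1, e2, e3, e4, e5]

lemma vlS (X Y : List Bool) : vl oo up (X ++ (pS ++ Y)) = vl oo up X ++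
    ([ctr X - fd up X, ctr X - rotL (fd up X), ctr X + rotR (fd up X)] ++ (eQ X Y).map Prod.fst) := by
  unfold vl
  rw [evS]
  simp

lemma vlL (X Y : List Bool) : vl oo up (X ++ (pL ++ Y)) = vl oo up X ++
    ([ctr X - fd up X, ctr X - rotR (fd up X), ctr X + rotL (fd up X), ctr X + fd up X,
      ctr X + rotR (fd up X)] ++ (eQ X Y).map Prod.fst) := by
  unfold vl
  rw [evL]
  simp

lemma nd_SL {P Q : List Pt} {a b c x y z : Pt} (h : (P ++ ([a, b, c] ++ Q)).Nodup)
    (hx : x ∉ P ++ ([a, b, c] ++ Q)) (hy : y ∉ P ++ ([a, b, c] ++ Q)) (hz : z ∉ P ++ ([a, b, c] ++ Q))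
    (h1 : x ≠ y) (h2 : x ≠ z) (h3 : y ≠ z) : (P ++ ([a, x, y, z, c] ++ Q)).Nodup := by
  simp only [List.nodup_append, List.cons_append, List.nil_append, List.nodup_cons, List.mem_cons, List.mem_append,
    not_or] at h hx hy hz ⊢
  obtain ⟨hP, ⟨⟨ha1, ha2, ha3⟩, ⟨hb1, hb2⟩, hc, hQ⟩, hPQ⟩ := h
  obtain ⟨x1, x2, x3, x4, x5⟩ := hx
  obtain ⟨y1, y2, y3, y4, y5⟩ := hy
  obtain ⟨z1, z2, z3, z4, z5⟩ := hz
  refine ⟨hP, ⟨⟨Ne.symm x2, Ne.symm y2, Ne.symm z2, ha2, ha3⟩, ⟨h1, h2, x4, x5⟩, ⟨h3, y4, y5⟩, ⟨z4, z5⟩, hc, hQ⟩, ?_⟩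
  intro u hu w hw
  rcases hw with rfl | rfl | rfl | rfl | rfl | hw
  · exact hPQ u hu w (Or.inl rfl)
  · rintro rfl
    exact x1 hu
  · rintro rfl
    exact y1 hu
  · rintro rfl
    exact z1 hu
  · exact hPQ u hu w (Or.inr (Or.inr (Or.inl rfl)))
  · exact hPQ u hu w (Or.inr (Or.inr (Or.inr hw)))

lemma nd_LS {P Q : List Pt} {a b c x y z : Pt} (h : (P ++ ([a, x, y, z, c] ++ Q)).Nodup)
    (hb : b ∉ P ++ ([a, x, y, z, c] ++ Q)) : (P ++ ([a, b, c] ++ Q)).Nodup := by
  simp only [List.nodup_append, List.cons_append, List.nil_append, List.nodup_cons, List.mem_cons, List.mem_append,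
    not_or] at h hb ⊢
  obtain ⟨hP, ⟨⟨ha1, ha2, ha3, ha4, ha5⟩, -, -, -, hc, hQ⟩, hPQ⟩ := h
  obtain ⟨b1, b2, -, -, -, b3, b4⟩ := hb
  refine ⟨hP, ⟨⟨Ne.symm b2, ha4, ha5⟩, ⟨b3, b4⟩, hc, hQ⟩, ?_⟩
  intro u hu w hw
  rcases hw with rfl | rfl | rfl | hw
  · exact hPQ u hu w (Or.inl rfl)
  · rintro rfl
    exact b1 hu
  · exact hPQ u hu w (Or.inr (Or.inr (Or.inr (Or.inr (Or.inl rfl)))))
  · exact hPQ u hu w (Or.inr (Or.inr (Or.inr (Or.inr (Or.inr hw)))))

/-- the six vertices of a face are different -/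
lemma hex_ne {d : Pt} (h : d ∈ dirs) (c : Pt) :
    c - rotR d ≠ c + rotL d ∧ c - rotR d ≠ c + d ∧ c + rotL d ≠ c + d ∧ c - d ≠ c - rotL d ∧ c - rotL d ≠ c + rotR d ∧
    c - d ≠ c + rotR d ∧ c - rotL d ≠ c - rotR d ∧ c - rotL d ≠ c + rotL d ∧ c - rotL d ≠ c + d := by
  have key : - rotR d ≠ rotL d ∧ - rotR d ≠ d ∧ rotL d ≠ d ∧ - d ≠ - rotL d ∧ - rotL d ≠ rotR d ∧ - d ≠ rotR d ∧
      - rotL d ≠ - rotR d ∧ - rotL d ≠ rotL d ∧ - rotL d ≠ d := by
    revert d
    decide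
  obtain ⟨k1, k2, k3, k4, k5, k6, k7, k8, k9⟩ := key
  simp only [sub_eq_add_neg]
  refine ⟨?_, ?_, ?_, ?_, ?_, ?_, ?_, ?_, ?_⟩
  · exact fun h => k1 (add_left_cancel h)
  · exact fun h => k2 (add_left_cancel h)
  · exact fun h => k3 (add_left_cancel h)
  · exact fun h => k4 (add_left_cancel h)
  · exact fun h => k5 (add_left_cancel h)
  · exact fun h => k6 (add_left_cancel h)
  · exact fun h => k7 (add_left_cancel h)
  · exact fun h => k8 (add_left_cancel h)
  · exact fun h => k9 (add_left_cancel h)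

/-- a place gives the short state of its face -/
lemma Sh_of {X Y : List Bool} (h2 : X ++ (pL ++ Y) ∈ SA) :
    Sh (X ++ (pS ++ Y)) (ctr X) (fd up X) := by
  have hn := hex_ne (fd_mem up_mem X) (ctr X)
  obtain ⟨k1, k2, k3, k4, k5, k6, k7, k8, k9⟩ := hn
  rw [mem_SA, vlL] at h2
  unfold Sh
  rw [vlS, evS]
  simp only [List.nodup_append, List.cons_append, List.nil_append, List.nodup_cons, List.mem_cons, List.mem_append,
    not_or] at h2 ⊢
  obtain ⟨-, ⟨⟨a1, a2, a3, a4, a5⟩, ⟨b1, b2, b3, b4⟩, ⟨c1, c2, c3⟩, ⟨d1, d2⟩, ⟨e1, hQ⟩⟩, hPQ⟩ := h2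
  refine ⟨by simp, by simp, by simp, ?_, ?_, ?_⟩
  · refine ⟨fun h => hPQ _ h _ (Or.inr (Or.inr (Or.inr (Or.inl rfl)))) rfl, Ne.symm a3, Ne.symm k9, d1, d2⟩
  · refine ⟨fun h => hPQ _ h _ (Or.inr (Or.inr (Or.inl rfl))) rfl, Ne.symm a2, Ne.symm k8, c2, c3⟩
  · refine ⟨fun h => hPQ _ h _ (Or.inr (Or.inl rfl)) rfl, Ne.symm a1, Ne.symm k7, b3, b4⟩

/-- a place gives the long state of its face -/
lemma Lo_of {X Y : List Bool} (h1 : X ++ (pS ++ Y) ∈ SA) :
    Lo (X ++ (pL ++ Y)) (ctr X) (fd up X) := by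
  have hn := hex_ne (fd_mem up_mem X) (ctr X)
  obtain ⟨k1, k2, k3, k4, k5, k6, k7, k8, k9⟩ := hn
  rw [mem_SA, vlS] at h1
  unfold Lo
  rw [vlL, evL]
  simp only [List.nodup_append, List.cons_append, List.nil_append, List.nodup_cons, List.mem_cons, List.mem_append,
    not_or] at h1 ⊢
  obtain ⟨-, ⟨⟨a1, a2⟩, ⟨b1, b2⟩, c1, hQ⟩, hPQ⟩ := h1
  refine ⟨by simp, by simp, by simp, by simp, by simp, ?_⟩
  exact ⟨fun h => hPQ _ h _ (Or.inr (Or.inl rfl)) rfl, Ne.symm k4, k7, k8, k9, k5, b2⟩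

/-- the letter behind X, from the list -/
lemma nxt {X Y : List Bool} {b' : Bool} (ht : X ++ Y ∈ SA)
    (h : (fv oo up X + fd up X, fd up X, b') ∈ ev oo up (X ++ Y)) : ∃ Y', Y = b' :: Y' := by
  obtain ⟨X', Y', h1, h2, h3⟩ := ev_split h
  rw [h3] at h2
  have h4 : fv oo up X' = fv oo up X := add_right_cancel h2
  have hl : (X ++ Y).length = X.length + Y.length := List.length_append
  have hl' : (X ++ Y).length = X'.length + (Y'.length + 1) := by
    rw [h1, List.length_append, List.length_cons]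
  have h5 : X'.length = X.length := by
    by_contra hne
    have e1 : vx oo up (X ++ Y) X.length = vx oo up (X ++ Y) X'.length := by
      rw [← vx_fv, h1, ← vx_fv]
      exact h4.symm
    rcases Nat.lt_or_gt_of_ne hne with h6 | h6
    · exact ht.inj _ _ h6 (by omega) e1.symm
    · exact ht.inj _ _ h6 (by omega) e1
  have h6 := List.append_inj h1 h5.symm
  exact ⟨Y', h6.2⟩

lemma nxt' {X Y : List Bool} {b b' : Bool} {p e : Pt} (ht : X ++ b :: Y ∈ SA)
    (h : (p, e, b') ∈ ev oo up (X ++ b :: Y)) (he : e = turn b (fd up X))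
    (hp : p = fv oo up X + fd up X + turn b (fd up X)) : ∃ Y', Y = b' :: Y' := by
  have e1 : X ++ b :: Y = (X ++ [b]) ++ Y := by simp
  rw [e1] at ht h
  apply nxt ht
  rw [fv_append, fd_append]
  rw [he, hp] at h
  exact h

/-- the face c in short state gives a place -/
lemma place_of_Sh {t : List Bool} {c d : Pt} (ht : t ∈ SA) (h : Sh t c d) :
    ∃ X Y, t = X ++ (pS ++ Y) ∧ X ++ (pL ++ Y) ∈ SA ∧ ctr X = c ∧ fd up X = d := by
  obtain ⟨h0, h1, h2, h3, h4, h5⟩ := h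
  obtain ⟨X, Y, e1, e2, e3⟩ := ev_split h0
  have hc : ctr X = c := by
    rw [ctr_eq, e2, e3]
    abel
  have hrl := rLR_add d
  have hr : c - d + rotR d = c - rotL d := by
    rw [← sub_eq_zero]
    have : c - d + rotR d - (c - rotL d) = rotL d + rotR d - d := by abel
    rw [this, hrl, sub_self]
  have hr2 : c - rotL d + d = c + rotR d := by
    rw [← sub_eq_zero]
    have : c - rotL d + d - (c + rotR d) = d - (rotL d + rotR d) := by abel
    rw [this, hrl, sub_self]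
  obtain ⟨Y1, rfl⟩ : ∃ Y1, Y = true :: Y1 := by
    refine nxt' (e1 ▸ ht) (e1 ▸ h1) ?_ ?_
    · rw [e3]
      rfl
    · rw [e2, e3]
      exact hr.symm
  have e4 : X ++ false :: true :: Y1 = (X ++ [false]) ++ true :: Y1 := by simp
  have f1 : fd up (X ++ [false]) = rotR d := by
    rw [fd_append, e3]
    rfl
  have g1 : fv oo up (X ++ [false]) = c - d := by
    rw [fv_append, ← e2]
    rfl
  obtain ⟨Y2, rfl⟩ : ∃ Y2, Y1 = false :: Y2 := by
    refine nxt' (X := X ++ [false]) (e4 ▸ e1 ▸ ht) (e4 ▸ e1 ▸ h2) ?_ ?_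
    · rw [f1]
      exact (rLR d).symm
    · rw [f1, g1]
      change _ = c - d + rotR d + rotL (rotR d)
      rw [rLR, hr, hr2]
  have ht' : t = X ++ (pS ++ Y2) := by
    rw [e1]
    rfl
  refine ⟨X, Y2, ht', ?_, hc, e3⟩
  obtain ⟨k1, k2, k3, k4, k5, k6, k7, k8, k9⟩ := hex_ne (fd_mem up_mem X) (ctr X)
  rw [mem_SA, vlL]
  rw [mem_SA, ht', vlS] at ht
  rw [ht', vlS, ← hc, ← e3] at h3 h4 h5
  exact nd_SL ht h5 h4 h3 k1 k2 k3

/-- the face c in long state gives a place -/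
lemma place_of_Lo {t : List Bool} {c d : Pt} (ht : t ∈ SA) (h : Lo t c d) :
    ∃ X Y, t = X ++ (pL ++ Y) ∧ X ++ (pS ++ Y) ∈ SA ∧ ctr X = c ∧ fd up X = d := by
  obtain ⟨h0, h1, h2, h3, h4, h5⟩ := h
  obtain ⟨X, Y, e1, e2, e3⟩ := ev_split h0
  have hc : ctr X = c := by
    rw [ctr_eq, e2, e3]
    abel
  have hrl := rLR_add d
  have hr : c - d + rotL d = c - rotR d := by
    rw [← sub_eq_zero]
    have : c - d + rotL d - (c - rotR d) = rotL d + rotR d - d := by abel
    rw [this, hrl, sub_self]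
  have hr2 : c - rotR d + d = c + rotL d := by
    rw [← sub_eq_zero]
    have : c - rotR d + d - (c + rotL d) = d - (rotL d + rotR d) := by abel
    rw [this, hrl, sub_self]
  have hr3 : c + rotL d + rotR d = c + d := by rw [add_assoc, hrl]
  have hr4 : c + d + - rotL d = c + rotR d := by
    rw [← sub_eq_zero]
    have : c + d + - rotL d - (c + rotR d) = d - (rotL d + rotR d) := by abel
    rw [this, hrl, sub_self]
  obtain ⟨Y1, rfl⟩ : ∃ Y1, Y = false :: Y1 := by
    refine nxt' (e1 ▸ ht) (e1 ▸ h1) ?_ ?_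
    · rw [e3]
      rfl
    · rw [e2, e3]
      exact hr.symm
  have e4 : X ++ true :: false :: Y1 = (X ++ [true]) ++ false :: Y1 := by simp
  have f1 : fd up (X ++ [true]) = rotL d := by
    rw [fd_append, e3]
    rfl
  have g1 : fv oo up (X ++ [true]) = c - d := by
    rw [fv_append, ← e2]
    rfl
  obtain ⟨Y2, rfl⟩ : ∃ Y2, Y1 = false :: Y2 := by
    refine nxt' (X := X ++ [true]) (e4 ▸ e1 ▸ ht) (e4 ▸ e1 ▸ h2) ?_ ?_
    · rw [f1]
      exact (rRL d).symm
    · rw [f1, g1]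
      change _ = c - d + rotL d + rotR (rotL d)
      rw [rRL, hr, hr2]
  have e5 : X ++ true :: false :: false :: Y2 = (X ++ [true, false]) ++ false :: Y2 := by simp
  have f2 : fd up (X ++ [true, false]) = d := by
    rw [fd_append, e3]
    exact rRL d
  have g2 : fv oo up (X ++ [true, false]) = c - rotR d := by
    rw [fv_append, ← hr, ← e2, e3]
    rfl
  obtain ⟨Y3, rfl⟩ : ∃ Y3, Y2 = false :: Y3 := by
    refine nxt' (X := X ++ [true, false]) (e5 ▸ e1 ▸ ht) (e5 ▸ e1 ▸ h3) ?_ ?_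
    · rw [f2]
      rfl
    · rw [f2, g2]
      change _ = c - rotR d + d + rotR d
      rw [hr2, hr3]
  have e6 : X ++ true :: false :: false :: false :: Y3 = (X ++ [true, false, false]) ++ false :: Y3 := by simp
  have f3 : fd up (X ++ [true, false, false]) = rotR d := by
    rw [fd_append, e3]
    change rotR (rotR (rotL d)) = rotR d
    rw [rRL]
  have g3 : fv oo up (X ++ [true, false, false]) = c + rotL d := by
    rw [fv_append, ← hr2, ← hr, ← e2, e3]
    change fv oo up X + d + rotL d + rotR (rotL d) = _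
    rw [rRL]
  obtain ⟨Y4, rfl⟩ : ∃ Y4, Y3 = true :: Y4 := by
    refine nxt' (X := X ++ [true, false, false]) (e6 ▸ e1 ▸ ht) (e6 ▸ e1 ▸ h4) ?_ ?_
    · rw [f3]
      exact (rRR d).symm
    · rw [f3, g3]
      change _ = c + rotL d + rotR d + rotR (rotR d)
      rw [rRR, hr3, hr4]
  have ht' : t = X ++ (pL ++ Y4) := by
    rw [e1]
    rfl
  refine ⟨X, Y4, ht', ?_, hc, e3⟩
  rw [mem_SA, vlS]
  rw [mem_SA, ht', vlL] at ht
  rw [ht', vlL, ← hc, ← e3] at h5
  exact nd_LS ht h5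

end TOG

end HexObs
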