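import Pool.Agent.TOG.CountP
import Pool.Agent.SDN.SplitP

/-!
TOG: sums over words with a list of pieces in the middle; reversal; lower bound for the number of walks.
-/

set_option autoImplicit false

namespace HexObs

namespace TOG

open Finset TS SDN

open scoped ENNReal

/-- words with a list of pieces in the middle -/
theorem trip {S1 S2 : Set (List Bool)} {Pr : List Bool → List (List Bool) → List Bool → Prop} {b : ℝ≥0∞}
    (h : ∀ X Y, gl {l | Pr X l Y} ≤ b) :
    gf {t | ∃ X ∈ S1, ∃ Y ∈ S2, ∃ l, Pr X l Y ∧ t = X ++ (l.flatten ++ Y)} ≤ gf S1 * gf S2 * b := by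
  set T := {t | ∃ X ∈ S1, ∃ Y ∈ S2, ∃ l, Pr X l Y ∧ t = X ++ (l.flatten ++ Y)} with hT
  have key : ∀ t : T, ∃ X : S1, ∃ Y : S2, ∃ l : {l | Pr X.1 l Y.1}, t.1 = X.1 ++ (l.1.flatten ++ Y.1) := by
    rintro ⟨t, X, hX, Y, hY, l, hl, ht⟩
    exact ⟨⟨X, hX⟩, ⟨Y, hY⟩, ⟨l, hl⟩, ht⟩
  choose φ ψ ξ hk using key
  let F : (Σ X : S1, Σ Y : S2, {l | Pr X.1 l Y.1}) → ℝ≥0∞ := fun p => wE p.1.1 * (wE p.2.1.1 * wE p.2.2.1.flatten)
  let χ : T → Σ X : S1, Σ Y : S2, {l | Pr X.1 l Y.1} := fun t => ⟨φ t, ψ t, ξ t⟩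
  have hχ : Function.Injective χ := by
    intro a b hab
    apply Subtype.ext
    rw [hk a, hk b]
    exact congrArg (fun p : (Σ X : S1, Σ Y : S2, {l | Pr X.1 l Y.1}) => p.1.1 ++ (p.2.2.1.flatten ++ p.2.1.1)) hab
  calc gf T = ∑' t : T, F (χ t) := by
        unfold gf
        refine tsum_congr fun t => ?_
        show wE t.1 = wE (φ t).1 * (wE (ψ t).1 * wE (ξ t).1.flatten)
        rw [hk t, wE_append, wE_append, mul_comm (wE (ψ t).1)]
    _ ≤ ∑' p, F p := ENNReal.tsum_comp_le_tsum_of_injective hχ F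
    _ = ∑' X : S1, ∑' q : (Σ Y : S2, {l | Pr X.1 l Y.1}), wE X.1 * (wE q.1.1 * wE q.2.1.flatten) :=
        ENNReal.tsum_sigma' F
    _ ≤ ∑' X : S1, wE X.1 * (gf S2 * b) := by
        refine ENNReal.tsum_le_tsum fun X => ?_
        rw [ENNReal.tsum_mul_left]
        gcongr
        calc ∑' q : (Σ Y : S2, {l | Pr X.1 l Y.1}), (wE q.1.1 * wE q.2.1.flatten) =
            ∑' Y : S2, ∑' l : {l | Pr X.1 l Y.1}, wE Y.1 * wE l.1.flatten :=
              ENNReal.tsum_sigma' fun q : (Σ Y : S2, {l | Pr X.1 l Y.1}) => wE q.1.1 * wE q.2.1.flatten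
          _ ≤ ∑' Y : S2, wE Y.1 * b := by
              refine ENNReal.tsum_le_tsum fun Y => ?_
              rw [ENNReal.tsum_mul_left]
              gcongr
              exact h X.1 Y.1
          _ = gf S2 * b := by
              rw [ENNReal.tsum_mul_right]
              rfl
    _ = gf S1 * gf S2 * b := by
        rw [ENNReal.tsum_mul_right, mul_assoc]
        rfl

lemma rev_rev' (t : List Bool) : rev (rev t) = t := rev_rev t

lemma rvl_rvl (l : List (List Bool)) : rvl (rvl l) = l := by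
  unfold rvl
  rw [List.map_reverse, List.reverse_reverse, List.map_map]
  have : rev ∘ rev = id := by
    funext t
    exact rev_rev t
  rw [this, List.map_id]

/-- reversal of the list of pieces -/
lemma gl_rvl (P : List (List Bool) → Prop) : gl {l | P (rvl l)} ≤ gl {l | P l} := by
  unfold gl
  let ψ : {l | P (rvl l)} → {l | P l} := fun l => ⟨rvl l.1, l.2⟩
  have hψ : Function.Injective ψ := by
    intro a b hab
    have h1 : rvl a.1 = rvl b.1 := congrArg Subtype.val hab
    apply Subtype.ext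
    rw [← rvl_rvl a.1, ← rvl_rvl b.1, h1]
  calc ∑' l : {l | P (rvl l)}, wE l.1.flatten = ∑' l : {l | P (rvl l)}, wE (ψ l).1.flatten := by
        refine tsum_congr fun l => ?_
        show wE l.1.flatten = wE (rvl l.1).flatten
        rw [rvl_flatten, wE_rev]
    _ ≤ ∑' l : {l | P l}, wE l.1.flatten :=
        ENNReal.tsum_comp_le_tsum_of_injective hψ fun l : {l | P l} => wE l.1.flatten

/-- the reversed word -/
lemma rev_sa {w : List Bool} {b : Bool} (h : w ++ [b] ∈ SA) : rev w ∈ SA := by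
  refine ⟨fun _ _ _ => Set.mem_univ _, ?_⟩
  intro i k hik hk heq
  rw [rev_length] at hk
  have hd : -(dx up w w.length) ∈ dirs := by
    rw [mem_dirs]
    have := dx_mem up_dirs w w.length
    rw [mem_dirs] at this
    rw [← this]
    simp [nrm]
  obtain ⟨hu1, hu2⟩ := frame_dir hd
  have key := vx_rev oo up w
  rw [hu2] at key
  have h1 : vx (tip oo up w) (mulE (rotTo up (-(dx up w w.length))) up) (rev w) i =
      vx (tip oo up w) (mulE (rotTo up (-(dx up w w.length))) up) (rev w) k := by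
    rw [vx_frameN, vx_frameN, heq]
  rw [key i (by omega), key k (by omega)] at h1
  have h2 := h.inj (w.length + 1 - k) (w.length + 1 - i) (by omega) (by
    rw [List.length_append]
    simp)
  rw [vx_append (by omega), vx_append (by omega)] at h2
  exact h2 h1.symm

/-- lower bound for the number of the walks -/
lemma SawN_low {n : ℕ} (hn : 1 ≤ n) : 2 / 3 ≤ (cS n : ℝ) * xc ^ n := by
  have hx := xc_pos
  have hn0 : (0 : ℝ) < n := by exact_mod_cast hn
  have h1 : muB ≤ (aB n : ℝ) ^ ((1 : ℝ) / (n : ℝ)) := by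
    unfold muB
    refine ciInf_le ⟨0, ?_⟩ (⟨n, hn⟩ : {n : ℕ // 1 ≤ n})
    rintro x ⟨m, rfl⟩
    positivity
  have h2 : 1 / xc ≤ (aB n : ℝ) ^ ((1 : ℝ) / (n : ℝ)) := le_muB.trans h1
  have h3 : (1 / xc) ^ n ≤ (aB n : ℝ) := by
    have h4 := pow_le_pow_left₀ (by positivity : (0 : ℝ) ≤ 1 / xc) h2 n
    rwa [← Real.rpow_natCast ((aB n : ℝ) ^ ((1 : ℝ) / (n : ℝ))) n, ← Real.rpow_mul (by positivity),
      one_div_mul_cancel hn0.ne', Real.rpow_one] at h4
  have h5 : (2 : ℝ) * aB n = 3 * cS n := by exact_mod_cast aB_eq hn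
  have h6 : (1 / xc) ^ n * xc ^ n = 1 := by
    rw [← mul_pow, one_div_mul_cancel hx.ne', one_pow]
  have h7 : (1 / xc) ^ n * xc ^ n ≤ aB n * xc ^ n := mul_le_mul_of_nonneg_right h3 (by positivity)
  rw [h6] at h7
  have h8 : (cS n : ℝ) = 2 / 3 * aB n := by linarith
  rw [h8]
  nlinarith

end TOG

end HexObs
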