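import Mathlib.Algebra.BigOperators.Field
import Mathlib.Algebra.Order.BigOperators.Ring.Finset
import Mathlib.Algebra.Order.Floor.Semiring
import Mathlib.Logic.Relation
import Mathlib.Tactic

/-!
# Toggles with a weight: from invariant events to functions that change little under a toggle (helper83)

`T t t'`: `t'` comes from `t` by a toggle; `u t` = number of the toggles of `t` upwards, `v t'` = number of the toggles of
`t'` downwards. If the laws of the invariant events on `S` and on `S'` are close, then the means of every function that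
changes little under a toggle are close: **`wt_lim`**.
-/

set_option autoImplicit false

namespace HexObs

namespace TOG

open Finset

variable {Ω : Type*}

/-- the mean of the function over the class of t in S -/
noncomputable def hmean (S : Finset Ω) (T : Ω → Ω → Prop) (F : Ω → ℝ) (t : Ω) : ℝ := by
  classical
  exact (∑ s ∈ S.filter fun s => Relation.EqvGen T s t, F s) / ((S.filter fun s => Relation.EqvGen T s t).card : ℝ)

section

variable {S S' : Finset Ω} {T : Ω → Ω → Prop} {F : Ω → ℝ}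

lemma hmean_nonneg (h0 : ∀ t, 0 ≤ F t) (t : Ω) : 0 ≤ hmean S T F t := by
  classical
  exact div_nonneg (sum_nonneg fun s _ => h0 s) (Nat.cast_nonneg _)

lemma hmean_le_one (h1 : ∀ t, F t ≤ 1) (t : Ω) : hmean S T F t ≤ 1 := by
  classical
  refine div_le_one_of_le₀ ?_ (Nat.cast_nonneg _)
  calc ∑ s ∈ S.filter fun s => Relation.EqvGen T s t, F s ≤ ∑ s ∈ S.filter fun s => Relation.EqvGen T s t, (1 : ℝ) :=
        sum_le_sum fun s _ => h1 s
    _ = _ := by rw [sum_const, nsmul_eq_mul, mul_one]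

lemma hmean_congr {t t' : Ω} (h : Relation.EqvGen T t t') : hmean S T F t = hmean S T F t' := by
  classical
  have e : (S.filter fun s => Relation.EqvGen T s t) = S.filter fun s => Relation.EqvGen T s t' := by
    refine filter_congr fun s _ => ⟨fun h1 => h1.trans _ _ _ h, fun h1 => h1.trans _ _ _ (h.symm _ _)⟩
  unfold hmean
  rw [e]

/-- the mean of the class against a function of the class -/
lemma hmean_sum {g : Ω → ℝ} (hg : ∀ s ∈ S, ∀ t ∈ S, Relation.EqvGen T s t → g s = g t) :
    ∑ t ∈ S, hmean S T F t * g t = ∑ t ∈ S, F t * g t := by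
  classical
  have e1 : ∀ t ∈ S, hmean S T F t * g t =
      ∑ s ∈ S, if Relation.EqvGen T s t then F s * g t / ((S.filter fun s => Relation.EqvGen T s t).card : ℝ) else 0 := by
    intro t _
    rw [← sum_filter]
    unfold hmean
    rw [div_mul_eq_mul_div, sum_mul, sum_div]
  rw [sum_congr rfl e1, sum_comm]
  refine sum_congr rfl fun s hs => ?_
  have e2 : ∀ t ∈ S, (if Relation.EqvGen T s t then F s * g t / ((S.filter fun s => Relation.EqvGen T s t).card : ℝ)
      else 0) = if Relation.EqvGen T t s then F s * g s / ((S.filter fun r => Relation.EqvGen T r s).card : ℝ) else 0 := by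
    intro t ht
    by_cases h : Relation.EqvGen T s t
    · have e3 : (S.filter fun r => Relation.EqvGen T r t) = S.filter fun r => Relation.EqvGen T r s := by
        refine filter_congr fun r _ => ⟨fun h1 => h1.trans _ _ _ (h.symm _ _), fun h1 => h1.trans _ _ _ h⟩
      rw [if_pos h, if_pos (h.symm _ _), e3, hg s hs t ht h]
    · rw [if_neg h, if_neg fun h' => h (h'.symm _ _)]
  rw [sum_congr rfl e2, ← sum_filter, sum_const, nsmul_eq_mul]
  have h3 : ((S.filter fun r => Relation.EqvGen T r s).card : ℝ) ≠ 0 := by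
    have : 0 < (S.filter fun r => Relation.EqvGen T r s).card :=
      card_pos.2 ⟨s, mem_filter.2 ⟨hs, Relation.EqvGen.refl s⟩⟩
    exact_mod_cast this.ne'
  field_simp

/-- from the invariant events to the invariant functions -/
lemma inv_fun {h : Ω → ℝ} (h0 : ∀ t, 0 ≤ h t) (h1 : ∀ t, h t ≤ 1) {e : ℝ} {P : Set Ω → Prop}
    (hP : ∀ x : ℝ, P {t | x ≤ h t})
    (hS : S.Nonempty) (hS' : S'.Nonempty) (lim : ∀ C : Set Ω, P C → ∀ [DecidablePred (· ∈ C)],
      |((S'.filter (· ∈ C)).card : ℝ) / S'.card - ((S.filter (· ∈ C)).card : ℝ) / S.card| ≤ e) :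
    |(∑ t ∈ S', h t) / S'.card - (∑ t ∈ S, h t) / S.card| ≤ e := by
  classical
  refine le_of_forall_pos_le_add fun δ hδ => ?_
  obtain ⟨K, hK⟩ := exists_nat_gt (2 / δ)
  have hK0 : (0 : ℝ) < K := lt_trans (by positivity) hK
  -- the discretisation
  obtain ⟨d, hd⟩ : ∃ d : Ω → ℝ, d = fun t => (∑ k ∈ range K, if ((k : ℝ) + 1) / K ≤ h t then (1 : ℝ) else 0) / K :=
    ⟨_, rfl⟩
  have hdh : ∀ t, |h t - d t| ≤ 1 / K := by
    intro t
    have hx0 : 0 ≤ h t * K := mul_nonneg (h0 t) hK0.le
    have hfl : ∑ k ∈ range K, (if ((k : ℝ) + 1) / K ≤ h t then (1 : ℝ) else 0) = (⌊h t * K⌋₊ : ℝ) := by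
      rw [← sum_filter, sum_const, nsmul_eq_mul, mul_one]
      have e1 : (range K).filter (fun k : ℕ => ((k : ℝ) + 1) / K ≤ h t) = range ⌊h t * K⌋₊ := by
        ext k
        rw [mem_filter, mem_range, mem_range, div_le_iff₀ hK0, ← Nat.succ_le_iff (m := k) (n := ⌊h t * K⌋₊), Nat.le_floor_iff hx0]
        push_cast
        constructor
        · exact fun h2 => h2.2
        · intro h2
          refine ⟨?_, h2⟩
          have h3 : h t * K ≤ 1 * K := mul_le_mul_of_nonneg_right (h1 t) hK0.le
          have h4 : (k : ℝ) < K := by linarith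
          exact_mod_cast h4
      rw [e1, card_range]
    have e2 : d t = (⌊h t * K⌋₊ : ℝ) / K := by
      rw [hd]
      show (∑ k ∈ range K, (if ((k : ℝ) + 1) / K ≤ h t then (1 : ℝ) else 0)) / K = _
      rw [hfl]
    have h3 := Nat.floor_le hx0
    have h4 := Nat.lt_floor_add_one (h t * K)
    rw [e2, abs_le]
    constructor
    · have : (⌊h t * K⌋₊ : ℝ) / K ≤ h t := by
        rw [div_le_iff₀ hK0]
        exact h3
      have : (0 : ℝ) ≤ 1 / K := by positivity
      linarith
    · have : h t ≤ ((⌊h t * K⌋₊ : ℝ) + 1) / K := by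
        rw [le_div_iff₀ hK0]
        exact h4.le
      rw [add_div] at this
      linarith
  have hdS : ∀ R : Finset Ω, R.Nonempty → |(∑ t ∈ R, h t) / R.card - (∑ t ∈ R, d t) / R.card| ≤ 1 / K := by
    intro R hR
    have hR0 : (0 : ℝ) < R.card := by exact_mod_cast card_pos.2 hR
    rw [← sub_div, ← sum_sub_distrib, abs_div, abs_of_pos hR0, div_le_iff₀ hR0]
    refine (abs_sum_le_sum_abs _ _).trans ((sum_le_sum fun t _ => hdh t).trans (le_of_eq ?_))
    rw [sum_const, nsmul_eq_mul]
    ring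
  have hdC : ∀ R : Finset Ω, (∑ t ∈ R, d t) / R.card =
      (∑ k ∈ range K, ((R.filter fun t => ((k : ℝ) + 1) / K ≤ h t).card : ℝ) / R.card) / K := by
    intro R
    have e1 : ∑ t ∈ R, d t = (∑ k ∈ range K, ((R.filter fun t => ((k : ℝ) + 1) / K ≤ h t).card : ℝ)) / K := by
      rw [hd]
      show ∑ t ∈ R, (∑ k ∈ range K, (if ((k : ℝ) + 1) / K ≤ h t then (1 : ℝ) else 0)) / K = _
      rw [← sum_div, sum_comm]
      congr 1
      refine sum_congr rfl fun k _ => ?_
      rw [← sum_filter, sum_const, nsmul_eq_mul, mul_one]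
    rw [e1, ← sum_div]
    ring
  have key : |(∑ t ∈ S', d t) / S'.card - (∑ t ∈ S, d t) / S.card| ≤ e := by
    rw [hdC, hdC, ← sub_div, ← sum_sub_distrib, abs_div, abs_of_pos hK0, div_le_iff₀ hK0]
    refine (abs_sum_le_sum_abs _ _).trans (le_trans (sum_le_sum fun k _ => ?_) (b := ∑ _k ∈ range K, e) (le_of_eq ?_))
    · exact lim {t | ((k : ℝ) + 1) / K ≤ h t} (hP _)
    · rw [sum_const, card_range, nsmul_eq_mul]
      ring
  have a1 := hdS S' hS'
  have a2 := hdS S hS
  have a3 : 2 * (1 / (K : ℝ)) ≤ δ := by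
    rw [div_lt_iff₀ hδ] at hK
    rw [mul_one_div, div_le_iff₀ hK0]
    linarith
  rw [abs_le] at a1 a2 key ⊢
  constructor <;> linarith [a1.1, a1.2, a2.1, a2.2, key.1, key.2]

/-- **functions that change little under a toggle** -/
theorem wt_lim {u v : Ω → ℕ} {len : Ω → ℤ} (huv : ∀ t t', T t t' → u t = u t' + 1 ∧ v t' = v t + 1)
    (hlen : ∀ t t', T t t' → len t' = len t + 2) (hSl : ∀ s ∈ S, ∀ t ∈ S, len s = len t)
    (hup : ∀ t ∈ S, ∀ [DecidablePred (T t)], (S'.filter (T t)).card = u t)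
    (hdn : ∀ t' ∈ S', ∀ [DecidablePred fun t => T t t'], (S.filter fun t => T t t').card = v t')
    (hF0 : ∀ t, 0 ≤ F t) (hF1 : ∀ t, F t ≤ 1) {η e e' : ℝ} (hη : 0 ≤ η)
    (hF : ∀ t ∈ S, ∀ t' ∈ S', T t t' → |F t' - F t| ≤ η)
    (hS : S.Nonempty) (hS' : S'.Nonempty)
    (hfew : ((S'.filter fun t => v t = 0).card : ℝ) ≤ e' * S'.card)
    (lim : ∀ C : Set Ω, (∀ t t', T t t' → (t ∈ C ↔ t' ∈ C)) → ∀ [DecidablePred (· ∈ C)],
      |((S'.filter (· ∈ C)).card : ℝ) / S'.card - ((S.filter (· ∈ C)).card : ℝ) / S.card| ≤ e) :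
    |(∑ t ∈ S', F t) / S'.card - (∑ t ∈ S, F t) / S.card| ≤ e + η + e' := by
  classical
  obtain ⟨h, hh⟩ : ∃ h, h = hmean S T F := ⟨_, rfl⟩
  have hh0 : ∀ t, 0 ≤ h t := fun t => by rw [hh]; exact hmean_nonneg hF0 t
  have hh1 : ∀ t, h t ≤ 1 := fun t => by rw [hh]; exact hmean_le_one hF1 t
  have hhT : ∀ t t', T t t' → h t = h t' := fun t t' htt => by
    rw [hh]
    exact hmean_congr (Relation.EqvGen.rel _ _ htt)
  have c1 : (0 : ℝ) < S.card := by exact_mod_cast card_pos.2 hS
  have c2 : (0 : ℝ) < S'.card := by exact_mod_cast card_pos.2 hS'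
  -- the invariant function
  have k1 : |(∑ t ∈ S', h t) / S'.card - (∑ t ∈ S, h t) / S.card| ≤ e :=
    inv_fun hh0 hh1 (P := fun C => ∀ t t', T t t' → (t ∈ C ↔ t' ∈ C)) (fun x t t' htt => by
      show x ≤ h t ↔ x ≤ h t'
      rw [hhT t t' htt]) hS hS' lim
  -- on S
  have k2 : ∑ t ∈ S, h t = ∑ t ∈ S, F t := by
    have := hmean_sum (S := S) (T := T) (F := F) (g := fun _ => 1) (fun _ _ _ _ _ => rfl)
    simpa [hh] using this
  -- the invariants
  have inv : ∀ s t, Relation.EqvGen T s t → u s + v s = u t + v t ∧ len s - 2 * v s = len t - 2 * v t := by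
    intro s t hst
    induction hst with
    | rel a b hab =>
      have a1 := huv a b hab
      have a2 := hlen a b hab
      constructor
      · omega
      · rw [a2, a1.2]
        push_cast
        ring
    | refl a => exact ⟨rfl, rfl⟩
    | symm a b _ ih => exact ⟨ih.1.symm, ih.2.symm⟩
    | trans a b c _ _ ih1 ih2 => exact ⟨ih1.1.trans ih2.1, ih1.2.trans ih2.2⟩
  -- a function of the class
  have k3 : ∑ t ∈ S, (F t - h t) * ((u t : ℝ) / (v t + 1)) = 0 := by
    have := hmean_sum (S := S) (T := T) (F := F) (g := fun t => (u t : ℝ) / (v t + 1)) (fun s hs t ht hst => by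
      obtain ⟨i1, i2⟩ := inv s t hst
      have i3 := hSl s hs t ht
      have i4 : v s = v t := by omega
      have i5 : u s = u t := by omega
      simp only [i4, i5])
    have e1 : ∑ t ∈ S, (F t - h t) * ((u t : ℝ) / (v t + 1)) =
        ∑ t ∈ S, F t * ((u t : ℝ) / (v t + 1)) - ∑ t ∈ S, h t * ((u t : ℝ) / (v t + 1)) := by
      rw [← sum_sub_distrib]
      exact sum_congr rfl fun t _ => by ring
    rw [e1, hh, this, sub_self]
  -- the pairs
  obtain ⟨W, hW⟩ : ∃ W : Ω → Ω → ℝ, W = fun t t' => if T t t' then (1 : ℝ) / v t' else 0 := ⟨_, rfl⟩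
  have hWdn : ∀ t' ∈ S', ∑ t ∈ S, W t t' = if v t' = 0 then 0 else 1 := by
    intro t' ht'
    rw [hW]
    simp only
    rw [← sum_filter, sum_const, hdn t' ht', nsmul_eq_mul]
    split_ifs with h0
    · rw [h0, Nat.cast_zero, zero_mul]
    · have : (v t' : ℝ) ≠ 0 := by exact_mod_cast h0
      field_simp
  have hWup : ∀ t ∈ S, ∑ t' ∈ S', W t t' = (u t : ℝ) / (v t + 1) := by
    intro t ht
    have e1 : ∀ t' ∈ S', W t t' = if T t t' then (1 : ℝ) / (v t + 1) else 0 := by
      intro t' _
      rw [hW]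
      simp only
      split_ifs with h1
      · rw [(huv t t' h1).2]
        push_cast
        rfl
      · rfl
    rw [sum_congr rfl e1, ← sum_filter, sum_const, hup t ht, nsmul_eq_mul]
    ring
  have k4 : ∑ t' ∈ S', (F t' - h t') = ∑ t' ∈ S'.filter (fun t => v t = 0), (F t' - h t') +
      ∑ t' ∈ S', ∑ t ∈ S, W t t' * (F t' - F t) := by
    have e1 : ∑ t' ∈ S', ∑ t ∈ S, W t t' * (F t' - F t) =
        ∑ t' ∈ S', ∑ t ∈ S, W t t' * (F t' - h t') - ∑ t' ∈ S', ∑ t ∈ S, W t t' * (F t - h t) := by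
      rw [← sum_sub_distrib]
      refine sum_congr rfl fun t' _ => ?_
      rw [← sum_sub_distrib]
      refine sum_congr rfl fun t _ => ?_
      rw [hW]
      simp only
      split_ifs with h1
      · rw [hhT t t' h1]
        ring
      · ring
    have e2 : ∑ t' ∈ S', ∑ t ∈ S, W t t' * (F t - h t) = 0 := by
      rw [sum_comm, ← k3]
      refine sum_congr rfl fun t ht => ?_
      rw [← sum_mul, hWup t ht]
      ring
    have e3 : ∑ t' ∈ S', ∑ t ∈ S, W t t' * (F t' - h t') =
        ∑ t' ∈ S', if v t' = 0 then 0 else (F t' - h t') := by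
      refine sum_congr rfl fun t' ht' => ?_
      rw [← sum_mul, hWdn t' ht']
      split_ifs <;> ring
    rw [e1, e2, sub_zero, e3, sum_filter, ← sum_add_distrib]
    refine sum_congr rfl fun t' _ => ?_
    split_ifs <;> ring
  have k5 : |∑ t' ∈ S'.filter (fun t => v t = 0), (F t' - h t')| ≤ e' * S'.card := by
    refine (abs_sum_le_sum_abs _ _).trans (le_trans (sum_le_sum fun t' _ => ?_)
      (b := ∑ _t' ∈ S'.filter (fun t => v t = 0), (1 : ℝ)) ?_)
    · rw [abs_le]
      constructor <;> linarith [hF0 t', hF1 t', hh0 t', hh1 t']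
    · rw [sum_const, nsmul_eq_mul, mul_one]
      exact hfew
  have k6 : |∑ t' ∈ S', ∑ t ∈ S, W t t' * (F t' - F t)| ≤ η * S'.card := by
    refine (abs_sum_le_sum_abs _ _).trans (le_trans (sum_le_sum fun t' ht' => ?_) (b := ∑ _t' ∈ S', η) (le_of_eq ?_))
    · refine (abs_sum_le_sum_abs _ _).trans (le_trans (sum_le_sum fun t ht => ?_) (b := ∑ t ∈ S, W t t' * η) ?_)
      · rw [abs_mul]
        by_cases h1 : T t t'
        · have hw0 : 0 ≤ W t t' := by
            rw [hW]
            simp only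
            rw [if_pos h1]
            positivity
          rw [abs_of_nonneg hw0]
          exact mul_le_mul_of_nonneg_left (hF t ht t' ht' h1) hw0
        · have hw0 : W t t' = 0 := by
            rw [hW]
            simp only
            rw [if_neg h1]
          rw [hw0, abs_zero, zero_mul, zero_mul]
      · rw [← sum_mul, hWdn t' ht']
        split_ifs
        · linarith
        · linarith
    · rw [sum_const, nsmul_eq_mul]
      ring
  have k7 : |(∑ t ∈ S', F t) / S'.card - (∑ t ∈ S', h t) / S'.card| ≤ η + e' := by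
    rw [← sub_div, ← sum_sub_distrib, abs_div, abs_of_pos c2, div_le_iff₀ c2, k4]
    refine (abs_add_le _ _).trans ?_
    linarith
  rw [k2] at k1
  rw [abs_le] at k1 k7 ⊢
  constructor <;> linarith [k1.1, k1.2, k7.1, k7.2]

end

end TOG

end HexObs
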